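import Mathlib

set_option autoImplicit false
set_option linter.unusedSectionVars false

/-! Averages in a normed algebra with a bounded one-parameter family. -/

namespace Pool.Agent.H33.Cor

open Finset

variable {𝔹 : Type*} [NormedRing 𝔹] [NormedAlgebra ℂ 𝔹]

/-- a contractive representation of `ℤ` -/
structure Rep (σ : ℤ → 𝔹) : Prop where
  zero : σ 0 = 1
  add : ∀ m n, σ (m + n) = σ m * σ n
  norm : ∀ n, ‖σ n‖ ≤ 1

/-- the Fejér average -/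
noncomputable def Lm (σ : ℤ → 𝔹) (L : ℕ) : 𝔹 :=
  ((L : ℂ) ^ 2)⁻¹ • ∑ p ∈ range L, ∑ s ∈ range L, σ ((p : ℤ) - s)

section rep

variable {σ : ℤ → 𝔹} (hσ : Rep σ)

include hσ

lemma Rep.comm (m n : ℤ) : σ m * σ n = σ n * σ m := by
  rw [← hσ.add, ← hσ.add, add_comm]

lemma Rep.comm_Lm (m : ℤ) (L : ℕ) : σ m * Lm σ L = Lm σ L * σ m := by
  unfold Lm
  rw [mul_smul_comm, smul_mul_assoc, mul_sum, sum_mul]
  congr 1
  refine sum_congr rfl fun p _ => ?_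
  rw [mul_sum, sum_mul]
  exact sum_congr rfl fun s _ => hσ.comm _ _

omit hσ in
lemma Lm_comm_of {x : 𝔹} (hx : ∀ m, σ m * x = x * σ m) (L : ℕ) : Lm σ L * x = x * Lm σ L := by
  unfold Lm
  rw [smul_mul_assoc, mul_smul_comm, sum_mul, mul_sum]
  congr 1
  refine sum_congr rfl fun p _ => ?_
  rw [sum_mul, mul_sum]
  exact sum_congr rfl fun s _ => hx _

lemma Rep.Lm_comm (L L' : ℕ) : Lm σ L * Lm σ L' = Lm σ L' * Lm σ L :=
  Lm_comm_of (fun m => hσ.comm_Lm m L') L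

lemma Rep.Lm_norm {L : ℕ} (hL : 0 < L) : ‖Lm σ L‖ ≤ 1 := by
  unfold Lm
  rw [norm_smul, norm_inv, norm_pow, Complex.norm_natCast]
  have h1 : ‖∑ p ∈ range L, ∑ s ∈ range L, σ ((p : ℤ) - s)‖ ≤ (L : ℝ) ^ 2 := by
    refine (norm_sum_le _ _).trans ?_
    calc ∑ p ∈ range L, ‖∑ s ∈ range L, σ ((p : ℤ) - s)‖
        ≤ ∑ p ∈ range L, ∑ s ∈ range L, (1 : ℝ) := by
          refine sum_le_sum fun p _ => (norm_sum_le _ _).trans (sum_le_sum fun s _ => hσ.norm _)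
      _ = (L : ℝ) ^ 2 := by simp; ring
  have hL' : (0 : ℝ) < (L : ℝ) ^ 2 := by positivity
  rw [inv_mul_le_iff₀ hL', mul_one]
  exact h1

lemma Rep.diff_nat (n L : ℕ) :
    ‖(σ n - 1) * ∑ p ∈ range L, σ (p : ℤ)‖ ≤ 2 * n := by
  have h1 : (σ n - 1) * ∑ p ∈ range L, σ (p : ℤ) =
      ∑ p ∈ range n, σ ((L + p : ℕ) : ℤ) - ∑ p ∈ range n, σ (p : ℤ) := by
    have h2 : σ n * ∑ p ∈ range L, σ (p : ℤ) = ∑ p ∈ range L, σ ((n + p : ℕ) : ℤ) := by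
      rw [mul_sum]
      refine sum_congr rfl fun p _ => ?_
      rw [← hσ.add]; push_cast; rfl
    rw [sub_mul, one_mul, h2]
    have h3 := sum_range_add (fun p => σ ((p : ℕ) : ℤ)) n L
    have h4 := sum_range_add (fun p => σ ((p : ℕ) : ℤ)) L n
    rw [add_comm n L, h4] at h3
    rw [sub_eq_sub_iff_add_eq_add, add_comm (∑ x ∈ range L, σ _), ← h3, add_comm]
  rw [h1]
  refine (norm_sub_le _ _).trans ?_
  have h5 : ‖∑ p ∈ range n, σ ((L + p : ℕ) : ℤ)‖ ≤ n := by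
    refine (norm_sum_le _ _).trans ((sum_le_sum fun p _ => hσ.norm _).trans ?_)
    simp
  have h6 : ‖∑ p ∈ range n, σ (p : ℤ)‖ ≤ n := by
    refine (norm_sum_le _ _).trans ((sum_le_sum fun p _ => hσ.norm _).trans ?_)
    simp
  linarith

lemma Rep.Lm_eq (L : ℕ) : Lm σ L = ((L : ℂ) ^ 2)⁻¹ •
    ((∑ p ∈ range L, σ (p : ℤ)) * ∑ s ∈ range L, σ (-(s : ℤ))) := by
  unfold Lm
  rw [sum_mul_sum]
  congr 1
  refine sum_congr rfl fun p _ => sum_congr rfl fun s _ => ?_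
  rw [← hσ.add, sub_eq_add_neg]

lemma Rep.Lm_diff_nat (n L : ℕ) : ‖(σ n - 1) * Lm σ L‖ ≤ 2 * n / L := by
  rcases Nat.eq_zero_or_pos L with rfl | hL
  · unfold Lm; simp
  rw [hσ.Lm_eq, mul_smul_comm, ← mul_assoc, norm_smul, norm_inv, norm_pow, Complex.norm_natCast]
  have h1 := hσ.diff_nat n L
  have h2 : ‖∑ s ∈ range L, σ (-(s : ℤ))‖ ≤ L := by
    refine (norm_sum_le _ _).trans ((sum_le_sum fun p _ => hσ.norm _).trans ?_)
    simp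
  have h3 : ‖(σ n - 1) * (∑ p ∈ range L, σ (p : ℤ)) * ∑ s ∈ range L, σ (-(s : ℤ))‖ ≤
      2 * n * L := (norm_mul_le _ _).trans (mul_le_mul h1 h2 (norm_nonneg _) (by positivity))
  have hL' : (0 : ℝ) < L := by positivity
  rw [inv_mul_le_iff₀ (by positivity)]
  calc _ ≤ 2 * (n : ℝ) * L := h3
    _ = (L : ℝ) ^ 2 * (2 * n / L) := by field_simp

lemma Rep.neg_mul_self (n : ℤ) : σ (-n) * σ n = 1 := by
  rw [← hσ.add, neg_add_cancel, hσ.zero]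

lemma Rep.Lm_diff (n : ℤ) (L : ℕ) : ‖(σ n - 1) * Lm σ L‖ ≤ 2 * n.natAbs / L := by
  rcases Int.natAbs_eq n with h | h
  · conv_lhs => rw [h]
    exact hσ.Lm_diff_nat _ _
  · set m := n.natAbs with hm
    rw [h]
    have h1 : (σ (-(m : ℤ)) - 1) * Lm σ L = -(σ (-(m : ℤ)) * ((σ (m : ℤ) - 1) * Lm σ L)) := by
      rw [← mul_assoc, mul_sub, hσ.neg_mul_self, mul_one, ← neg_mul, neg_sub]
    rw [h1, norm_neg]
    refine (norm_mul_le _ _).trans ?_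
    have h2 := hσ.Lm_diff_nat m L
    calc ‖σ (-(m : ℤ))‖ * ‖(σ (m : ℤ) - 1) * Lm σ L‖ ≤ 1 * (2 * m / L) :=
          mul_le_mul (hσ.norm _) h2 (norm_nonneg _) zero_le_one
      _ = _ := one_mul _

lemma Rep.Lm_mul {L : ℕ} (hL : 0 < L) (L' : ℕ) :
    ‖Lm σ L * Lm σ L' - Lm σ L'‖ ≤ 2 * (L / L') := by
  have h1 : Lm σ L * Lm σ L' - Lm σ L' = ((L : ℂ) ^ 2)⁻¹ •
      ∑ p ∈ range L, ∑ s ∈ range L, (σ ((p : ℤ) - s) - 1) * Lm σ L' := by
    have h2 : ∀ x : 𝔹, x = ((L : ℂ) ^ 2)⁻¹ • ∑ _p ∈ range L, ∑ _s ∈ range L, x := by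
      intro x
      rw [sum_const, sum_const, card_range, ← Nat.cast_smul_eq_nsmul ℂ,
        ← Nat.cast_smul_eq_nsmul ℂ, smul_smul, smul_smul]
      have : (L : ℂ) ≠ 0 := by exact_mod_cast hL.ne'
      rw [show ((L : ℂ) ^ 2)⁻¹ * (L : ℂ) * L = 1 by field_simp, one_smul]
    have h3 : Lm σ L * Lm σ L' = ((L : ℂ) ^ 2)⁻¹ • ∑ p ∈ range L, ∑ s ∈ range L,
      σ ((p : ℤ) - s) * Lm σ L' := by
      conv_lhs => rw [show Lm σ L = ((L : ℂ) ^ 2)⁻¹ • ∑ p ∈ range L, ∑ s ∈ range L,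
        σ ((p : ℤ) - s) from rfl]
      rw [smul_mul_assoc, sum_mul]
      simp only [sum_mul]
    rw [h3]
    conv_lhs => rw [h2 (Lm σ L')]
    rw [← h2 (Lm σ L')]
    conv_lhs =>
      rhs
      rw [h2 (Lm σ L')]
    rw [← smul_sub, ← sum_sub_distrib]
    congr 1
    refine sum_congr rfl fun p _ => ?_
    rw [← sum_sub_distrib]
    exact sum_congr rfl fun s _ => by rw [sub_mul, one_mul]
  rw [h1, norm_smul, norm_inv, norm_pow, Complex.norm_natCast]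
  have h3 : ‖∑ p ∈ range L, ∑ s ∈ range L, (σ ((p : ℤ) - s) - 1) * Lm σ L'‖ ≤
      (L : ℝ) ^ 2 * (2 * (L / L')) := by
    refine (norm_sum_le _ _).trans ?_
    calc ∑ p ∈ range L, ‖∑ s ∈ range L, (σ ((p : ℤ) - s) - 1) * Lm σ L'‖
        ≤ ∑ p ∈ range L, ∑ s ∈ range L, (2 * ((L : ℝ) / L')) := by
          refine sum_le_sum fun p hp => (norm_sum_le _ _).trans (sum_le_sum fun s hs => ?_)
          refine (hσ.Lm_diff _ _).trans ?_
          have h4 : (((p : ℤ) - s).natAbs : ℝ) ≤ L := by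
            have h5 := mem_range.mp hp
            have h6 := mem_range.mp hs
            have : ((p : ℤ) - s).natAbs ≤ L := by omega
            exact_mod_cast this
          rw [mul_div_assoc]
          exact mul_le_mul_of_nonneg_left (div_le_div_of_nonneg_right h4 (by positivity))
            (by norm_num)
      _ = (L : ℝ) ^ 2 * (2 * (L / L')) := by
          rw [sum_const, sum_const, card_range, nsmul_eq_mul, nsmul_eq_mul]; ring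
  have hL' : (0 : ℝ) < (L : ℝ) ^ 2 := by positivity
  rw [inv_mul_le_iff₀ hL']
  exact h3

end rep

/-! ### the scales -/

/-- the scales -/
def q (i : ℕ) : ℕ := 2 ^ (20 * (i + 5) ^ 2)

lemma q_pos (i : ℕ) : 0 < q i := by unfold q; positivity

lemma q_dvd {i j : ℕ} (h : i ≤ j) : q i ∣ q j := by
  unfold q
  exact pow_dvd_pow 2 (Nat.mul_le_mul_left _ (Nat.pow_le_pow_left (by omega) 2))

lemma q_gap {i j : ℕ} (h : i < j) : 2 ^ (40 * j + 100) * q i ≤ q j := by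
  unfold q
  rw [← pow_add]
  refine Nat.pow_le_pow_right (by norm_num) ?_
  obtain ⟨k, rfl⟩ : ∃ k, j = i + 1 + k := ⟨j - (i + 1), by omega⟩
  nlinarith [Nat.zero_le (k * i), Nat.zero_le k, Nat.zero_le (k * k)]

lemma q_ratio {i j : ℕ} (h : i < j) : (q i : ℝ) / q j ≤ (1 / 2 : ℝ) ^ (40 * j + 100) := by
  have h1 : ((2 ^ (40 * j + 100) * q i : ℕ) : ℝ) ≤ (q j : ℝ) := by exact_mod_cast q_gap h
  push_cast at h1
  have h2 : (0 : ℝ) < q j := by exact_mod_cast q_pos j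
  rw [div_le_iff₀ h2, one_div, inv_pow, ← div_eq_inv_mul, le_div_iff₀ (by positivity)]
  linarith

attribute [irreducible] q

/-- the shift of the `j`-th block -/
def Nn (j : ℕ) : ℕ := q (6 * j + 5)

/-- the shifts in the `j`-th Riesz block -/
def Rr (j l : ℕ) : ℕ := q (6 * j + 2) * 8 ^ (l + 1)

/-- the block -/
noncomputable def Dj (σ : ℤ → 𝔹) (j : ℕ) : 𝔹 := Lm σ (q (6 * j)) - Lm σ (q (6 * j + 4))

/-- the inner block -/
noncomputable def Kj (σ : ℤ → 𝔹) (j : ℕ) : 𝔹 := Lm σ (q (6 * j + 1)) - Lm σ (q (6 * j + 3))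

/-- the average of cosines -/
noncomputable def Hj (σ : ℤ → 𝔹) (j : ℕ) : 𝔹 :=
  (((j + 1 : ℕ) : ℂ))⁻¹ • ∑ l ∈ range (j + 1), (1 / 2 : ℂ) • (σ (Rr j l) + σ (-(Rr j l : ℤ)))

/-- the first generator (finite level) -/
noncomputable def G1 (σ : ℤ → 𝔹) (J : ℕ) : 𝔹 := ∑ j ∈ range J, σ (Nn j) * Dj σ j

/-- the second generator (finite level) -/
noncomputable def G2 (σ : ℤ → 𝔹) (J : ℕ) : 𝔹 := ∑ j ∈ range J, σ (Nn j) * (Hj σ j * Kj σ j)

/-- the sum of the blocks without shifts -/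
noncomputable def DD (σ : ℤ → 𝔹) (J : ℕ) : 𝔹 := ∑ j ∈ range J, Dj σ j

/-- the reflected first generator -/
noncomputable def G1m (σ : ℤ → 𝔹) (J : ℕ) : 𝔹 := ∑ j ∈ range J, σ (-(Nn j : ℤ)) * Dj σ j

section rep2

variable {σ : ℤ → 𝔹} (hσ : Rep σ)

include hσ

lemma Rep.qq {i j : ℕ} (h : i < j) :
    ‖Lm σ (q i) * Lm σ (q j) - Lm σ (q j)‖ ≤ (1 / 2 : ℝ) ^ (40 * j + 99) := by
  refine (hσ.Lm_mul (q_pos i) (q j)).trans ?_
  have := q_ratio h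
  calc 2 * ((q i : ℝ) / q j) ≤ 2 * (1 / 2 : ℝ) ^ (40 * j + 100) := by linarith
    _ = _ := by rw [show 40 * j + 100 = (40 * j + 99) + 1 by ring, pow_succ]; ring

lemma Rep.qq' {i j : ℕ} (h : i < j) :
    ‖Lm σ (q j) * Lm σ (q i) - Lm σ (q j)‖ ≤ (1 / 2 : ℝ) ^ (40 * j + 99) := by
  rw [hσ.Lm_comm]; exact hσ.qq h

lemma half_mono {m n : ℕ} (h : m ≤ n) : (1 / 2 : ℝ) ^ n ≤ (1 / 2 : ℝ) ^ m :=
  pow_le_pow_of_le_one (by norm_num) (by norm_num) h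

lemma Rep.sep {i₁ i₂ i₃ i₄ : ℕ} (h12 : i₁ < i₂) (h23 : i₂ < i₃) (h34 : i₃ < i₄) :
    ‖(Lm σ (q i₁) - Lm σ (q i₂)) * (Lm σ (q i₃) - Lm σ (q i₄))‖ ≤
      (1 / 2 : ℝ) ^ (40 * i₃ + 97) := by
  have h1 : (Lm σ (q i₁) - Lm σ (q i₂)) * (Lm σ (q i₃) - Lm σ (q i₄)) =
      (Lm σ (q i₁) * Lm σ (q i₃) - Lm σ (q i₃)) - (Lm σ (q i₁) * Lm σ (q i₄) - Lm σ (q i₄)) -
      (Lm σ (q i₂) * Lm σ (q i₃) - Lm σ (q i₃)) + (Lm σ (q i₂) * Lm σ (q i₄) - Lm σ (q i₄)) := by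
    noncomm_ring
  rw [h1]
  have a1 := hσ.qq (h12.trans h23)
  have a2 := hσ.qq (h12.trans (h23.trans h34))
  have a3 := hσ.qq h23
  have a4 := hσ.qq (h23.trans h34)
  have m1 := half_mono hσ (show 40 * i₃ + 99 ≤ 40 * i₄ + 99 by omega)
  have e1 : (1 / 2 : ℝ) ^ (40 * i₃ + 97) = 4 * (1 / 2 : ℝ) ^ (40 * i₃ + 99) := by
    rw [show 40 * i₃ + 99 = (40 * i₃ + 97) + 2 by ring, pow_add]; ring
  rw [e1]
  refine (norm_add_le _ _).trans ?_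
  have b1 := norm_sub_le ((Lm σ (q i₁) * Lm σ (q i₃) - Lm σ (q i₃)) -
    (Lm σ (q i₁) * Lm σ (q i₄) - Lm σ (q i₄))) (Lm σ (q i₂) * Lm σ (q i₃) - Lm σ (q i₃))
  have b2 := norm_sub_le (Lm σ (q i₁) * Lm σ (q i₃) - Lm σ (q i₃))
    (Lm σ (q i₁) * Lm σ (q i₄) - Lm σ (q i₄))
  linarith

lemma Rep.nest {i₁ i₂ i₃ i₄ : ℕ} (h13 : i₁ < i₃) (h34 : i₃ < i₄) (h42 : i₄ < i₂) :
    ‖(Lm σ (q i₃) - Lm σ (q i₄)) - (Lm σ (q i₃) - Lm σ (q i₄)) *
      (Lm σ (q i₁) - Lm σ (q i₂))‖ ≤ (1 / 2 : ℝ) ^ (40 * i₃ + 97) := by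
  have h1 : (Lm σ (q i₃) - Lm σ (q i₄)) - (Lm σ (q i₃) - Lm σ (q i₄)) *
      (Lm σ (q i₁) - Lm σ (q i₂)) =
      -(Lm σ (q i₃) * Lm σ (q i₁) - Lm σ (q i₃)) + (Lm σ (q i₄) * Lm σ (q i₁) - Lm σ (q i₄)) +
      (Lm σ (q i₃) * Lm σ (q i₂) - Lm σ (q i₂)) - (Lm σ (q i₄) * Lm σ (q i₂) - Lm σ (q i₂)) := by
    noncomm_ring
  rw [h1]
  have a1 := hσ.qq' h13
  have a2 := hσ.qq' (h13.trans h34)
  have a3 := hσ.qq (h34.trans h42)
  have a4 := hσ.qq h42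
  have m1 := half_mono hσ (show 40 * i₃ + 99 ≤ 40 * i₄ + 99 by omega)
  have m2 := half_mono hσ (show 40 * i₃ + 99 ≤ 40 * i₂ + 99 by omega)
  have e1 : (1 / 2 : ℝ) ^ (40 * i₃ + 97) = 4 * (1 / 2 : ℝ) ^ (40 * i₃ + 99) := by
    rw [show 40 * i₃ + 99 = (40 * i₃ + 97) + 2 by ring, pow_add]; ring
  rw [e1]
  refine (norm_sub_le _ _).trans ?_
  have b1 := norm_add_le (-(Lm σ (q i₃) * Lm σ (q i₁) - Lm σ (q i₃)) +
    (Lm σ (q i₄) * Lm σ (q i₁) - Lm σ (q i₄))) (Lm σ (q i₃) * Lm σ (q i₂) - Lm σ (q i₂))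
  have b2 := norm_add_le (-(Lm σ (q i₃) * Lm σ (q i₁) - Lm σ (q i₃)))
    (Lm σ (q i₄) * Lm σ (q i₁) - Lm σ (q i₄))
  rw [norm_neg] at b2
  linarith

lemma Rep.comm_Dj (m : ℤ) (j : ℕ) : σ m * Dj σ j = Dj σ j * σ m := by
  unfold Dj; rw [mul_sub, sub_mul, hσ.comm_Lm, hσ.comm_Lm]

lemma Rep.Dj_comm (i j : ℕ) : Dj σ i * Dj σ j = Dj σ j * Dj σ i := by
  unfold Dj
  simp only [mul_sub, sub_mul]
  rw [hσ.Lm_comm (q (6 * i)) (q (6 * j)), hσ.Lm_comm (q (6 * i)) (q (6 * j + 4)),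
    hσ.Lm_comm (q (6 * i + 4)) (q (6 * j)), hσ.Lm_comm (q (6 * i + 4)) (q (6 * j + 4))]
  abel

lemma Rep.Dj_Kj_comm (i j : ℕ) : Dj σ i * Kj σ j = Kj σ j * Dj σ i := by
  unfold Dj Kj
  simp only [mul_sub, sub_mul]
  rw [hσ.Lm_comm (q (6 * i)) (q (6 * j + 1)), hσ.Lm_comm (q (6 * i)) (q (6 * j + 3)),
    hσ.Lm_comm (q (6 * i + 4)) (q (6 * j + 1)), hσ.Lm_comm (q (6 * i + 4)) (q (6 * j + 3))]
  abel

lemma Rep.DD_small {i j : ℕ} (h : i ≠ j) : ‖Dj σ i * Dj σ j‖ ≤ (1 / 2 : ℝ) ^ (90 + i + j) := by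
  rcases lt_or_gt_of_ne h with h | h
  · unfold Dj
    refine (hσ.sep (show 6 * i < 6 * i + 4 by omega) (show 6 * i + 4 < 6 * j by omega)
      (show 6 * j < 6 * j + 4 by omega)).trans (half_mono hσ (by omega))
  · rw [hσ.Dj_comm]
    unfold Dj
    refine (hσ.sep (show 6 * j < 6 * j + 4 by omega) (show 6 * j + 4 < 6 * i by omega)
      (show 6 * i < 6 * i + 4 by omega)).trans (half_mono hσ (by omega))

lemma Rep.KD_small {i j : ℕ} (h : i ≠ j) : ‖Kj σ i * Dj σ j‖ ≤ (1 / 2 : ℝ) ^ (90 + i + j) := by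
  rcases lt_or_gt_of_ne h with h | h
  · unfold Dj Kj
    refine (hσ.sep (show 6 * i + 1 < 6 * i + 3 by omega) (show 6 * i + 3 < 6 * j by omega)
      (show 6 * j < 6 * j + 4 by omega)).trans (half_mono hσ (by omega))
  · rw [← hσ.Dj_Kj_comm]
    unfold Dj Kj
    refine (hσ.sep (show 6 * j < 6 * j + 4 by omega) (show 6 * j + 4 < 6 * i + 1 by omega)
      (show 6 * i + 1 < 6 * i + 3 by omega)).trans (half_mono hσ (by omega))

lemma Rep.KK_small (j : ℕ) : ‖Kj σ j - Kj σ j * Dj σ j‖ ≤ (1 / 2 : ℝ) ^ (90 + j) := by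
  unfold Dj Kj
  exact (hσ.nest (show 6 * j < 6 * j + 1 by omega) (show 6 * j + 1 < 6 * j + 3 by omega)
    (show 6 * j + 3 < 6 * j + 4 by omega)).trans (half_mono hσ (by omega))

lemma Rep.Hj_norm (j : ℕ) : ‖Hj σ j‖ ≤ 1 := by
  unfold Hj
  have hj : (0 : ℝ) < ((j + 1 : ℕ) : ℝ) := by positivity
  rw [norm_smul, norm_inv, Complex.norm_natCast, inv_mul_le_iff₀ hj, mul_one]
  refine (norm_sum_le _ _).trans ?_
  calc ∑ l ∈ range (j + 1), ‖(1 / 2 : ℂ) • (σ (Rr j l) + σ (-(Rr j l : ℤ)))‖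
      ≤ ∑ l ∈ range (j + 1), (1 : ℝ) := by
        refine sum_le_sum fun l _ => ?_
        have h0 : ‖(1 / 2 : ℂ)‖ = 1 / 2 := by norm_num
        rw [norm_smul, h0]
        have := norm_add_le (σ (Rr j l)) (σ (-(Rr j l : ℤ)))
        have h1 := hσ.norm (Rr j l)
        have h2 := hσ.norm (-(Rr j l : ℤ))
        linarith
    _ = ((j + 1 : ℕ) : ℝ) := by simp

lemma geom_half_le (J : ℕ) : ∑ j ∈ range J, (1 / 2 : ℝ) ^ j ≤ 2 := by
  have := geom_sum_eq (show (1 / 2 : ℝ) ≠ 1 by norm_num) J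
  rw [this]
  have h : (0 : ℝ) ≤ (1 / 2) ^ J := by positivity
  rw [div_le_iff_of_neg (by norm_num)]
  linarith

lemma Rep.sum_off {F : ℕ → ℕ → 𝔹} (C : ℝ) (hC : 0 ≤ C) (J j : ℕ)
    (hF : ∀ i, i ≠ j → ‖F j i‖ ≤ C * (1 / 2 : ℝ) ^ (90 + i + j)) :
    ‖∑ i ∈ (range J).erase j, F j i‖ ≤ C * (2 * (1 / 2 : ℝ) ^ (90 + j)) := by
  refine (norm_sum_le _ _).trans ?_
  calc ∑ i ∈ (range J).erase j, ‖F j i‖
      ≤ ∑ i ∈ (range J).erase j, C * (1 / 2 : ℝ) ^ (90 + i + j) :=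
        sum_le_sum fun i hi => hF i (ne_of_mem_erase hi)
    _ ≤ ∑ i ∈ range J, C * (1 / 2 : ℝ) ^ (90 + i + j) :=
        sum_le_sum_of_subset_of_nonneg (erase_subset _ _) fun _ _ _ => by positivity
    _ = C * ((∑ i ∈ range J, (1 / 2 : ℝ) ^ i) * (1 / 2 : ℝ) ^ (90 + j)) := by
        rw [sum_mul, mul_sum]
        refine sum_congr rfl fun i _ => ?_
        rw [← pow_add]
        congr 2
        ring
    _ ≤ C * (2 * (1 / 2 : ℝ) ^ (90 + j)) := by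
        refine mul_le_mul_of_nonneg_left ?_ hC
        exact mul_le_mul_of_nonneg_right (geom_half_le hσ J) (by positivity)

lemma Rep.K_DD {J j : ℕ} (hj : j < J) :
    ‖Kj σ j * (1 - DD σ J)‖ ≤ 3 * (1 / 2 : ℝ) ^ (90 + j) := by
  have h1 : Kj σ j * (1 - DD σ J) = (Kj σ j - Kj σ j * Dj σ j) -
      ∑ i ∈ (range J).erase j, Kj σ j * Dj σ i := by
    unfold DD
    rw [mul_sub, mul_one, ← add_sum_erase (range J) (fun i => Dj σ i) (mem_range.mpr hj),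
      mul_add, mul_sum]
    abel
  rw [h1]
  refine (norm_sub_le _ _).trans ?_
  have h2 := hσ.KK_small j
  have h3 := hσ.sum_off (F := fun j i => Kj σ j * Dj σ i) 1 zero_le_one J j
    (fun i hi => by rw [one_mul]; exact (hσ.KD_small (Ne.symm hi)).trans (le_of_eq (by ring)))
  linarith

lemma sum_small_le (J : ℕ) (C : ℝ) (hC : 0 ≤ C) :
    ∑ j ∈ range J, C * (1 / 2 : ℝ) ^ (90 + j) ≤ C * (2 * (1 / 2 : ℝ) ^ 90) := by
  have h1 : ∑ j ∈ range J, C * (1 / 2 : ℝ) ^ (90 + j) =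
      C * ((∑ j ∈ range J, (1 / 2 : ℝ) ^ j) * (1 / 2 : ℝ) ^ 90) := by
    rw [sum_mul, mul_sum]
    exact sum_congr rfl fun j _ => by rw [pow_add]; ring
  rw [h1]
  exact mul_le_mul_of_nonneg_left (mul_le_mul_of_nonneg_right (geom_half_le hσ J)
    (by positivity)) hC

/-- `G2 (1 - DD)` is tiny -/
lemma Rep.G2_DD (J : ℕ) : ‖G2 σ J * (1 - DD σ J)‖ ≤ 1 / 2000 := by
  have h1 : G2 σ J * (1 - DD σ J) =
      ∑ j ∈ range J, σ (Nn j) * (Hj σ j * (Kj σ j * (1 - DD σ J))) := by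
    unfold G2
    rw [sum_mul]
    exact sum_congr rfl fun j _ => by rw [mul_assoc, mul_assoc]
  rw [h1]
  refine (norm_sum_le _ _).trans ?_
  have h2 : ∑ j ∈ range J, ‖σ (Nn j) * (Hj σ j * (Kj σ j * (1 - DD σ J)))‖ ≤
      ∑ j ∈ range J, 3 * (1 / 2 : ℝ) ^ (90 + j) := by
    refine sum_le_sum fun j hj => ?_
    have h3 := hσ.K_DD (mem_range.mp hj)
    have h4 := norm_mul_le (σ (Nn j)) (Hj σ j * (Kj σ j * (1 - DD σ J)))
    have h5 := norm_mul_le (Hj σ j) (Kj σ j * (1 - DD σ J))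
    have h6 := hσ.norm (Nn j)
    have h7 := hσ.Hj_norm j
    have h8 : ‖Hj σ j‖ * ‖Kj σ j * (1 - DD σ J)‖ ≤ 1 * ‖Kj σ j * (1 - DD σ J)‖ :=
      mul_le_mul_of_nonneg_right h7 (norm_nonneg _)
    have h9 : ‖σ (Nn j)‖ * ‖Hj σ j * (Kj σ j * (1 - DD σ J))‖ ≤
      1 * ‖Hj σ j * (Kj σ j * (1 - DD σ J))‖ := mul_le_mul_of_nonneg_right h6 (norm_nonneg _)
    linarith
  refine (h2.trans (sum_small_le hσ J 3 (by norm_num))).trans ?_
  norm_num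

/-- `G1 G1⁻ - DD²` is tiny -/
lemma Rep.G1_G1m (J : ℕ) : ‖G1 σ J * G1m σ J - DD σ J * DD σ J‖ ≤ 1 / 2000 := by
  have h1 : G1 σ J * G1m σ J - DD σ J * DD σ J =
      ∑ j ∈ range J, ∑ i ∈ (range J).erase j,
        (σ ((Nn j : ℤ) - Nn i) - 1) * (Dj σ j * Dj σ i) := by
    unfold G1 G1m DD
    rw [sum_mul_sum, sum_mul_sum, ← sum_sub_distrib]
    refine sum_congr rfl fun j hj => ?_
    rw [← sum_sub_distrib]
    have h2 : ∀ i, σ (Nn j) * Dj σ j * (σ (-(Nn i : ℤ)) * Dj σ i) - Dj σ j * Dj σ i =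
        (σ ((Nn j : ℤ) - Nn i) - 1) * (Dj σ j * Dj σ i) := by
      intro i
      rw [sub_mul, one_mul, sub_eq_add_neg (Nn j : ℤ), hσ.add]
      congr 1
      rw [mul_assoc, ← mul_assoc (Dj σ j), ← hσ.comm_Dj, mul_assoc, mul_assoc]
    simp only [h2]
    rw [← add_sum_erase (range J) _ hj, sub_self, hσ.zero, sub_self, zero_mul, zero_add]
  rw [h1]
  refine (norm_sum_le _ _).trans ?_
  have h2 : ∑ j ∈ range J, ‖∑ i ∈ (range J).erase j,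
        (σ ((Nn j : ℤ) - Nn i) - 1) * (Dj σ j * Dj σ i)‖ ≤
      ∑ j ∈ range J, 4 * (1 / 2 : ℝ) ^ (90 + j) := by
    refine sum_le_sum fun j _ => ?_
    have h3 := hσ.sum_off (F := fun j i => (σ ((Nn j : ℤ) - Nn i) - 1) * (Dj σ j * Dj σ i)) 2
      (by norm_num) J j (fun i hi => by
        refine (norm_mul_le _ _).trans ?_
        have h4 := hσ.DD_small (Ne.symm hi)
        have h5 : ‖σ ((Nn j : ℤ) - Nn i) - 1‖ ≤ 2 := by
          refine (norm_sub_le _ _).trans ?_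
          have h6 := hσ.norm ((Nn j : ℤ) - Nn i)
          have h7 := hσ.norm 0
          rw [hσ.zero] at h7
          linarith
        have h8 : (1 / 2 : ℝ) ^ (90 + j + i) = (1 / 2 : ℝ) ^ (90 + i + j) := by congr 1; ring
        rw [h8] at h4
        exact mul_le_mul h5 h4 (norm_nonneg _) (by norm_num))
    linarith
  refine (h2.trans (sum_small_le hσ J 4 (by norm_num))).trans ?_
  norm_num

lemma Rep.comm_Hj (m : ℤ) (j : ℕ) : σ m * Hj σ j = Hj σ j * σ m := by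
  unfold Hj
  rw [mul_smul_comm, smul_mul_assoc, mul_sum, sum_mul]
  congr 1
  refine sum_congr rfl fun l _ => ?_
  rw [mul_smul_comm, smul_mul_assoc, mul_add, add_mul, hσ.comm, hσ.comm m (-(Rr j l : ℤ))]

/-- the estimate used on the disk -/
lemma Rep.disk_est {J j : ℕ} (hj : j < J) :
    ‖Hj σ j * Kj σ j - (∑ i ∈ range J, Hj σ i * Kj σ i) * Dj σ j‖ ≤
      3 * (1 / 2 : ℝ) ^ (90 + j) := by
  have h1 : Hj σ j * Kj σ j - (∑ i ∈ range J, Hj σ i * Kj σ i) * Dj σ j =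
      Hj σ j * (Kj σ j - Kj σ j * Dj σ j) -
      ∑ i ∈ (range J).erase j, Hj σ i * (Kj σ i * Dj σ j) := by
    rw [← add_sum_erase (range J) (fun i => Hj σ i * Kj σ i) (mem_range.mpr hj), add_mul,
      sum_mul, mul_sub]
    simp only [mul_assoc]
    abel
  rw [h1]
  refine (norm_sub_le _ _).trans ?_
  have h2 : ‖Hj σ j * (Kj σ j - Kj σ j * Dj σ j)‖ ≤ (1 / 2 : ℝ) ^ (90 + j) := by
    refine (norm_mul_le _ _).trans ?_
    have := mul_le_mul (hσ.Hj_norm j) (hσ.KK_small j) (norm_nonneg _) zero_le_one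
    linarith
  have h3 := hσ.sum_off (F := fun j i => Hj σ i * (Kj σ i * Dj σ j)) 1 zero_le_one J j
    (fun i hi => by
      refine (norm_mul_le _ _).trans ?_
      exact mul_le_mul (hσ.Hj_norm i) (hσ.KD_small hi) (norm_nonneg _) zero_le_one)
  linarith

end rep2

end Pool.Agent.H33.Cor
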