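import Mathlib

set_option autoImplicit false

/-! Averages over the fibres of a label function on a finite set. -/

namespace Pool.Agent.H33.Cor

open Finset

variable {α : Type*} [Fintype α]

/-- the block of `x` -/
def blk (π : α → ℕ) (x : α) : Finset α := univ.filter fun y => π y = π x

lemma mem_blk {π : α → ℕ} {x y : α} : y ∈ blk π x ↔ π y = π x := by simp [blk]

lemma self_mem_blk (π : α → ℕ) (x : α) : x ∈ blk π x := mem_blk.mpr rfl

lemma blk_card_pos (π : α → ℕ) (x : α) : 0 < (blk π x).card :=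
  card_pos.mpr ⟨x, self_mem_blk π x⟩

lemma blk_eq {π : α → ℕ} {x y : α} (h : π x = π y) : blk π x = blk π y := by
  ext z; simp [blk, h]

/-- the average over the block -/
noncomputable def Av {V : Type*} [AddCommGroup V] [Module ℝ V] (π : α → ℕ) (f : α → V) (x : α) :
    V := ((blk π x).card : ℝ)⁻¹ • ∑ y ∈ blk π x, f y

section basic

variable {V : Type*} [AddCommGroup V] [Module ℝ V] (π : α → ℕ)

lemma Av_congr_label {f : α → V} {x y : α} (h : π x = π y) : Av π f x = Av π f y := by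
  unfold Av; rw [blk_eq h]

lemma Av_add (f g : α → V) (x : α) : Av π (fun y => f y + g y) x = Av π f x + Av π g x := by
  unfold Av; rw [sum_add_distrib, smul_add]

lemma Av_sub (f g : α → V) (x : α) : Av π (fun y => f y - g y) x = Av π f x - Av π g x := by
  unfold Av; rw [sum_sub_distrib, smul_sub]

lemma Av_sum {ι : Type*} (s : Finset ι) (f : ι → α → V) (x : α) :
    Av π (fun y => ∑ i ∈ s, f i y) x = ∑ i ∈ s, Av π (f i) x := by
  unfold Av; rw [sum_comm, smul_sum]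

lemma Av_const {f : α → V} {x : α} (h : ∀ y, π y = π x → f y = f x) : Av π f x = f x := by
  unfold Av
  rw [sum_congr rfl fun y hy => h y (mem_blk.mp hy), sum_const, ← Nat.cast_smul_eq_nsmul ℝ,
    smul_smul, inv_mul_cancel₀, one_smul]
  exact_mod_cast (blk_card_pos π x).ne'

end basic

section alg

variable {V : Type*} [CommRing V] [Algebra ℝ V] (π : α → ℕ)

lemma sum_mul_Av {ψ f : α → V} (hψ : ∀ x y, π x = π y → ψ x = ψ y) :
    ∑ x, ψ x * Av π f x = ∑ x, ψ x * f x := by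
  have h1 : ∀ x, ψ x * Av π f x =
      ∑ y, if π y = π x then ((blk π x).card : ℝ)⁻¹ • (ψ x * f y) else 0 := by
    intro x
    unfold Av
    rw [mul_smul_comm, mul_sum, smul_sum, ← sum_filter]
    rfl
  simp only [h1]
  rw [sum_comm]
  refine sum_congr rfl fun y _ => ?_
  rw [← sum_filter]
  have h2 : ∀ x ∈ univ.filter (fun x => π y = π x),
      ((blk π x).card : ℝ)⁻¹ • (ψ x * f y) = ((blk π y).card : ℝ)⁻¹ • (ψ y * f y) := by
    intro x hx
    have hx' : π y = π x := (mem_filter.mp hx).2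
    rw [blk_eq hx'.symm, hψ _ _ hx'.symm]
  rw [sum_congr rfl h2, sum_const]
  have h3 : (univ.filter fun x => π y = π x) = blk π y := by
    ext x; simp [blk, eq_comm]
  rw [h3, ← Nat.cast_smul_eq_nsmul ℝ, smul_smul, mul_inv_cancel₀, one_smul]
  exact_mod_cast (blk_card_pos π y).ne'

lemma sum_Av (f : α → V) : ∑ x, Av π f x = ∑ x, f x := by
  have := sum_mul_Av π (ψ := fun _ => (1 : V)) (f := f) (fun _ _ _ => rfl)
  simpa using this

lemma Av_mul {ψ f : α → V} (hψ : ∀ x y, π x = π y → ψ x = ψ y) (x : α) :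
    Av π (fun y => ψ y * f y) x = ψ x * Av π f x := by
  unfold Av
  rw [mul_smul_comm, mul_sum]
  congr 1
  refine sum_congr rfl fun y hy => ?_
  beta_reduce
  rw [hψ y x (mem_blk.mp hy)]

lemma Av_Av {π₁ π₂ : α → ℕ} (h : ∀ x y, π₁ x = π₁ y → π₂ x = π₂ y) (f : α → V) (x : α) :
    Av π₂ (Av π₁ f) x = Av π₂ f x := by
  classical
  unfold Av
  congr 1
  have h1 := sum_mul_Av π₁ (ψ := fun y => if π₂ y = π₂ x then (1 : V) else 0) (f := f)
    (fun y z hyz => by simp only [h y z hyz])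
  simp only [ite_mul, one_mul, zero_mul, ← sum_filter] at h1
  exact h1

lemma Av_Av' {π₁ π₂ : α → ℕ} (h : ∀ x y, π₁ x = π₁ y → π₂ x = π₂ y) (f : α → V) (x : α) :
    Av π₁ (Av π₂ f) x = Av π₂ f x :=
  Av_const π₁ fun y hy => Av_congr_label π₂ (h _ _ hy)

end alg

section real

variable (π : α → ℕ)

lemma Av_nonneg {f : α → ℝ} (hf : ∀ x, 0 ≤ f x) (x : α) : 0 ≤ Av π f x := by
  unfold Av
  rw [smul_eq_mul]
  exact mul_nonneg (by positivity) (sum_nonneg fun y _ => hf y)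

lemma Av_mono {f g : α → ℝ} (h : ∀ x, f x ≤ g x) (x : α) : Av π f x ≤ Av π g x := by
  unfold Av
  rw [smul_eq_mul, smul_eq_mul]
  exact mul_le_mul_of_nonneg_left (sum_le_sum fun y _ => h y) (by positivity)

lemma norm_Av_le (f : α → ℂ) (x : α) : ‖Av π f x‖ ≤ Av π (fun y => ‖f y‖) x := by
  unfold Av
  rw [norm_smul, smul_eq_mul, norm_inv, Real.norm_natCast]
  exact mul_le_mul_of_nonneg_left (norm_sum_le _ _) (by positivity)

lemma sq_Av_le (f : α → ℝ) (x : α) : (Av π f x) ^ 2 ≤ Av π (fun y => (f y) ^ 2) x := by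
  unfold Av
  rw [smul_eq_mul, smul_eq_mul, mul_pow]
  have hc : (0 : ℝ) < (blk π x).card := by exact_mod_cast blk_card_pos π x
  have h := sq_sum_le_card_mul_sum_sq (s := blk π x) (f := f)
  calc ((blk π x).card : ℝ)⁻¹ ^ 2 * (∑ y ∈ blk π x, f y) ^ 2
      ≤ ((blk π x).card : ℝ)⁻¹ ^ 2 * ((blk π x).card * ∑ y ∈ blk π x, f y ^ 2) :=
        mul_le_mul_of_nonneg_left h (by positivity)
    _ = ((blk π x).card : ℝ)⁻¹ * ∑ y ∈ blk π x, f y ^ 2 := by
        field_simp

lemma norm_sq_Av_le (f : α → ℂ) (x : α) : ‖Av π f x‖ ^ 2 ≤ Av π (fun y => ‖f y‖ ^ 2) x :=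
  (pow_le_pow_left₀ (norm_nonneg _) (norm_Av_le π f x) 2).trans (sq_Av_le π _ x)

lemma norm_four_Av_le (f : α → ℂ) (x : α) : ‖Av π f x‖ ^ 4 ≤ Av π (fun y => ‖f y‖ ^ 4) x := by
  have h1 := norm_sq_Av_le π f x
  have h2 := sq_Av_le π (fun y => ‖f y‖ ^ 2) x
  calc ‖Av π f x‖ ^ 4 = (‖Av π f x‖ ^ 2) ^ 2 := by ring
    _ ≤ (Av π (fun y => ‖f y‖ ^ 2) x) ^ 2 := pow_le_pow_left₀ (by positivity) h1 2
    _ ≤ _ := h2
    _ = _ := by congr 1; funext y; ring

end real

end Pool.Agent.H33.Cor
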