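import Pool.Agent.H33.Cor.Riesz3

set_option autoImplicit false
set_option linter.unusedSectionVars false

/-! No analytic solution of the Bezout equation. -/

namespace Pool.Agent.H33.Cor

open Finset Filter Topology

/-! ### analyticity -/

lemma anal_base (n : ℤ) (L : ℕ) (hn : (L : ℤ) ≤ n) (x : ℤ) (hx : x < 0) :
    ((sh n * Lm sh L) (ee 0)) x = 0 := by
  rw [mul_apply_eq_comp, sh_apply, Lm_apply]
  unfold LamZ
  rw [sum_eq_zero, smul_zero]
  intro p hp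
  refine sum_eq_zero fun s hs => ?_
  have h1 := mem_range.mp hp
  have h2 := mem_range.mp hs
  beta_reduce
  rw [ee_apply, if_neg]
  omega

lemma anal_G1 (J : ℕ) (x : ℤ) (hx : x < 0) : (G1 sh J (ee 0)) x = 0 := by
  unfold G1
  rw [_root_.sum_apply, sum_apply']
  refine sum_eq_zero fun j _ => ?_
  have hK := Kq_lt j
  have h0 : q (6 * j) ≤ q (6 * j + 4) := Nat.le_of_dvd (q_pos _) (q_dvd (by omega))
  unfold Dj
  rw [mul_sub, sub_apply, sub_apply', anal_base _ _ (by exact_mod_cast (by omega)) x hx,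
    anal_base _ _ (by exact_mod_cast (by omega)) x hx, sub_zero]

lemma anal_G2 (J : ℕ) (x : ℤ) (hx : x < 0) : (G2 sh J (ee 0)) x = 0 := by
  unfold G2
  rw [_root_.sum_apply, sum_apply']
  refine sum_eq_zero fun j _ => ?_
  rw [sh_rep.NHK, csmul_apply, smul_apply', _root_.sum_apply, sum_apply', sum_eq_zero, mul_zero]
  intro l hl
  have hK := Kq_lt j
  have hR := Rr_le (show l ≤ j by have := mem_range.mp hl; omega)
  have h13 : q (6 * j + 1) ≤ q (6 * j + 3) := Nat.le_of_dvd (q_pos _) (q_dvd (by omega))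
  have h34 := two_q_le (show 6 * j + 3 < 6 * j + 4 by omega)
  rw [csmul_apply, smul_apply', add_apply, sub_apply, sub_apply, add_apply', sub_apply',
    sub_apply', anal_base _ _ (by omega) x hx, anal_base _ _ (by omega) x hx,
    anal_base _ _ (by omega) x hx, anal_base _ _ (by omega) x hx]
  ring

lemma cont_coord (x : ℤ) : Continuous (fun u : X => u x) := by
  refine (LipschitzWith.of_dist_le_mul (K := 1) fun u v => ?_).continuous
  rw [dist_eq_norm, dist_eq_norm, NNReal.coe_one, one_mul, ← sub_apply']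
  exact norm_coord_le _ _

lemma anal_lim {T : X →L[ℂ] X} {Tn : ℕ → X →L[ℂ] X} (c : ℂ)
    (hT : ∀ u, Tendsto (fun J => Tn J u) atTop (𝓝 (T u)))
    (h : ∀ J (x : ℤ), x < 0 → (Tn J (ee 0)) x = 0) (x : ℤ) (hx : x < 0) :
    kr (c • 1 - T) x = 0 := by
  have h1 : (T (ee 0)) x = 0 := by
    have h2 := ((cont_coord x).tendsto _).comp (hT (ee 0))
    have h3 : ((fun u : X => u x) ∘ fun J => Tn J (ee 0)) = fun _ => 0 := by
      funext J; exact h J x hx
    rw [h3] at h2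
    exact (tendsto_nhds_unique h2 tendsto_const_nhds)
  have h2 : kr (c • 1 - T) x = c * (ee 0) x - (T (ee 0)) x := rfl
  rw [h2, h1, ee_apply, if_neg (by omega)]
  ring

/-! ### the formal Bezout argument -/

lemma bez_formal (f g : Fin 2 → ℤ → ℂ) (hf : ∀ i, ∀ k : ℤ, k < 0 → f i k = 0)
    (hg : ∀ i, ∀ k : ℤ, k < 0 → g i k = 0)
    (hb : ∀ t : ℤ, (∑ i, ∑' k : ℤ, f i k * g i (t - k)) = if t = 0 then (1 : ℂ) else 0)
    (M : ℤ) (w : ℤ → ℂ) (n : ℤ) (hn : n ∈ Ico (-M) 0) :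
    w n = ∑ i, ∑ s ∈ Ico (-M) 0, (∑ k ∈ Ico (-M) 0, w k * f i (s - k)) * g i (n - s) := by
  have hn' := mem_Ico.mp hn
  have h1 : ∀ i, ∑ s ∈ Ico (-M) 0, (∑ k ∈ Ico (-M) 0, w k * f i (s - k)) * g i (n - s) =
      ∑ k ∈ Ico (-M) 0, w k * ∑' m : ℤ, f i m * g i ((n - k) - m) := by
    intro i
    simp only [sum_mul]
    rw [sum_comm]
    refine sum_congr rfl fun k hk => ?_
    have hk' := mem_Ico.mp hk
    rw [← (Equiv.subRight k).tsum_eq (fun m : ℤ => f i m * g i ((n - k) - m)),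
      tsum_eq_sum (s := Ico (-M) 0), mul_sum]
    · refine sum_congr rfl fun s _ => ?_
      simp only [Equiv.subRight_apply]
      rw [show n - k - (s - k) = n - s by ring, mul_assoc]
    · intro s hs
      simp only [Equiv.subRight_apply]
      rw [mem_Ico, not_and_or, not_le, not_lt] at hs
      rcases hs with hs | hs
      · rw [hf i (s - k) (by linarith), zero_mul]
      · rw [hg i (n - k - (s - k)) (by linarith), mul_zero]
  simp only [h1]
  rw [sum_comm]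
  simp only [← mul_sum, hb]
  rw [sum_eq_single n]
  · rw [sub_self, if_pos rfl, mul_one]
  · intro k _ hkn
    rw [if_neg (by intro h; exact hkn (by linarith)), mul_zero]
  · intro h; exact absurd hn h

/-- multipliers act boundedly on truncated vectors -/
lemma mult_bound {g : ℤ → ℂ} (hg : g ∈ MM) : ∃ C : ℝ, 0 ≤ C ∧ ∀ (S : Finset ℤ) (y : ℤ → ℂ),
    ∑ n ∈ S, ‖∑ s ∈ S, y s * g (n - s)‖ ^ 4 ≤ C * ∑ s ∈ S, ‖y s‖ ^ 4 := by
  obtain ⟨C, hC⟩ := hg
  refine ⟨|C|, abs_nonneg C, fun S y => ?_⟩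
  classical
  set x : ℤ →₀ ℂ := Finsupp.onFinset S (fun s => if s ∈ S then y s else 0) (fun s hs => by
    by_contra h; simp [h] at hs) with hx
  have hxa : ∀ s, x s = if s ∈ S then y s else 0 := fun s => rfl
  have hsup : x.support ⊆ S := Finsupp.support_onFinset_subset
  have h1 : ∀ n : ℤ, ∑ k ∈ x.support, x k * g (n - k) = ∑ s ∈ S, y s * g (n - s) := by
    intro n
    rw [sum_subset hsup]
    · refine sum_congr rfl fun s hs => ?_
      rw [hxa, if_pos hs]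
    · intro k _ hk
      rw [Finsupp.notMem_support_iff.mp hk, zero_mul]
  obtain ⟨hs1, hs2⟩ := hC x
  simp only [rpow4, h1] at hs1 hs2
  have h2 : ∑' n : ℤ, ‖x n‖ ^ 4 = ∑ s ∈ S, ‖y s‖ ^ 4 := by
    rw [tsum_eq_sum (s := S)]
    · exact sum_congr rfl fun s hs => by rw [hxa, if_pos hs]
    · intro s hs; rw [hxa, if_neg hs]; simp
  rw [h2] at hs2
  calc ∑ n ∈ S, ‖∑ s ∈ S, y s * g (n - s)‖ ^ 4
      ≤ ∑' n : ℤ, ‖∑ s ∈ S, y s * g (n - s)‖ ^ 4 :=
        hs1.sum_le_tsum _ fun _ _ => by positivity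
    _ ≤ C * ∑ s ∈ S, ‖y s‖ ^ 4 := hs2
    _ ≤ |C| * ∑ s ∈ S, ‖y s‖ ^ 4 :=
        mul_le_mul_of_nonneg_right (le_abs_self C) (by positivity)

/-! ### the test vector -/

lemma VV_nonneg_sup {R : ℕ → ℤ} (hR : ∀ n, 0 ≤ R n) (k n : ℕ) (x : ℤ) (hx : x < 0) :
    VV R n k x = 0 := by
  induction n generalizing x with
  | zero =>
      rw [VV_zero, sum_apply']
      refine sum_eq_zero fun p _ => ?_
      rw [ee_apply, if_neg (by omega)]
  | succ n ih =>
      rw [VV_succ, add_apply', sh_apply, smul_apply', ih x hx,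
        ih (x - R n) (by have := hR n; linarith)]
      ring

lemma UU_sup (j : ℕ) (x : ℤ) (hx : x < 0 ∨ (Nn j : ℤ) ≤ x) : UU j x = 0 := by
  rcases hx with hx | hx
  · exact VV_nonneg_sup (fun n => by unfold RR; positivity) _ _ x hx
  · refine VV_sup (hRR j) (hTW j) le_rfl (j + 1) x (Or.inr (le_trans ?_ hx))
    rw [hTW]
    have h1 := Rr_le_N (le_refl j)
    unfold Rr at h1
    have h2 := q_gap (show 6 * j + 2 < 6 * j + 5 by omega)
    have h3 : 4 * (q (6 * j + 2) * 8 ^ (j + 1)) ≤ Nn j := by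
      unfold Nn
      refine le_trans ?_ h2
      calc 4 * (q (6 * j + 2) * 8 ^ (j + 1)) = (4 * 8 ^ (j + 1)) * q (6 * j + 2) := by ring
        _ ≤ 2 ^ (40 * (6 * j + 5) + 100) * q (6 * j + 2) := by
            refine Nat.mul_le_mul_right _ ?_
            calc 4 * 8 ^ (j + 1) = 2 ^ (2 + 3 * (j + 1)) := by
                  rw [pow_add 2 2, pow_mul]; norm_num
              _ ≤ _ := Nat.pow_le_pow_right (by norm_num) (by omega)
    exact_mod_cast h3

/-- the test vector -/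
noncomputable def WW (j : ℕ) : X :=
  ∑ b ∈ range (j + 1), (1 / 20 : ℂ) ^ b • sh (-((b + 1 : ℕ) * Nn j : ℤ)) (UU j)

lemma WW_apply (j : ℕ) (x : ℤ) : WW j x =
    ∑ b ∈ range (j + 1), (1 / 20 : ℂ) ^ b * UU j (x + ((b + 1 : ℕ) * Nn j : ℤ)) := by
  unfold WW
  rw [sum_apply']
  refine sum_congr rfl fun b _ => ?_
  rw [smul_apply', sh_apply, sub_neg_eq_add]

lemma WW_first (j : ℕ) (x : ℤ) (h1 : -(Nn j : ℤ) ≤ x) :
    WW j x = UU j (x + Nn j) := by
  rw [WW_apply, sum_range_succ']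
  rw [sum_eq_zero]
  · simp
  · intro b _
    rw [UU_sup, mul_zero]
    right
    have : (0 : ℤ) ≤ b * Nn j := by positivity
    push_cast
    nlinarith

lemma WW_sup (j : ℕ) (x : ℤ) (hx : x ∉ Ico (-((j + 1 : ℕ) * Nn j : ℤ)) 0) : WW j x = 0 := by
  rw [mem_Ico, not_and_or, not_le, not_lt] at hx
  rw [WW_apply]
  refine sum_eq_zero fun b hb => ?_
  have hb' : b + 1 ≤ j + 1 := mem_range.mp hb
  have h0 : (0 : ℤ) ≤ Nn j := by positivity
  rw [UU_sup, mul_zero]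
  rcases hx with hx | hx
  · left
    have : ((b + 1 : ℕ) * Nn j : ℤ) ≤ ((j + 1 : ℕ) * Nn j : ℤ) :=
      mul_le_mul_of_nonneg_right (by exact_mod_cast hb') h0
    linarith
  · right
    have : (Nn j : ℤ) ≤ ((b + 1 : ℕ) * Nn j : ℤ) := by
      push_cast
      nlinarith [mul_nonneg (Nat.cast_nonneg (α := ℤ) b) h0]
    linarith

lemma WW_lower (j : ℕ) : ‖UU j‖ ^ 4 ≤
    ∑ x ∈ Ico (-((j + 1 : ℕ) * Nn j : ℤ)) 0, ‖WW j x‖ ^ 4 := by
  have h0 : (0 : ℤ) ≤ Nn j := by positivity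
  have h1 : ‖UU j‖ ^ 4 = ∑ x ∈ Ico (-(Nn j : ℤ)) 0, ‖UU j (x + Nn j)‖ ^ 4 := by
    rw [norm4, ← (Equiv.addRight (Nn j : ℤ)).tsum_eq (fun x => ‖UU j x‖ ^ 4),
      tsum_eq_sum (s := Ico (-(Nn j : ℤ)) 0)]
    · rfl
    · intro x hx
      rw [mem_Ico, not_and_or, not_le, not_lt] at hx
      have : UU j ((Equiv.addRight (Nn j : ℤ)) x) = 0 := by
        apply UU_sup
        simp only [Equiv.coe_addRight]
        rcases hx with hx | hx
        · left; linarith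
        · right; linarith
      rw [this]; simp
  rw [h1]
  calc ∑ x ∈ Ico (-(Nn j : ℤ)) 0, ‖UU j (x + Nn j)‖ ^ 4
      = ∑ x ∈ Ico (-(Nn j : ℤ)) 0, ‖WW j x‖ ^ 4 := by
        refine sum_congr rfl fun x hx => ?_
        rw [WW_first j x (mem_Ico.mp hx).1]
    _ ≤ _ := by
        refine sum_le_sum_of_subset_of_nonneg ?_ fun _ _ _ => by positivity
        intro x hx
        rw [mem_Ico] at hx ⊢
        refine ⟨le_trans ?_ hx.1, hx.2⟩
        push_cast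
        nlinarith [mul_nonneg (Nat.cast_nonneg (α := ℤ) j) h0]

/-- the telescoping identity -/
lemma WW_tele (j : ℕ) : (1 / 20 : ℂ) • WW j - sh (Nn j) (WW j) =
    (1 / 20 : ℂ) ^ (j + 1) • sh (-((j + 1 : ℕ) * Nn j : ℤ)) (UU j) - UU j := by
  have h1 : (1 / 20 : ℂ) • WW j - sh (Nn j) (WW j) =
      ∑ b ∈ range (j + 1), ((1 / 20 : ℂ) ^ (b + 1) • sh (-((b + 1 : ℕ) * Nn j : ℤ)) (UU j) -
        (1 / 20 : ℂ) ^ b • sh (-((b : ℕ) * Nn j : ℤ)) (UU j)) := by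
    unfold WW
    rw [smul_sum, map_sum, ← sum_sub_distrib]
    refine sum_congr rfl fun b _ => ?_
    rw [smul_smul, map_smul, ← mul_apply_eq_comp, ← sh_rep.add, pow_succ']
    congr 4
    push_cast; ring
  rw [h1, sum_range_sub (fun b => (1 / 20 : ℂ) ^ b • sh (-((b : ℕ) * Nn j : ℤ)) (UU j))]
  rw [pow_zero, one_smul, Nat.cast_zero, zero_mul, neg_zero, sh_rep.zero]
  rfl

lemma WW_err {T : X →L[ℂ] X} (hT : T ∈ Com) (c : ℂ) (j : ℕ) (ε : ℝ) (hε : 0 ≤ ε)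
    (h : ‖T (UU j) - c • sh (Nn j) (UU j)‖ ≤ ε * ‖UU j‖) :
    ‖T (WW j) - c • sh (Nn j) (WW j)‖ ≤ 2 * ε * ‖UU j‖ := by
  have h1 : T (WW j) - c • sh (Nn j) (WW j) = ∑ b ∈ range (j + 1), (1 / 20 : ℂ) ^ b •
      sh (-((b + 1 : ℕ) * Nn j : ℤ)) (T (UU j) - c • sh (Nn j) (UU j)) := by
    unfold WW
    rw [map_sum, map_sum, smul_sum, ← sum_sub_distrib]
    refine sum_congr rfl fun b _ => ?_
    have h2 := congrArg (fun S : X →L[ℂ] X => S (UU j))
      (mem_Com.mp hT (-((b + 1 : ℕ) * Nn j : ℤ)))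
    have h3 := congrArg (fun S : X →L[ℂ] X => S (UU j))
      (sh_rep.comm (-((b + 1 : ℕ) * Nn j : ℤ)) (Nn j))
    simp only [mul_apply_eq_comp] at h2 h3
    rw [map_smul, map_smul, map_sub, map_smul, h2, h3, smul_sub, smul_comm c]
  rw [h1]
  refine (norm_sum_le _ _).trans ?_
  have h2 : ∀ b ∈ range (j + 1), ‖(1 / 20 : ℂ) ^ b •
      sh (-((b + 1 : ℕ) * Nn j : ℤ)) (T (UU j) - c • sh (Nn j) (UU j))‖ ≤
      (1 / 2 : ℝ) ^ b * (ε * ‖UU j‖) := by
    intro b _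
    rw [norm_smul, sh_norm, norm_pow]
    refine mul_le_mul ?_ h (norm_nonneg _) (by positivity)
    refine pow_le_pow_left₀ (norm_nonneg _) ?_ b
    norm_num
  refine (sum_le_sum h2).trans ?_
  rw [← sum_mul]
  calc (∑ b ∈ range (j + 1), (1 / 2 : ℝ) ^ b) * (ε * ‖UU j‖) ≤ 2 * (ε * ‖UU j‖) :=
        mul_le_mul_of_nonneg_right (geom_half_le sh_rep (j + 1)) (by positivity)
    _ = _ := by ring

/-- the size of `F (WW j)` on the negative integers -/
lemma FW_small {T : X →L[ℂ] X} (hT : T ∈ Com) (c : ℂ) (hc : ‖c‖ ≤ 1) (j : ℕ) (ε : ℝ) (hε : 0 ≤ ε)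
    (h : ‖T (UU j) - c • sh (Nn j) (UU j)‖ ≤ ε * ‖UU j‖) (S : Finset ℤ)
    (hS : ∀ x ∈ S, x < 0) :
    ∑ x ∈ S, ‖(((c * (1 / 20)) • (1 : X →L[ℂ] X) - T) (WW j)) x‖ ^ 4 ≤
      (((1 / 20 : ℝ) ^ (j + 1) + 2 * ε) * ‖UU j‖) ^ 4 := by
  set E := T (WW j) - c • sh (Nn j) (WW j) with hE
  set G : X := (c * (1 / 20 : ℂ) ^ (j + 1)) • sh (-((j + 1 : ℕ) * Nn j : ℤ)) (UU j) - E with hG
  have h1 : ((c * (1 / 20)) • (1 : X →L[ℂ] X) - T) (WW j) = G - c • UU j := by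
    have h2 : ((c * (1 / 20)) • (1 : X →L[ℂ] X) - T) (WW j) =
        (c * (1 / 20)) • WW j - T (WW j) := rfl
    have h3 := WW_tele j
    have h4 : (c * (1 / 20)) • WW j - T (WW j) =
        c • ((1 / 20 : ℂ) • WW j - sh (Nn j) (WW j)) - E := by
      rw [hE, smul_sub, smul_smul]; abel
    rw [h2, h4, h3, hG, smul_sub, smul_smul]
    abel
  have h2 : ∀ x ∈ S, ‖(((c * (1 / 20)) • (1 : X →L[ℂ] X) - T) (WW j)) x‖ ^ 4 = ‖G x‖ ^ 4 := by
    intro x hx
    rw [h1, sub_apply', smul_apply', UU_sup j x (Or.inl (hS x hx)), mul_zero, sub_zero]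
  rw [sum_congr rfl h2]
  have h3 : ∑ x ∈ S, ‖G x‖ ^ 4 ≤ ‖G‖ ^ 4 := by
    rw [norm4]
    exact (summable4 G).sum_le_tsum _ fun _ _ => by positivity
  refine h3.trans (pow_le_pow_left₀ (norm_nonneg _) ?_ 4)
  rw [hG]
  refine (norm_sub_le _ _).trans ?_
  rw [norm_smul, norm_mul, sh_norm, norm_pow]
  have h4 := WW_err hT c j ε hε h
  have h5 : ‖(1 / 20 : ℂ)‖ = 1 / 20 := by norm_num
  rw [h5]
  have h6 : ‖c‖ * (1 / 20 : ℝ) ^ (j + 1) * ‖UU j‖ ≤ 1 * (1 / 20 : ℝ) ^ (j + 1) * ‖UU j‖ :=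
    mul_le_mul_of_nonneg_right (mul_le_mul_of_nonneg_right hc (by positivity)) (norm_nonneg _)
  rw [← hE] at h4
  linarith

end Pool.Agent.H33.Cor
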