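import Pool.Agent.H33.Cor.Space

set_option autoImplicit false
set_option linter.unusedSectionVars false

/-! Operator norm bounds at the finite level. -/

namespace Pool.Agent.H33.Cor

open Finset Filter Topology

/-- the operator of the translation lemma -/
noncomputable def TT (A B : ℕ → ℕ) (r : ℕ → ℤ) (J : ℕ) : X →L[ℂ] X :=
  ∑ j ∈ range J, sh (r j) * (Lm sh (A j) - Lm sh (B j))

lemma TT_apply (A B : ℕ → ℕ) (r : ℕ → ℤ) (J : ℕ) (u : X) (x : ℤ) :
    (TT A B r J u) x = ∑ j ∈ range J,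
      (LamZ (A j) (fun y => u y) (x - r j) - LamZ (B j) (fun y => u y) (x - r j)) := by
  unfold TT
  rw [_root_.sum_apply, sum_apply']
  refine sum_congr rfl fun j _ => ?_
  rw [mul_apply_eq_comp, sh_apply]
  have h : (Lm sh (A j) - Lm sh (B j)) u = Lm sh (A j) u - Lm sh (B j) u := rfl
  rw [h, sub_apply', Lm_apply, Lm_apply]

lemma norm_of_fin {T : X →L[ℂ] X} {C : ℝ} (hC : 0 ≤ C)
    (h : ∀ (K : ℕ) (u : X), (∀ x : ℤ, (K : ℤ) < |x| → u x = 0) → ∀ F : Finset ℤ,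
      ∑ x ∈ F, ‖(T u) x‖ ^ 4 ≤ C ^ 4 * ‖u‖ ^ 4) : ‖T‖ ≤ C := by
  refine T.opNorm_le_bound hC fun u => ?_
  refine fin_dense (P := fun u => ‖T u‖ ≤ C * ‖u‖)
    (isClosed_le (T.continuous.norm) (continuous_const.mul continuous_norm)) ?_ u
  intro s c
  set v : X := ∑ k ∈ s, c k • ee k with hv
  have h1 : ∀ x : ℤ, ((∑ k ∈ s, k.natAbs : ℕ) : ℤ) < |x| → v x = 0 := by
    intro x hx
    rw [hv, sum_ee_apply, if_neg]
    intro hxs
    have h2 : x.natAbs ≤ ∑ k ∈ s, k.natAbs :=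
      single_le_sum (f := fun k : ℤ => k.natAbs) (fun _ _ => Nat.zero_le _) hxs
    rw [Int.abs_eq_natAbs] at hx
    have : ((x.natAbs : ℕ) : ℤ) ≤ ((∑ k ∈ s, k.natAbs : ℕ) : ℤ) := by exact_mod_cast h2
    linarith
  have h2 := h _ v h1
  refine norm_le_of_four (by positivity) ?_
  rw [norm4, mul_pow]
  exact Real.tsum_le_of_sum_le (fun x => by positivity) h2

lemma TT_norm {A B ρ : ℕ → ℕ} (hS : Scales A B ρ) (r : ℕ → ℕ) (hAr : ∀ j, A j ∣ r j)
    (hrρ : ∀ j, r j ≤ ρ j) (J : ℕ)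
    (hsum : ∑ j ∈ range J, (8 : ℝ) ^ (j + 1) * ((ρ j : ℝ) / A (j + 1)) ≤ 1) :
    ‖TT A B (fun j => r j) J‖ ≤ 11 := by
  refine norm_of_fin (by norm_num) fun K u hu F => ?_
  simp only [TT_apply]
  have h1 := line_bound hS r hAr hrρ J hsum K (fun y => u y) hu F
  refine h1.trans ?_
  have h2 : ∑ x ∈ Icc (-(K : ℤ)) K, ‖u x‖ ^ 4 ≤ ‖u‖ ^ 4 := by
    rw [norm4]
    exact (summable4 u).sum_le_tsum _ fun _ _ => by positivity
  have h3 : (0 : ℝ) ≤ ∑ x ∈ Icc (-(K : ℤ)) K, ‖u x‖ ^ 4 := by positivity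
  nlinarith

lemma LamZ_neg (L : ℕ) (u : ℤ → ℂ) (x : ℤ) : LamZ L (fun y => u (-y)) x = LamZ L u (-x) := by
  unfold LamZ
  congr 1
  rw [sum_comm]
  refine sum_congr rfl fun p _ => sum_congr rfl fun s _ => ?_
  beta_reduce
  have h : -(x - (s : ℤ) + p) = -x - p + s := by ring
  rw [h]

lemma TT_norm_neg {A B ρ : ℕ → ℕ} (hS : Scales A B ρ) (r : ℕ → ℕ) (hAr : ∀ j, A j ∣ r j)
    (hrρ : ∀ j, r j ≤ ρ j) (J : ℕ)
    (hsum : ∑ j ∈ range J, (8 : ℝ) ^ (j + 1) * ((ρ j : ℝ) / A (j + 1)) ≤ 1) :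
    ‖TT A B (fun j => -(r j : ℤ)) J‖ ≤ 11 := by
  refine norm_of_fin (by norm_num) fun K u hu F => ?_
  simp only [TT_apply]
  have h1 := line_bound hS r hAr hrρ J hsum K (fun y => u (-y))
    (fun x hx => hu (-x) (by rwa [abs_neg])) (F.map (Equiv.neg ℤ).toEmbedding)
  rw [sum_map] at h1
  have h4 : ∀ x ∈ F, ‖∑ j ∈ range J,
      (LamZ (A j) (fun y => u y) (x - -(r j : ℤ)) -
        LamZ (B j) (fun y => u y) (x - -(r j : ℤ)))‖ ^ 4 =
      ‖∑ j ∈ range J, (LamZ (A j) (fun y => u (-y)) ((Equiv.neg ℤ).toEmbedding x - r j) -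
        LamZ (B j) (fun y => u (-y)) ((Equiv.neg ℤ).toEmbedding x - r j))‖ ^ 4 := by
    intro x _
    congr 2
    refine sum_congr rfl fun j _ => ?_
    rw [LamZ_neg (A j) (fun y => u y), LamZ_neg (B j) (fun y => u y)]
    have h5 : -((Equiv.neg ℤ).toEmbedding x - (r j : ℤ)) = x - -(r j : ℤ) := by
      simp only [Equiv.coe_toEmbedding, Equiv.neg_apply]; ring
    rw [h5]
  rw [sum_congr rfl h4]
  refine h1.trans ?_
  have h2 : ∑ x ∈ Icc (-(K : ℤ)) K, ‖u (-x)‖ ^ 4 ≤ ‖u‖ ^ 4 := by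
    rw [norm4, ← (Equiv.neg ℤ).tsum_eq (fun x => ‖u x‖ ^ 4)]
    have h5 : Summable fun x : ℤ => ‖u ((Equiv.neg ℤ) x)‖ ^ 4 :=
      ((Equiv.neg ℤ).summable_iff (f := fun x : ℤ => ‖u x‖ ^ 4)).mpr (summable4 u)
    exact h5.sum_le_tsum _ fun _ _ => by positivity
  have h3 : (0 : ℝ) ≤ ∑ x ∈ Icc (-(K : ℤ)) K, ‖u (-x)‖ ^ 4 := by positivity
  nlinarith

/-- averaging over choices does not increase the norm -/
lemma avg_choice {E : Type*} [NormedAddCommGroup E] [NormedSpace ℂ E] (m : ℕ → ℕ)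
    (hm : ∀ j, 0 < m j) (f : ℕ → ℕ → E) (J : ℕ) (K : ℝ)
    (h : ∀ i : ℕ → ℕ, ‖∑ j ∈ range J, f j (i j)‖ ≤ K) :
    ‖∑ j ∈ range J, ((m j : ℂ))⁻¹ • ∑ i ∈ range (m j), f j i‖ ≤ K := by
  have key : ∀ k ≤ J, ∀ i : ℕ → ℕ,
      ‖∑ j ∈ range k, ((m j : ℂ))⁻¹ • ∑ i ∈ range (m j), f j i +
        ∑ j ∈ Ico k J, f j (i j)‖ ≤ K := by
    intro k
    induction k with
    | zero =>
        intro _ i
        rw [range_zero, sum_empty, zero_add, ← range_eq_Ico]
        exact h i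
    | succ k ih =>
        intro hk i
        set P := ∑ j ∈ range k, ((m j : ℂ))⁻¹ • ∑ i ∈ range (m j), f j i with hP
        set Q := ∑ j ∈ Ico (k + 1) J, f j (i j) with hQ
        have h1 : ∀ t, ‖P + (f k t + Q)‖ ≤ K := by
          intro t
          have h2 := ih (by omega) (fun j => if j = k then t else i j)
          rw [sum_eq_sum_Ico_succ_bot (by omega : k < J), if_pos rfl] at h2
          have h3 : ∑ j ∈ Ico (k + 1) J, f j (if j = k then t else i j) = Q := by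
            refine sum_congr rfl fun j hj => ?_
            rw [if_neg]
            have := mem_Ico.mp hj
            omega
          rw [h3] at h2
          exact h2
        have hmk : ((m k : ℂ)) ≠ 0 := by exact_mod_cast (hm k).ne'
        have h4 : ∑ j ∈ range (k + 1), ((m j : ℂ))⁻¹ • ∑ i ∈ range (m j), f j i + Q =
            ((m k : ℂ))⁻¹ • ∑ t ∈ range (m k), (P + (f k t + Q)) := by
          rw [sum_range_succ, sum_add_distrib, sum_add_distrib, sum_const, sum_const, card_range,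
            ← Nat.cast_smul_eq_nsmul ℂ, ← Nat.cast_smul_eq_nsmul ℂ, smul_add, smul_add, smul_smul,
            smul_smul, inv_mul_cancel₀ hmk, one_smul, one_smul]
          abel
        rw [h4, norm_smul, norm_inv, Complex.norm_natCast]
        have h5 : ‖∑ t ∈ range (m k), (P + (f k t + Q))‖ ≤ (m k : ℝ) * K := by
          refine (norm_sum_le _ _).trans ((sum_le_sum fun t _ => h1 t).trans ?_)
          rw [sum_const, card_range, nsmul_eq_mul]
        have h6 : (0 : ℝ) < m k := by exact_mod_cast hm k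
        rw [inv_mul_le_iff₀ h6]
        exact h5
  have h1 := key J le_rfl (fun _ => 0)
  rw [Ico_self, sum_empty, add_zero] at h1
  exact h1

/-! ### the concrete scales -/

lemma scales_a : Scales (fun j => q (6 * j)) (fun j => q (6 * j + 4)) (fun j => Nn j) where
  hA0 j := q_pos _
  hB0 j := q_pos _
  hAB j := q_dvd (by omega)
  hBA j := q_dvd (by omega)
  hBρ j := q_dvd (by omega)
  hρA j := Nat.le_of_dvd (q_pos _) (q_dvd (by omega))

lemma two_q_le {i j : ℕ} (h : i < j) : 2 * q i ≤ q j := by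
  refine le_trans (Nat.mul_le_mul_right _ ?_) (q_gap h)
  calc 2 = 2 ^ 1 := by norm_num
    _ ≤ 2 ^ (40 * j + 100) := Nat.pow_le_pow_right (by norm_num) (by omega)

lemma scales_k : Scales (fun j => q (6 * j + 1)) (fun j => q (6 * j + 3))
    (fun j => 2 * Nn j) where
  hA0 j := q_pos _
  hB0 j := q_pos _
  hAB j := q_dvd (by omega)
  hBA j := q_dvd (by omega)
  hBρ j := Dvd.dvd.mul_left (q_dvd (by omega)) _
  hρA j := two_q_le (by omega)

lemma eight_pow (j : ℕ) : (8 : ℝ) ^ j = 2 ^ (3 * j) := by rw [pow_mul]; norm_num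

lemma geom_tail (J : ℕ) : ∑ j ∈ range J, (1 / 2 : ℝ) ^ (j + 1) ≤ 1 := by
  have := geom_half_le sh_rep J
  have h : ∑ j ∈ range J, (1 / 2 : ℝ) ^ (j + 1) = (∑ j ∈ range J, (1 / 2 : ℝ) ^ j) / 2 := by
    rw [sum_div]
    exact sum_congr rfl fun j _ => by rw [pow_succ]; ring
  rw [h]; linarith

lemma sum_a (J : ℕ) : ∑ j ∈ range J, (8 : ℝ) ^ (j + 1) *
    (((Nn j : ℕ) : ℝ) / (q (6 * (j + 1)) : ℕ)) ≤ 1 := by
  refine le_trans (sum_le_sum fun j _ => ?_) (geom_tail J)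
  unfold Nn
  have h1 := q_ratio (show 6 * j + 5 < 6 * (j + 1) by omega)
  calc (8 : ℝ) ^ (j + 1) * ((q (6 * j + 5) : ℝ) / q (6 * (j + 1)))
      ≤ 2 ^ (3 * (j + 1)) * (1 / 2 : ℝ) ^ (40 * (6 * (j + 1)) + 100) := by
        rw [eight_pow]
        exact mul_le_mul_of_nonneg_left h1 (by positivity)
    _ = (1 / 2 : ℝ) ^ (40 * (6 * (j + 1)) + 100 - 3 * (j + 1)) := by
        rw [show 40 * (6 * (j + 1)) + 100 = 3 * (j + 1) + (40 * (6 * (j + 1)) + 100 - 3 * (j + 1))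
          by omega, pow_add, ← mul_assoc, ← mul_pow]
        norm_num
    _ ≤ (1 / 2 : ℝ) ^ (j + 1) :=
        pow_le_pow_of_le_one (by norm_num) (by norm_num) (by omega)

lemma sum_k (J : ℕ) : ∑ j ∈ range J, (8 : ℝ) ^ (j + 1) *
    (((2 * Nn j : ℕ) : ℝ) / (q (6 * (j + 1) + 1) : ℕ)) ≤ 1 := by
  refine le_trans (sum_le_sum fun j _ => ?_) (geom_tail J)
  unfold Nn
  have h1 := q_ratio (show 6 * j + 5 < 6 * (j + 1) + 1 by omega)
  calc (8 : ℝ) ^ (j + 1) * (((2 * q (6 * j + 5) : ℕ) : ℝ) / q (6 * (j + 1) + 1))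
      = 2 * (8 : ℝ) ^ (j + 1) * ((q (6 * j + 5) : ℝ) / q (6 * (j + 1) + 1)) := by
        push_cast; ring
    _ ≤ 2 * 2 ^ (3 * (j + 1)) * (1 / 2 : ℝ) ^ (40 * (6 * (j + 1) + 1) + 100) := by
        rw [eight_pow]
        exact mul_le_mul_of_nonneg_left h1 (by positivity)
    _ = (1 / 2 : ℝ) ^ (40 * (6 * (j + 1) + 1) + 100 - (3 * (j + 1) + 1)) := by
        rw [show 40 * (6 * (j + 1) + 1) + 100 =
          (3 * (j + 1) + 1) + (40 * (6 * (j + 1) + 1) + 100 - (3 * (j + 1) + 1)) by omega,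
          pow_add, ← mul_assoc, mul_comm (2 : ℝ), ← pow_succ, ← mul_pow]
        norm_num
    _ ≤ (1 / 2 : ℝ) ^ (j + 1) :=
        pow_le_pow_of_le_one (by norm_num) (by norm_num) (by omega)

lemma G1_norm (J : ℕ) : ‖G1 sh J‖ ≤ 11 := by
  have h := TT_norm scales_a (fun j => Nn j) (fun j => q_dvd (by omega)) (fun j => le_rfl) J
    (sum_a J)
  exact h

lemma G1m_norm (J : ℕ) : ‖G1m sh J‖ ≤ 11 := by
  have h := TT_norm_neg scales_a (fun j => Nn j) (fun j => q_dvd (by omega)) (fun j => le_rfl) J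
    (sum_a J)
  exact h

lemma DD_norm (J : ℕ) : ‖DD sh J‖ ≤ 11 := by
  have h := TT_norm scales_a (fun _ => 0) (fun j => dvd_zero _) (fun j => Nat.zero_le _) J
    (sum_a J)
  have h2 : TT (fun j => q (6 * j)) (fun j => q (6 * j + 4)) (fun _ => ((0 : ℕ) : ℤ)) J =
      DD sh J := by
    unfold TT DD Dj
    refine sum_congr rfl fun j _ => ?_
    rw [Nat.cast_zero, sh_rep.zero, one_mul]
  rw [← h2]; exact h

lemma Rr_le {j l : ℕ} (hl : l ≤ j) : Rr j l ≤ q (6 * j + 3) := by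
  unfold Rr
  refine le_trans ?_ (q_gap (show 6 * j + 2 < 6 * j + 3 by omega))
  rw [mul_comm]
  refine Nat.mul_le_mul_right _ ?_
  calc 8 ^ (l + 1) = 2 ^ (3 * (l + 1)) := by rw [pow_mul]; norm_num
    _ ≤ 2 ^ (40 * (6 * j + 3) + 100) := Nat.pow_le_pow_right (by norm_num) (by omega)

lemma Rr_le_N {j l : ℕ} (hl : l ≤ j) : Rr j l ≤ Nn j :=
  (Rr_le hl).trans (Nat.le_of_dvd (q_pos _) (q_dvd (by omega)))

/-- the shifts appearing in the second generator -/
def rr (j i : ℕ) : ℕ := if i < j + 1 then Nn j + Rr j i else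
  if i - (j + 1) < j + 1 then Nn j - Rr j (i - (j + 1)) else 0

lemma rr_dvd (j i : ℕ) : q (6 * j + 1) ∣ rr j i := by
  have h1 : q (6 * j + 1) ∣ Nn j := q_dvd (by omega)
  have h2 : ∀ l, q (6 * j + 1) ∣ Rr j l := fun l => Dvd.dvd.mul_right (q_dvd (by omega)) _
  unfold rr
  split_ifs
  · exact dvd_add h1 (h2 _)
  · exact Nat.dvd_sub h1 (h2 _)
  · exact dvd_zero _

lemma rr_le (j i : ℕ) : rr j i ≤ 2 * Nn j := by
  unfold rr
  split_ifs with h
  · have := Rr_le_N (j := j) (l := i) (by omega); omega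
  · omega
  · omega

lemma G2_norm (J : ℕ) : ‖G2 sh J‖ ≤ 11 := by
  have h := avg_choice (fun j => 2 * (j + 1)) (fun j => by positivity)
    (fun j i => sh (rr j i) * (Lm sh (q (6 * j + 1)) - Lm sh (q (6 * j + 3)))) J 11
    (fun i => TT_norm scales_k (fun j => rr j (i j)) (fun j => rr_dvd _ _)
      (fun j => rr_le _ _) J (sum_k J))
  refine le_trans (le_of_eq ?_) h
  congr 1
  unfold G2
  refine sum_congr rfl fun j _ => ?_
  have h1 : ∑ i ∈ range (2 * (j + 1)),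
      sh (rr j i) * (Lm sh (q (6 * j + 1)) - Lm sh (q (6 * j + 3))) =
      (∑ l ∈ range (j + 1), (sh (Nn j) * sh (Rr j l) + sh (Nn j) * sh (-(Rr j l : ℤ)))) *
        Kj sh j := by
    rw [two_mul, sum_range_add, sum_add_distrib, add_mul, sum_mul, sum_mul]
    unfold Kj
    congr 1
    · refine sum_congr rfl fun l hl => ?_
      unfold rr
      rw [if_pos (mem_range.mp hl), ← sh_rep.add]
      push_cast; rfl
    · refine sum_congr rfl fun l hl => ?_
      have hl' := mem_range.mp hl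
      unfold rr
      rw [if_neg (by omega), if_pos (by omega), ← sh_rep.add,
        show j + 1 + l - (j + 1) = l by omega,
        Nat.cast_sub (Rr_le_N (show l ≤ j by omega)), sub_eq_add_neg]
  rw [h1]
  unfold Hj
  rw [smul_mul_assoc, mul_smul_comm, ← mul_assoc, mul_sum, sum_mul, sum_mul, smul_sum, smul_sum]
  refine sum_congr rfl fun l _ => ?_
  rw [mul_smul_comm, smul_mul_assoc, smul_smul, mul_add, Nat.cast_mul, mul_inv]
  congr 1
  push_cast
  ring

end Pool.Agent.H33.Cor
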