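import Pool.Agent.H33.Cor.Lim

set_option autoImplicit false
set_option linter.unusedSectionVars false

/-! The commutant of the shifts and the characters. -/

namespace Pool.Agent.H33.Cor

open Finset Filter Topology

/-- the `ℓ⁴` multipliers -/
def MM : Set (ℤ → ℂ) := {a : ℤ → ℂ | ∃ C : ℝ, ∀ x : ℤ →₀ ℂ,
      Summable (fun n : ℤ => ‖∑ k ∈ x.support, x k * a (n - k)‖ ^ (4 : ℝ)) ∧
      (∑' n : ℤ, ‖∑ k ∈ x.support, x k * a (n - k)‖ ^ (4 : ℝ)) ≤
        C * ∑' n : ℤ, ‖x n‖ ^ (4 : ℝ)}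

/-- the commutant -/
noncomputable def Com : Subalgebra ℂ (X →L[ℂ] X) := Subalgebra.centralizer ℂ (Set.range sh)

lemma mem_Com {T : X →L[ℂ] X} : T ∈ Com ↔ ∀ n, sh n * T = T * sh n := by
  unfold Com
  rw [Subalgebra.mem_centralizer_iff]
  constructor
  · intro h n; exact h _ ⟨n, rfl⟩
  · rintro h _ ⟨n, rfl⟩; exact h n

instance : CompleteSpace Com := by
  have h : IsClosed ((Com : Set (X →L[ℂ] X))) := by
    unfold Com
    rw [Subalgebra.coe_centralizer]
    exact Set.isClosed_centralizer _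
  exact h.completeSpace_coe

/-- the convolution kernel of an operator -/
noncomputable def kr (T : X →L[ℂ] X) (t : ℤ) : ℂ := (T (ee 0)) t

lemma Com_ee {T : X →L[ℂ] X} (hT : T ∈ Com) (k t : ℤ) : (T (ee k)) t = kr T (t - k) := by
  have h1 : ee k = sh k (ee 0) := by rw [sh_ee, zero_add]
  have h2 := congrArg (fun S : X →L[ℂ] X => S (ee 0)) (mem_Com.mp hT k)
  simp only [mul_apply_eq_comp] at h2
  rw [h1, ← h2, sh_apply]
  rfl

/-- a finitely supported vector -/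
noncomputable def toX (x : ℤ →₀ ℂ) : X := ∑ k ∈ x.support, x k • ee k

lemma toX_apply (x : ℤ →₀ ℂ) (n : ℤ) : toX x n = x n := by
  unfold toX
  rw [sum_ee_apply]
  split_ifs with h
  · rfl
  · exact (Finsupp.notMem_support_iff.mp h).symm

lemma Com_toX {T : X →L[ℂ] X} (hT : T ∈ Com) (x : ℤ →₀ ℂ) (n : ℤ) :
    (T (toX x)) n = ∑ k ∈ x.support, x k * kr T (n - k) := by
  unfold toX
  rw [map_sum, sum_apply']
  refine sum_congr rfl fun k _ => ?_
  rw [map_smul, smul_apply', Com_ee hT]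

lemma rpow4 (a : ℝ) : a ^ (4 : ℝ) = a ^ 4 := by
  rw [show (4 : ℝ) = ((4 : ℕ) : ℝ) by norm_num, Real.rpow_natCast]

lemma kr_mem {T : X →L[ℂ] X} (hT : T ∈ Com) : kr T ∈ MM := by
  refine ⟨‖T‖ ^ 4, fun x => ?_⟩
  simp only [rpow4]
  simp only [← Com_toX hT]
  refine ⟨summable4 _, ?_⟩
  rw [← norm4]
  have h1 : ∑' n, ‖x n‖ ^ 4 = ‖toX x‖ ^ 4 := by
    rw [norm4]; simp only [toX_apply]
  rw [h1, ← mul_pow]
  exact pow_le_pow_left₀ (norm_nonneg _) (T.le_opNorm _) 4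

lemma kr_mul {T T' : X →L[ℂ] X} (hT : T ∈ Com) :
    kr (T * T') = fun t : ℤ => ∑' k : ℤ, kr T' k * kr T (t - k) := by
  funext t
  have h1 := hasSum_ee (T' (ee 0))
  have h2 := h1.mapL T
  have h3 : HasSum (fun k => (T ((T' (ee 0)) k • ee k)) t) ((T (T' (ee 0))) t) := by
    have hcont : Continuous (fun u : X => u t) := by
      refine (LipschitzWith.of_dist_le_mul (K := 1) fun u v => ?_).continuous
      rw [dist_eq_norm, dist_eq_norm, NNReal.coe_one, one_mul, ← sub_apply']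
      exact norm_coord_le _ _
    exact h2.map (coordHom t) hcont
  have h4 := h3.tsum_eq
  unfold kr
  rw [mul_apply_eq_comp, ← h4]
  refine tsum_congr fun k => ?_
  rw [map_smul, smul_apply', Com_ee hT]
  rfl

lemma kr_one : kr 1 = fun t : ℤ => if t = 0 then (1 : ℂ) else 0 := by
  funext t
  unfold kr
  rw [one_apply_eq_self]
  exact ee_apply 0 t

section char

variable (m : (ℤ → ℂ) → ℂ)
  (hm : ∀ a ∈ MM, ∀ b ∈ MM, m (a + b) = m a + m b ∧
        m (fun t : ℤ => ∑' k : ℤ, a k * b (t - k)) = m a * m b)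
  (hs : ∀ c : ℂ, ∀ a ∈ MM, m (c • a) = c * m a)
  (h1 : m (fun t : ℤ => if t = 0 then (1 : ℂ) else 0) = 1)

/-- the character of the commutant -/
noncomputable def chi : Com →ₐ[ℂ] ℂ :=
  AlgHom.ofLinearMap
    { toFun := fun T => m (kr T.1)
      map_add' := fun T T' => (hm _ (kr_mem T.2) _ (kr_mem T'.2)).1
      map_smul' := fun c T => hs c _ (kr_mem T.2) }
    (by
      have : m (kr (1 : X →L[ℂ] X)) = 1 := by rw [kr_one]; exact h1
      exact this)
    (by
      intro T T'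
      have h2 : m (kr (T.1 * T'.1)) = m (kr T.1) * m (kr T'.1) := by
        rw [kr_mul T.2, (hm _ (kr_mem T'.2) _ (kr_mem T.2)).2, mul_comm]
      exact h2)

lemma chi_apply (T : Com) : chi m hm hs h1 T = m (kr T.1) := rfl

lemma chi_norm (T : Com) : ‖chi m hm hs h1 T‖ ≤ ‖T.1‖ := by
  have h2 := AlgHom.norm_apply_le_self_mul_norm_one (chi m hm hs h1) T
  have h3 : ‖(1 : Com)‖ ≤ 1 := by
    have h4 := sh_rep.norm 0
    rw [sh_rep.zero] at h4
    exact h4
  calc _ ≤ ‖T‖ * ‖(1 : Com)‖ := h2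
    _ ≤ ‖T‖ * 1 := mul_le_mul_of_nonneg_left h3 (norm_nonneg _)
    _ = ‖T.1‖ := mul_one _

end char

end Pool.Agent.H33.Cor
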