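import Pool.Agent.H33.Cor.Char

set_option autoImplicit false
set_option linter.unusedSectionVars false

/-! The lower bound at the characters. -/

namespace Pool.Agent.H33.Cor

open Finset Filter Topology

section comm
variable {𝔹 : Type*} [NormedRing 𝔹] [NormedAlgebra ℂ 𝔹] {σ : ℤ → 𝔹} (hσ : Rep σ)
include hσ

lemma Rep.comm_Kj (m : ℤ) (j : ℕ) : σ m * Kj σ j = Kj σ j * σ m := by
  unfold Kj; rw [mul_sub, sub_mul, hσ.comm_Lm, hσ.comm_Lm]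

lemma Rep.comm_G1 (m : ℤ) (J : ℕ) : σ m * G1 σ J = G1 σ J * σ m := by
  unfold G1
  rw [mul_sum, sum_mul]
  refine sum_congr rfl fun j _ => ?_
  rw [← mul_assoc, hσ.comm, mul_assoc, hσ.comm_Dj, mul_assoc]

lemma Rep.comm_G1m (m : ℤ) (J : ℕ) : σ m * G1m σ J = G1m σ J * σ m := by
  unfold G1m
  rw [mul_sum, sum_mul]
  refine sum_congr rfl fun j _ => ?_
  rw [← mul_assoc, hσ.comm, mul_assoc, hσ.comm_Dj, mul_assoc]

lemma Rep.comm_DD (m : ℤ) (J : ℕ) : σ m * DD σ J = DD σ J * σ m := by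
  unfold DD
  rw [mul_sum, sum_mul]
  exact sum_congr rfl fun j _ => hσ.comm_Dj _ _

lemma Rep.comm_G2 (m : ℤ) (J : ℕ) : σ m * G2 σ J = G2 σ J * σ m := by
  unfold G2
  rw [mul_sum, sum_mul]
  refine sum_congr rfl fun j _ => ?_
  rw [← mul_assoc, hσ.comm, mul_assoc, ← mul_assoc (σ m), hσ.comm_Hj, mul_assoc, hσ.comm_Kj,
    mul_assoc, mul_assoc]

end comm

/-- the limit operators -/
structure Lims (𝒢₁ 𝒢₂ 𝒢ₘ 𝒟 : X →L[ℂ] X) : Prop where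
  l1 : ∀ u, Tendsto (fun J => G1 sh J u) atTop (𝓝 (𝒢₁ u))
  l2 : ∀ u, Tendsto (fun J => G2 sh J u) atTop (𝓝 (𝒢₂ u))
  lm : ∀ u, Tendsto (fun J => G1m sh J u) atTop (𝓝 (𝒢ₘ u))
  ld : ∀ u, Tendsto (fun J => DD sh J u) atTop (𝓝 (𝒟 u))

lemma exists_lims : ∃ 𝒢₁ 𝒢₂ 𝒢ₘ 𝒟 : X →L[ℂ] X, Lims 𝒢₁ 𝒢₂ 𝒢ₘ 𝒟 := by
  obtain ⟨a, b, c, d, h1, h2, h3, h4⟩ := exists_limits
  exact ⟨a, b, c, d, h1.2, h2.2, h3.2, h4.2⟩

variable {𝒢₁ 𝒢₂ 𝒢ₘ 𝒟 : X →L[ℂ] X} (hL : Lims 𝒢₁ 𝒢₂ 𝒢ₘ 𝒟)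

include hL

lemma Lims.c1 : 𝒢₁ ∈ Com := mem_Com.mpr fun n =>
  comm_of_strong n (fun J => sh_rep.comm_G1 n J) hL.l1
lemma Lims.c2 : 𝒢₂ ∈ Com := mem_Com.mpr fun n =>
  comm_of_strong n (fun J => sh_rep.comm_G2 n J) hL.l2
lemma Lims.cm : 𝒢ₘ ∈ Com := mem_Com.mpr fun n =>
  comm_of_strong n (fun J => sh_rep.comm_G1m n J) hL.lm
lemma Lims.cd : 𝒟 ∈ Com := mem_Com.mpr fun n =>
  comm_of_strong n (fun J => sh_rep.comm_DD n J) hL.ld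

lemma Lims.nm : ‖𝒢ₘ‖ ≤ 11 := norm_le_of_strong (by norm_num) G1m_norm hL.lm
lemma Lims.n1 : ‖𝒢₁‖ ≤ 11 := norm_le_of_strong (by norm_num) G1_norm hL.l1
lemma Lims.n2 : ‖𝒢₂‖ ≤ 11 := norm_le_of_strong (by norm_num) G2_norm hL.l2

lemma Lims.e1 : ‖𝒢₂ * (1 - 𝒟)‖ ≤ 1 / 2000 := by
  refine norm_le_of_strong (T := fun J => G2 sh J * (1 - DD sh J)) (by norm_num)
    (fun J => sh_rep.G2_DD J) ?_
  refine tendsto_mul_strong G2_norm hL.l2 ?_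
  intro u
  exact tendsto_const_nhds.sub (hL.ld u)

lemma Lims.e2 : ‖𝒢₁ * 𝒢ₘ - 𝒟 * 𝒟‖ ≤ 1 / 2000 := by
  refine norm_le_of_strong (T := fun J => G1 sh J * G1m sh J - DD sh J * DD sh J) (by norm_num)
    (fun J => sh_rep.G1_G1m J) ?_
  intro u
  exact (tendsto_mul_strong G1_norm hL.l1 hL.lm u).sub (tendsto_mul_strong DD_norm hL.ld hL.ld u)

/-- the first function -/
noncomputable def F1 (𝒢₁ : X →L[ℂ] X) : X →L[ℂ] X := (1 / 20 : ℂ) • 1 - 𝒢₁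

/-- the second function -/
noncomputable def F2 (𝒢₂ : X →L[ℂ] X) : X →L[ℂ] X := (-(3 / 340) * Complex.I : ℂ) • 1 - 𝒢₂

omit hL in
lemma F_mem {T : X →L[ℂ] X} (c : ℂ) (hT : T ∈ Com) : c • 1 - T ∈ Com :=
  Com.sub_mem (Com.smul_mem Com.one_mem c) hT

lemma Lims.char (m : (ℤ → ℂ) → ℂ)
    (hm : ∀ a ∈ MM, ∀ b ∈ MM, m (a + b) = m a + m b ∧
        m (fun t : ℤ => ∑' k : ℤ, a k * b (t - k)) = m a * m b)
    (hs : ∀ c : ℂ, ∀ a ∈ MM, m (c • a) = c * m a)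
    (h1 : m (fun t : ℤ => if t = 0 then (1 : ℂ) else 0) = 1) :
    1 / 1000 ≤ ‖m (kr (F1 𝒢₁))‖ + ‖m (kr (F2 𝒢₂))‖ := by
  set χ := chi m hm hs h1 with hχ
  set a : Com := ⟨𝒢₁, hL.c1⟩ with ha
  set b : Com := ⟨𝒢₂, hL.c2⟩ with hb
  set c : Com := ⟨𝒢ₘ, hL.cm⟩ with hc
  set d : Com := ⟨𝒟, hL.cd⟩ with hd
  have e1 : ‖χ b * (1 - χ d)‖ ≤ 1 / 2000 := by
    have h2 := chi_norm m hm hs h1 (b * (1 - d))
    rw [← hχ, map_mul, map_sub, map_one] at h2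
    exact h2.trans hL.e1
  have e2 : ‖χ a * χ c - χ d * χ d‖ ≤ 1 / 2000 := by
    have h2 := chi_norm m hm hs h1 (a * c - d * d)
    rw [← hχ, map_sub, map_mul, map_mul] at h2
    exact h2.trans hL.e2
  have e3 : ‖χ c‖ ≤ 11 := (chi_norm m hm hs h1 c).trans hL.nm
  have e4 : m (kr (F1 𝒢₁)) = 1 / 20 - χ a := by
    have h2 : χ ((1 / 20 : ℂ) • 1 - a) = 1 / 20 - χ a := by
      rw [map_sub, map_smul, map_one, smul_eq_mul, mul_one]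
    rw [← h2]; rfl
  have e5 : m (kr (F2 𝒢₂)) = -(3 / 340) * Complex.I - χ b := by
    have h2 : χ ((-(3 / 340) * Complex.I : ℂ) • 1 - b) = -(3 / 340) * Complex.I - χ b := by
      rw [map_sub, map_smul, map_one, smul_eq_mul, mul_one]
    rw [← h2]; rfl
  rw [e4, e5]
  by_contra hcon
  push Not at hcon
  have p1 := norm_nonneg (1 / 20 - χ a)
  have p2 := norm_nonneg (-(3 / 340) * Complex.I - χ b)
  have n1 : ‖χ a‖ < 51 / 1000 := by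
    have h2 : χ a = 1 / 20 - (1 / 20 - χ a) := by ring
    have h3 := norm_sub_le (1 / 20 : ℂ) (1 / 20 - χ a)
    rw [← h2] at h3
    have h4 : ‖(1 / 20 : ℂ)‖ = 1 / 20 := by norm_num
    rw [h4] at h3
    linarith
  have n2 : 7 / 1000 < ‖χ b‖ := by
    have h2 := norm_sub_norm_le (-(3 / 340) * Complex.I) (χ b)
    have h4 : ‖(-(3 / 340) * Complex.I : ℂ)‖ = 3 / 340 := by
      rw [norm_mul, Complex.norm_I, mul_one, norm_neg]; norm_num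
    rw [h4] at h2
    linarith
  rw [norm_mul] at e1
  have n3 : ‖1 - χ d‖ ≤ 1 / 14 := by
    by_contra h2
    push Not at h2
    have h3 : (7 / 1000 : ℝ) * (1 / 14) < ‖χ b‖ * ‖1 - χ d‖ :=
      mul_lt_mul'' n2 h2 (by norm_num) (by norm_num)
    norm_num at h3
    linarith
  have n4 : 13 / 14 ≤ ‖χ d‖ := by
    have h2 := norm_sub_norm_le (1 : ℂ) (1 - χ d)
    have h3 : (1 : ℂ) - (1 - χ d) = χ d := by ring
    rw [h3, norm_one] at h2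
    linarith
  have n5 : (13 / 14 : ℝ) ^ 2 ≤ ‖χ d * χ d‖ := by
    rw [norm_mul, ← pow_two]
    exact pow_le_pow_left₀ (by norm_num) n4 2
  have n6 : ‖χ a * χ c‖ ≤ 51 / 1000 * 11 := by
    rw [norm_mul]
    exact mul_le_mul n1.le e3 (norm_nonneg _) (by norm_num)
  have n7 : ‖χ d * χ d‖ ≤ ‖χ a * χ c‖ + ‖χ a * χ c - χ d * χ d‖ := by
    have h2 := norm_sub_le (χ a * χ c) (χ a * χ c - χ d * χ d)
    rwa [show χ a * χ c - (χ a * χ c - χ d * χ d) = χ d * χ d by ring] at h2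
  norm_num at n5 n6
  rw [norm_mul (χ d), norm_mul (χ a)] at n7
  linarith

end Pool.Agent.H33.Cor
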