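import Pool.Agent.H33.Cor.Mart

set_option autoImplicit false
set_option linter.unusedSectionVars false

/-! Block averages on `ZMod M`. -/

namespace Pool.Agent.H33.Cor

open Finset

lemma qmod {A s : ℕ} (q : ℕ) (hs : s < A) : (q * A + s) % A = s := by
  rw [mul_comm, Nat.mul_add_mod, Nat.mod_eq_of_lt hs]

lemma qdiv {A s : ℕ} (q : ℕ) (hs : s < A) : (q * A + s) / A = q := by
  rw [mul_comm, Nat.mul_add_div (by omega), Nat.div_eq_of_lt hs, add_zero]

variable {M : ℕ} [NeZero M]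

/-- the label: number of the block of length `L` -/
def lab (L : ℕ) (x : ZMod M) : ℕ := x.val / L

lemma lab_nested {L L' : ℕ} (h : L ∣ L') {x y : ZMod M} (hxy : lab L x = lab L y) :
    lab L' x = lab L' y := by
  obtain ⟨k, rfl⟩ := h
  unfold lab at *
  rw [← Nat.div_div_eq_div_mul, hxy, Nat.div_div_eq_div_mul]

lemma base_lt {L : ℕ} (hL : 0 < L) (hM : L ∣ M) (x : ZMod M) {s : ℕ} (hs : s < L) :
    x.val / L * L + s < M := by
  obtain ⟨k, hk⟩ := hM
  have h1 : x.val < M := ZMod.val_lt x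
  have h2 : x.val / L < k := by
    rw [Nat.div_lt_iff_lt_mul hL]
    calc x.val < M := h1
      _ = k * L := by rw [hk, mul_comm]
  calc x.val / L * L + s < x.val / L * L + L := by omega
    _ = (x.val / L + 1) * L := by ring
    _ ≤ k * L := Nat.mul_le_mul_right _ h2
    _ = M := by rw [hk, mul_comm]

lemma val_base {L : ℕ} (hL : 0 < L) (hM : L ∣ M) (x : ZMod M) {s : ℕ} (hs : s < L) :
    ((x.val / L * L + s : ℕ) : ZMod M).val = x.val / L * L + s :=
  ZMod.val_natCast_of_lt (base_lt hL hM x hs)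

lemma sum_blk {V : Type*} [AddCommMonoid V] {L : ℕ} (hL : 0 < L) (hM : L ∣ M) (f : ZMod M → V)
    (x : ZMod M) :
    ∑ y ∈ blk (lab L) x, f y = ∑ s ∈ range L, f ((x.val / L * L + s : ℕ) : ZMod M) := by
  symm
  refine sum_nbij' (fun s => ((x.val / L * L + s : ℕ) : ZMod M)) (fun y => y.val % L) ?_ ?_ ?_ ?_ ?_
  · intro s hs
    rw [mem_blk]
    unfold lab
    rw [val_base hL hM x (mem_range.mp hs)]
    rw [qdiv _ (mem_range.mp hs)]
  · intro y _
    exact mem_range.mpr (Nat.mod_lt _ hL)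
  · intro s hs
    rw [val_base hL hM x (mem_range.mp hs), qmod _ (mem_range.mp hs)]
  · intro y hy
    rw [mem_blk] at hy
    unfold lab at hy
    rw [← hy, Nat.div_add_mod' y.val L, ZMod.natCast_zmod_val]
  · intro s _
    rfl

lemma card_blk {L : ℕ} (hL : 0 < L) (hM : L ∣ M) (x : ZMod M) : (blk (lab L) x).card = L := by
  have := sum_blk hL hM (fun _ => 1) x
  simpa using this

lemma base_eq {L : ℕ} (x : ZMod M) (s : ℕ) :
    ((x.val / L * L + s : ℕ) : ZMod M) = x - ((x.val % L : ℕ) : ZMod M) + s := by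
  have h := Nat.div_add_mod' x.val L
  have h2 : ((x.val / L * L : ℕ) : ZMod M) + ((x.val % L : ℕ) : ZMod M) = x := by
    rw [← Nat.cast_add, h, ZMod.natCast_zmod_val]
  have h3 : ((x.val / L * L : ℕ) : ZMod M) = x - ((x.val % L : ℕ) : ZMod M) :=
    eq_sub_of_add_eq h2
  rw [Nat.cast_add, h3]

lemma Av_lab {V : Type*} [AddCommGroup V] [Module ℝ V] {L : ℕ} (hL : 0 < L) (hM : L ∣ M)
    (f : ZMod M → V) (x : ZMod M) :
    Av (lab L) f x = (L : ℝ)⁻¹ • ∑ s ∈ range L, f (x - ((x.val % L : ℕ) : ZMod M) + s) := by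
  unfold Av
  rw [card_blk hL hM, sum_blk hL hM]
  simp only [base_eq]

lemma sum_zmod_val {V : Type*} [AddCommMonoid V] (F : ℕ → V) :
    ∑ y : ZMod M, F y.val = ∑ i ∈ range M, F i := by
  refine sum_nbij' ZMod.val (fun i => (i : ZMod M)) ?_ ?_ ?_ ?_ ?_
  · intro y _; exact mem_range.mpr (ZMod.val_lt y)
  · intro i _; exact mem_univ _
  · intro y _; exact ZMod.natCast_zmod_val y
  · intro i hi; exact ZMod.val_natCast_of_lt (mem_range.mp hi)
  · intro y _; rfl

lemma sum_range_mul_mod {V : Type*} [AddCommMonoid V] (h : ℕ → V) (L K : ℕ) :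
    ∑ i ∈ range (L * K), h (i % L) = K • ∑ p ∈ range L, h p := by
  induction K with
  | zero => simp
  | succ K ih =>
      rw [Nat.mul_succ, sum_range_add, ih, succ_nsmul]
      congr 1
      refine sum_congr rfl fun p hp => ?_
      rw [Nat.mul_add_mod, Nat.mod_eq_of_lt (mem_range.mp hp)]

lemma sum_zmod_mod {V : Type*} [AddCommGroup V] [Module ℝ V] (h : ℕ → V) {L : ℕ} (hL : 0 < L)
    (hM : L ∣ M) :
    ∑ y : ZMod M, h (y.val % L) = ((M : ℝ) / L) • ∑ p ∈ range L, h p := by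
  obtain ⟨K, hK⟩ := hM
  rw [sum_zmod_val (fun n => h (n % L))]
  have h1 : ((M : ℝ) / L) = (K : ℝ) := by
    rw [hK]; push_cast
    have : (L : ℝ) ≠ 0 := by positivity
    field_simp
  rw [h1, hK, sum_range_mul_mod, Nat.cast_smul_eq_nsmul]

/-- the translation invariant average -/
noncomputable def Lam (L : ℕ) (u : ZMod M → ℂ) (x : ZMod M) : ℂ :=
  ((L : ℝ) ^ 2)⁻¹ • ∑ p ∈ range L, ∑ s ∈ range L, u (x - p + s)

lemma sum_Av_translate {L : ℕ} (hL : 0 < L) (hM : L ∣ M) (u : ZMod M → ℂ) (x : ZMod M) :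
    ∑ τ : ZMod M, Av (lab L) (fun y => u (y + τ)) (x - τ) = (M : ℝ) • Lam L u x := by
  have h1 : ∀ τ : ZMod M, Av (lab L) (fun y => u (y + τ)) (x - τ) =
      (L : ℝ)⁻¹ • ∑ s ∈ range L, u (x - (((x - τ).val % L : ℕ) : ZMod M) + s) := by
    intro τ
    rw [Av_lab hL hM]
    congr 1
    refine sum_congr rfl fun s _ => ?_
    congr 1
    ring
  simp only [h1]
  rw [← smul_sum]
  have h2 : ∑ τ : ZMod M, ∑ s ∈ range L, u (x - (((x - τ).val % L : ℕ) : ZMod M) + s) =
      ∑ y : ZMod M, ∑ s ∈ range L, u (x - ((y.val % L : ℕ) : ZMod M) + s) :=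
    Fintype.sum_equiv (Equiv.subLeft x) _ _ fun τ => rfl
  rw [h2, sum_zmod_mod (fun p => ∑ s ∈ range L, u (x - ((p : ℕ) : ZMod M) + s)) hL hM]
  unfold Lam
  rw [smul_smul, smul_smul]
  congr 1
  have : (L : ℝ) ≠ 0 := by positivity
  field_simp

/-! ### cyclic rotations inside the blocks -/

/-- rotate by `c` inside each block of length `A` -/
def rot (A c : ℕ) (x : ZMod M) : ZMod M := ((x.val / A * A + (x.val % A + c) % A : ℕ) : ZMod M)

lemma val_rot {A : ℕ} (hA : 0 < A) (hM : A ∣ M) (c : ℕ) (x : ZMod M) :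
    (rot A c x).val = x.val / A * A + (x.val % A + c) % A :=
  val_base hA hM x (Nat.mod_lt _ hA)

lemma rot_div {A : ℕ} (hA : 0 < A) (hM : A ∣ M) (c : ℕ) (x : ZMod M) :
    (rot A c x).val / A = x.val / A := by
  rw [val_rot hA hM, qdiv _ (Nat.mod_lt _ hA)]

lemma rot_mod {A : ℕ} (hA : 0 < A) (hM : A ∣ M) (c : ℕ) (x : ZMod M) :
    (rot A c x).val % A = (x.val % A + c) % A := by
  rw [val_rot hA hM, qmod _ (Nat.mod_lt _ hA)]

lemma rot_rot {A : ℕ} (hA : 0 < A) (hM : A ∣ M) (c c' : ℕ) (x : ZMod M) :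
    rot A c' (rot A c x) = rot A (c + c') x := by
  unfold rot
  rw [show (((x.val / A * A + (x.val % A + c) % A : ℕ) : ZMod M)).val = x.val / A * A +
    (x.val % A + c) % A from val_rot hA hM c x]
  congr 2
  · rw [qdiv _ (Nat.mod_lt _ hA)]
  · rw [qmod _ (Nat.mod_lt _ hA), Nat.mod_add_mod, add_assoc]

lemma rot_self {A : ℕ} (x : ZMod M) : rot A A x = x := by
  unfold rot
  rw [Nat.add_mod_right, Nat.mod_mod, Nat.div_add_mod', ZMod.natCast_zmod_val]

/-- the rotation as a permutation -/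
def rotEquiv {A : ℕ} (hA : 0 < A) (hM : A ∣ M) {c c' : ℕ} (hc : c + c' = A) :
    Equiv.Perm (ZMod M) where
  toFun := rot A c
  invFun := rot A c'
  left_inv x := by rw [rot_rot hA hM, hc, rot_self]
  right_inv x := by rw [rot_rot hA hM, add_comm, hc, rot_self]

lemma lab_rot {A : ℕ} (hA : 0 < A) (hM : A ∣ M) (c : ℕ) (x : ZMod M) :
    lab A (rot A c x) = lab A x := rot_div hA hM c x

lemma lab_rot' {A L c : ℕ} (hA : 0 < A) (hM : A ∣ M) (hLA : L ∣ A) (hLc : L ∣ c)
    {x y : ZMod M} (h : lab L x = lab L y) : lab L (rot A c x) = lab L (rot A c y) := by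
  obtain ⟨k, rfl⟩ := hLA
  obtain ⟨c', rfl⟩ := hLc
  have hL : 0 < L := Nat.pos_of_mul_pos_right hA
  unfold lab at *
  have key : ∀ z : ZMod M, (rot (L * k) (L * c') z).val / L =
      z.val / L / k * k + (z.val / L % k + c') % k := by
    intro z
    rw [val_rot hA hM]
    have h1 : z.val / (L * k) * (L * k) = L * (z.val / L / k * k) := by
      rw [Nat.div_div_eq_div_mul]; ring
    rw [h1, Nat.mul_add_div hL, Nat.mod_mul_right_div_self, Nat.add_mul_div_left _ _ hL,
      Nat.mod_mul_right_div_self]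
  rw [key, key, h]

lemma Av_comp_rot {V : Type*} [AddCommGroup V] [Module ℝ V] {A : ℕ} (hA : 0 < A) (hM : A ∣ M)
    {c c' : ℕ} (hc : c + c' = A) (f : ZMod M → V) (x : ZMod M) :
    Av (lab A) (fun y => f (rot A c y)) x = Av (lab A) f x := by
  unfold Av
  congr 1
  refine sum_nbij' (rot A c) (rot A c') ?_ ?_ ?_ ?_ ?_
  · intro y hy
    rw [mem_blk] at hy ⊢
    rw [lab_rot hA hM, hy]
  · intro y hy
    rw [mem_blk] at hy ⊢
    rw [lab_rot hA hM, hy]
  · intro y _; rw [rot_rot hA hM, hc, rot_self]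
  · intro y _; rw [rot_rot hA hM, add_comm, hc, rot_self]
  · intro y _; rfl

/-- the last `ρ` points of each block of length `A` -/
def endInd (A ρ : ℕ) (x : ZMod M) : ℝ := if A - ρ ≤ x.val % A then 1 else 0

lemma endInd_nonneg (A ρ : ℕ) (x : ZMod M) : 0 ≤ endInd A ρ x := by
  unfold endInd; split_ifs <;> norm_num

lemma endInd_label {A ρ L : ℕ} (hL : 0 < L) (hLA : L ∣ A) (hLρ : L ∣ ρ) {x y : ZMod M}
    (h : lab L x = lab L y) : endInd A ρ x = endInd A ρ y := by
  have h1 : L ∣ A - ρ := Nat.dvd_sub hLA hLρ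
  obtain ⟨m, hm⟩ := h1
  obtain ⟨k, rfl⟩ := hLA
  have key : ∀ z : ZMod M, (L * k - ρ ≤ z.val % (L * k)) ↔ m ≤ z.val / L % k := by
    intro z
    rw [hm, ← Nat.mod_mul_right_div_self, Nat.le_div_iff_mul_le hL, mul_comm m L]
  unfold endInd
  have h3 : (L * k - ρ ≤ x.val % (L * k)) ↔ (L * k - ρ ≤ y.val % (L * k)) := by
    rw [key, key]
    unfold lab at h
    rw [h]
  simp only [h3]

lemma sum_endInd {A ρ : ℕ} (hA : 0 < A) (hM : A ∣ M) (hρ : ρ ≤ A) :
    ∑ x : ZMod M, endInd A ρ x = (M : ℝ) * (ρ / A) := by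
  unfold endInd
  rw [sum_zmod_mod (fun p => if A - ρ ≤ p then (1 : ℝ) else 0) hA hM]
  have h1 : ∑ p ∈ range A, (if A - ρ ≤ p then (1 : ℝ) else 0) = ρ := by
    rw [← sum_filter, sum_const, nsmul_eq_mul, mul_one]
    have : (range A).filter (fun p => A - ρ ≤ p) = Ico (A - ρ) A := by
      ext p; simp only [mem_filter, mem_range, mem_Ico]; omega
    rw [this, Nat.card_Ico]
    congr 1; omega
  rw [h1, smul_eq_mul]
  ring

lemma val_add_mod {A : ℕ} (hM : A ∣ M) (y : ZMod M) :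
    (y + (A : ZMod M)).val % A = y.val % A := by
  rw [ZMod.val_add, Nat.mod_mod_of_dvd _ hM, ZMod.val_natCast, Nat.add_mod,
    Nat.mod_mod_of_dvd _ hM, Nat.mod_self, add_zero, Nat.mod_mod]

lemma rot_cases {A r ρ : ℕ} (hA : 0 < A) (hM : A ∣ M) (hr : r ≤ ρ) (hρ : ρ ≤ A) (x : ZMod M) :
    rot A (A - r) x = x - (r : ZMod M) ∨
      (endInd A ρ (x - (r : ZMod M)) = 1 ∧ endInd A ρ (rot A (A - r) x) = 1) := by
  by_cases hx : r ≤ x.val % A
  · left
    have h1 : (x.val % A + (A - r)) % A = x.val % A - r := by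
      have h2 : x.val % A + (A - r) = (x.val % A - r) + A := by omega
      rw [h2, Nat.add_mod_right, Nat.mod_eq_of_lt]
      have := Nat.mod_lt x.val hA
      omega
    unfold rot
    rw [h1, base_eq, Nat.cast_sub hx]
    ring
  · right
    push Not at hx
    have h1 : (x.val % A + (A - r)) % A = x.val % A + (A - r) := Nat.mod_eq_of_lt (by omega)
    have h2 : rot A (A - r) x = (x - (r : ZMod M)) + (A : ZMod M) := by
      unfold rot
      rw [h1, base_eq, Nat.cast_add, Nat.cast_sub (hr.trans hρ)]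
      ring
    have h3 : (rot A (A - r) x).val % A = x.val % A + (A - r) := by
      rw [rot_mod hA hM, h1]
    have h4 : (x - (r : ZMod M)).val % A = x.val % A + (A - r) := by
      rw [← val_add_mod hM, ← h2, h3]
    constructor
    · unfold endInd; rw [h4, if_pos (by omega)]
    · unfold endInd; rw [h3, if_pos (by omega)]

end Pool.Agent.H33.Cor
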