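import Pool.Agent.H33.Cor.Char2

set_option autoImplicit false
set_option linter.unusedSectionVars false

/-! The lower bound on the disk. -/

namespace Pool.Agent.H33.Cor

open Finset Filter Topology

/-! ### evaluation at a point of the disk -/

lemma summable_eval (u : X) {z : ℂ} (hz : ‖z‖ < 1) : Summable fun k : ℕ => u k * z ^ k := by
  refine Summable.of_norm_bounded (g := fun k => ‖u‖ * ‖z‖ ^ k)
    ((summable_geometric_of_lt_one (norm_nonneg _) hz).mul_left _) fun k => ?_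
  rw [norm_mul, norm_pow]
  exact mul_le_mul_of_nonneg_right (norm_coord_le _ _) (by positivity)

/-- evaluation at `z`, as a linear map -/
noncomputable def phiL (z : ℂ) (hz : ‖z‖ < 1) : X →ₗ[ℂ] ℂ where
  toFun u := ∑' k : ℕ, u k * z ^ k
  map_add' u v := by
    rw [← (summable_eval u hz).tsum_add (summable_eval v hz)]
    exact tsum_congr fun k => by rw [add_apply', add_mul]
  map_smul' c u := by
    rw [RingHom.id_apply, smul_eq_mul, ← tsum_mul_left]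
    exact tsum_congr fun k => by rw [smul_apply', mul_assoc]

/-- evaluation at `z` -/
noncomputable def phi (z : ℂ) (hz : ‖z‖ < 1) : X →L[ℂ] ℂ :=
  (phiL z hz).mkContinuous ((1 - ‖z‖)⁻¹) fun u => by
    have h1 : HasSum (fun k : ℕ => ‖u‖ * ‖z‖ ^ k) (‖u‖ * (1 - ‖z‖)⁻¹) :=
      (hasSum_geometric_of_lt_one (norm_nonneg _) hz).mul_left _
    rw [mul_comm]
    refine tsum_of_norm_bounded h1 fun k => ?_
    rw [norm_mul, norm_pow]
    exact mul_le_mul_of_nonneg_right (norm_coord_le _ _) (by positivity)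

lemma phi_apply (z : ℂ) (hz : ‖z‖ < 1) (u : X) : phi z hz u = ∑' k : ℕ, u k * z ^ k := rfl

lemma phi_ee (z : ℂ) (hz : ‖z‖ < 1) (n : ℤ) (hn : 0 ≤ n) : phi z hz (ee n) = z ^ n := by
  obtain ⟨m, rfl⟩ := Int.eq_ofNat_of_zero_le hn
  rw [phi_apply, tsum_eq_single m]
  · rw [ee_apply, if_pos rfl, one_mul, zpow_natCast]
  · intro k hk
    rw [ee_apply, if_neg (by exact_mod_cast hk), zero_mul]

lemma phi_Lm (z : ℂ) (hz : ‖z‖ < 1) (n : ℤ) (L : ℕ) (hn : (L : ℤ) ≤ n) :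
    phi z hz ((sh n * Lm sh L) (ee 0)) =
      ((L : ℂ) ^ 2)⁻¹ * ∑ p ∈ range L, ∑ s ∈ range L, z ^ (n + ((p : ℤ) - s)) := by
  have h1 : (sh n * Lm sh L) (ee 0) =
      ((L : ℂ) ^ 2)⁻¹ • ∑ p ∈ range L, ∑ s ∈ range L, ee (n + ((p : ℤ) - s)) := by
    rw [mul_apply_eq_comp]
    unfold Lm
    rw [csmul_apply, map_smul, _root_.sum_apply, map_sum]
    congr 1
    refine sum_congr rfl fun p _ => ?_
    rw [_root_.sum_apply, map_sum]
    refine sum_congr rfl fun s _ => ?_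
    rw [sh_ee, sh_ee, zero_add, add_comm]
  rw [h1, map_smul, map_sum, smul_eq_mul]
  congr 1
  refine sum_congr rfl fun p hp => ?_
  rw [map_sum]
  refine sum_congr rfl fun s hs => ?_
  rw [phi_ee]
  have h2 := mem_range.mp hp
  have h3 := mem_range.mp hs
  omega

/-! ### comparison with the boundary -/

lemma pow_mul_one_sub {r : ℝ} (h0 : 0 ≤ r) (h1 : r ≤ 1) (n : ℕ) : n * (r ^ n * (1 - r)) ≤ 1 := by
  have h2 : (∑ i ∈ range n, r ^ i) * (1 - r) = 1 - r ^ n := by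
    have := geom_sum_mul r n
    linarith
  have h3 : (n : ℝ) * r ^ n ≤ ∑ i ∈ range n, r ^ i := by
    calc (n : ℝ) * r ^ n = ∑ i ∈ range n, r ^ n := by simp
      _ ≤ _ := sum_le_sum fun i hi =>
          pow_le_pow_of_le_one h0 h1 (mem_range.mp hi).le
  have h4 : (n : ℝ) * r ^ n * (1 - r) ≤ (∑ i ∈ range n, r ^ i) * (1 - r) :=
    mul_le_mul_of_nonneg_right h3 (by linarith)
  have h5 : 0 ≤ r ^ n := by positivity
  linarith

lemma pow_sub_pow_le {r : ℝ} (h0 : 0 ≤ r) (h1 : r ≤ 1) (n k : ℕ) (hn : 0 < n) :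
    r ^ n * (1 - r ^ k) ≤ k / n := by
  have h2 : 1 - r ^ k ≤ k * (1 - r) := by
    have := one_add_mul_le_pow (show (-2 : ℝ) ≤ r - 1 by linarith) k
    rw [add_sub_cancel] at this
    linarith
  have h3 := pow_mul_one_sub h0 h1 n
  have h4 : (0 : ℝ) < n := by exact_mod_cast hn
  rw [le_div_iff₀ h4]
  calc r ^ n * (1 - r ^ k) * n ≤ r ^ n * (k * (1 - r)) * n :=
        mul_le_mul_of_nonneg_right (mul_le_mul_of_nonneg_left h2 (by positivity)) h4.le
    _ = k * (n * (r ^ n * (1 - r))) := by ring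
    _ ≤ k * 1 := mul_le_mul_of_nonneg_left h3 (by positivity)
    _ = k := mul_one _

lemma zpow_diff {r : ℝ} (h0 : 0 < r) (h1 : r ≤ 1) {N K : ℕ} (hK : K < N) {m : ℤ}
    (hm : |m| ≤ K) : |r ^ ((N : ℤ) + m) - r ^ N| ≤ (K : ℝ) / ((N : ℝ) - K) := by
  have hNK : (0 : ℝ) < (N : ℝ) - K := by
    have : (K : ℝ) < N := by exact_mod_cast hK
    linarith
  rcases le_total 0 m with h | h
  · obtain ⟨k, rfl⟩ := Int.eq_ofNat_of_zero_le h
    have hk : k ≤ K := by rw [abs_of_nonneg h] at hm; exact_mod_cast hm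
    have h2 : r ^ ((N : ℤ) + (k : ℤ)) = r ^ N * r ^ k := by
      rw [zpow_add₀ h0.ne', zpow_natCast, zpow_natCast]
    rw [h2, show r ^ N * r ^ k - r ^ N = -(r ^ N * (1 - r ^ k)) by ring, abs_neg, abs_of_nonneg
      (mul_nonneg (by positivity) (sub_nonneg.mpr (pow_le_one₀ h0.le h1)))]
    refine (pow_sub_pow_le h0.le h1 N k (by omega)).trans ?_
    have hk' : (k : ℝ) ≤ K := by exact_mod_cast hk
    have hN : (0 : ℝ) < N := by exact_mod_cast (by omega : 0 < N)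
    have hK0 : (0 : ℝ) ≤ K := by positivity
    rw [div_le_div_iff₀ hN hNK]
    nlinarith
  · obtain ⟨k, hk0⟩ := Int.eq_ofNat_of_zero_le (neg_nonneg.mpr h)
    have hmk : m = -(k : ℤ) := by linarith
    subst hmk
    have hk : k ≤ K := by rw [abs_neg, abs_of_nonneg (by positivity)] at hm; exact_mod_cast hm
    have h2 : r ^ ((N : ℤ) + -(k : ℤ)) = r ^ (N - k) := by
      rw [← zpow_natCast r (N - k), Nat.cast_sub (by omega)]; rfl
    have h3 : r ^ N = r ^ (N - k) * r ^ k := by rw [← pow_add]; congr 1; omega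
    rw [h2, h3, show r ^ (N - k) - r ^ (N - k) * r ^ k = r ^ (N - k) * (1 - r ^ k) by ring,
      abs_of_nonneg (mul_nonneg (by positivity) (sub_nonneg.mpr (pow_le_one₀ h0.le h1)))]
    refine (pow_sub_pow_le h0.le h1 (N - k) k (by omega)).trans ?_
    have hk' : (k : ℝ) ≤ K := by exact_mod_cast hk
    have hN : (0 : ℝ) < ((N - k : ℕ) : ℝ) := by exact_mod_cast (by omega : 0 < N - k)
    have hK0 : (0 : ℝ) ≤ K := by positivity
    rw [div_le_div_iff₀ hN hNK, Nat.cast_sub (by omega)]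
    have h5 : (0 : ℝ) ≤ N := by positivity
    nlinarith

/-- the rotation representation -/
noncomputable def rot1 (ζ : ℂ) (n : ℤ) : ℂ := ζ ^ n

lemma rot1_rep {ζ : ℂ} (hζ : ‖ζ‖ = 1) : Rep (rot1 ζ) where
  zero := zpow_zero _
  add m n := zpow_add₀ (by intro h; rw [h, norm_zero] at hζ; exact zero_ne_one hζ) _ _
  norm n := by unfold rot1; rw [norm_zpow, hζ, one_zpow]

section disk

variable {z : ℂ} (hz : ‖z‖ < 1) (hz0 : z ≠ 0)

lemma unit_of (hz0 : z ≠ 0) : ‖z / (‖z‖ : ℂ)‖ = 1 := by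
  rw [norm_div, Complex.norm_real, norm_norm, div_self (norm_ne_zero_iff.mpr hz0)]

include hz0 in
lemma zpow_cmp (hz : ‖z‖ < 1) {N K : ℕ} (hK : K < N) {n : ℤ} (hn : |n - N| ≤ K) :
    ‖z ^ n - (‖z‖ : ℂ) ^ N * rot1 (z / (‖z‖ : ℂ)) n‖ ≤ (K : ℝ) / ((N : ℝ) - K) := by
  have hr : 0 < ‖z‖ := norm_pos_iff.mpr hz0
  have h1 : z ^ n = ((‖z‖ ^ n : ℝ) : ℂ) * rot1 (z / (‖z‖ : ℂ)) n := by
    unfold rot1
    rw [div_zpow, Complex.ofReal_zpow, mul_div_cancel₀]
    exact zpow_ne_zero _ (by exact_mod_cast hr.ne')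
  rw [h1, ← Complex.ofReal_pow, ← sub_mul, ← Complex.ofReal_sub, norm_mul, Complex.norm_real,
    Real.norm_eq_abs]
  have h2 : ‖rot1 (z / (‖z‖ : ℂ)) n‖ ≤ 1 := (rot1_rep (unit_of hz0)).norm n
  have h3 := zpow_diff hr hz.le hK hn
  rw [add_sub_cancel] at h3
  calc |‖z‖ ^ n - ‖z‖ ^ N| * ‖rot1 (z / (‖z‖ : ℂ)) n‖ ≤ |‖z‖ ^ n - ‖z‖ ^ N| * 1 :=
        mul_le_mul_of_nonneg_left h2 (abs_nonneg _)
    _ ≤ _ := by rw [mul_one]; exact h3

include hz0 in
lemma phi_cmp {N K L : ℕ} (hK : K < N) {n : ℤ} (hL : 0 < L) (hn : |n - N| + L ≤ K) :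
    ‖phi z hz ((sh n * Lm sh L) (ee 0)) -
      (‖z‖ : ℂ) ^ N * (rot1 (z / (‖z‖ : ℂ)) n * Lm (rot1 (z / (‖z‖ : ℂ))) L)‖ ≤
        (K : ℝ) / ((N : ℝ) - K) := by
  set σ := rot1 (z / (‖z‖ : ℂ)) with hσ
  have hrep : Rep σ := rot1_rep (unit_of hz0)
  have hLn : (L : ℤ) ≤ n := by
    have h1 := abs_le.mp (show |n - N| ≤ K - L by linarith)
    have h2 : (K : ℤ) < N := by exact_mod_cast hK
    linarith [h1.1]
  rw [phi_Lm z hz n L hLn]
  have h1 : (‖z‖ : ℂ) ^ N * (σ n * Lm σ L) =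
      ((L : ℂ) ^ 2)⁻¹ * ∑ p ∈ range L, ∑ s ∈ range L,
        (‖z‖ : ℂ) ^ N * σ (n + ((p : ℤ) - s)) := by
    unfold Lm
    rw [smul_eq_mul, mul_left_comm (σ n), mul_left_comm, mul_sum, mul_sum]
    congr 1
    refine sum_congr rfl fun p _ => ?_
    rw [mul_sum, mul_sum]
    refine sum_congr rfl fun s _ => ?_
    rw [hrep.add]
  rw [h1, ← mul_sub, ← sum_sub_distrib, norm_mul, norm_inv, norm_pow, Complex.norm_natCast]
  have hL' : (0 : ℝ) < (L : ℝ) ^ 2 := by positivity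
  rw [inv_mul_le_iff₀ hL']
  refine (norm_sum_le _ _).trans ?_
  calc ∑ p ∈ range L, ‖∑ s ∈ range L, z ^ (n + ((p : ℤ) - s)) -
        ∑ s ∈ range L, (‖z‖ : ℂ) ^ N * σ (n + ((p : ℤ) - s))‖
      ≤ ∑ p ∈ range L, ∑ s ∈ range L, (K : ℝ) / ((N : ℝ) - K) := by
        refine sum_le_sum fun p hp => ?_
        rw [← sum_sub_distrib]
        refine (norm_sum_le _ _).trans (sum_le_sum fun s hs => ?_)
        refine zpow_cmp hz0 hz hK ?_
        have h2 := mem_range.mp hp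
        have h3 := mem_range.mp hs
        have h4 : |n + ((p : ℤ) - s) - N| ≤ |n - N| + |(p : ℤ) - s| := by
          rw [show n + ((p : ℤ) - s) - N = (n - N) + ((p : ℤ) - s) by ring]
          exact abs_add_le _ _
        have h5 : |(p : ℤ) - s| ≤ L := by rw [abs_le]; constructor <;> omega
        linarith
    _ = (L : ℝ) ^ 2 * ((K : ℝ) / ((N : ℝ) - K)) := by
        rw [sum_const, sum_const, card_range, nsmul_eq_mul, nsmul_eq_mul]; ring

end disk

end Pool.Agent.H33.Cor
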