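import Pool.Agent.H33.Cor.Disk

set_option autoImplicit false
set_option linter.unusedSectionVars false

/-! The lower bound on the disk, continued. -/

namespace Pool.Agent.H33.Cor

open Finset Filter Topology

section rep
variable {𝔹 : Type*} [NormedRing 𝔹] [NormedAlgebra ℂ 𝔹] {σ : ℤ → 𝔹} (hσ : Rep σ)
include hσ

lemma Rep.NHK (j : ℕ) : σ (Nn j) * (Hj σ j * Kj σ j) =
    (((j + 1 : ℕ) : ℂ))⁻¹ • ∑ l ∈ range (j + 1), (1 / 2 : ℂ) •
      ((σ ((Nn j : ℤ) + Rr j l) * Lm σ (q (6 * j + 1)) -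
        σ ((Nn j : ℤ) + Rr j l) * Lm σ (q (6 * j + 3))) +
       (σ ((Nn j : ℤ) - Rr j l) * Lm σ (q (6 * j + 1)) -
        σ ((Nn j : ℤ) - Rr j l) * Lm σ (q (6 * j + 3)))) := by
  unfold Hj
  rw [smul_mul_assoc, mul_smul_comm, sum_mul, mul_sum]
  congr 1
  refine sum_congr rfl fun l _ => ?_
  rw [smul_mul_assoc, mul_smul_comm]
  congr 1
  unfold Kj
  rw [sub_eq_add_neg (Nn j : ℤ), hσ.add, hσ.add]
  noncomm_ring

end rep

lemma err_le (j : ℕ) : ((q (6 * j + 4) : ℕ) : ℝ) / (((Nn j : ℕ) : ℝ) - (q (6 * j + 4) : ℕ)) ≤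
    (1 / 2 : ℝ) ^ (90 + j) := by
  unfold Nn
  have h1 := q_gap (show 6 * j + 4 < 6 * j + 5 by omega)
  have h2 : (0 : ℝ) < (q (6 * j + 4) : ℕ) := by exact_mod_cast q_pos _
  have h3 : (2 ^ (91 + j) : ℝ) * (q (6 * j + 4) : ℕ) ≤ (q (6 * j + 5) : ℕ) := by
    have h4 : 2 ^ (91 + j) * q (6 * j + 4) ≤ q (6 * j + 5) :=
      le_trans (Nat.mul_le_mul_right _ (Nat.pow_le_pow_right (by norm_num) (by omega))) h1
    exact_mod_cast h4
  have h5 : (2 ^ (91 + j) : ℝ) = 2 * 2 ^ (90 + j) := by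
    rw [show 91 + j = (90 + j) + 1 by ring, pow_succ]; ring
  rw [h5] at h3
  have h6 : (1 : ℝ) ≤ 2 ^ (90 + j) := one_le_pow₀ (by norm_num)
  have h7 : (0 : ℝ) < ((q (6 * j + 5) : ℕ) : ℝ) - (q (6 * j + 4) : ℕ) := by nlinarith
  rw [div_le_iff₀ h7, one_div, inv_pow, ← div_eq_inv_mul, le_div_iff₀ (by positivity)]
  nlinarith

lemma Kq_lt (j : ℕ) : q (6 * j + 4) < Nn j := by
  have h1 := two_q_le (show 6 * j + 4 < 6 * j + 5 by omega)
  have h2 := q_pos (6 * j + 4)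
  unfold Nn
  omega

section disk

variable {z : ℂ} (hz : ‖z‖ < 1) (hz0 : z ≠ 0)

include hz0

lemma cmpD (j : ℕ) : ‖phi z hz ((sh (Nn j) * Dj sh j) (ee 0)) -
    (‖z‖ : ℂ) ^ (Nn j) * (rot1 (z / (‖z‖ : ℂ)) (Nn j) * Dj (rot1 (z / (‖z‖ : ℂ))) j)‖ ≤
      2 * (1 / 2 : ℝ) ^ (90 + j) := by
  have hK := Kq_lt j
  have h1 := phi_cmp hz hz0 hK (n := Nn j) (q_pos (6 * j)) (by
    rw [sub_self, abs_zero, zero_add]
    exact_mod_cast Nat.le_of_dvd (q_pos _) (q_dvd (by omega)))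
  have h2 := phi_cmp hz hz0 hK (n := Nn j) (q_pos (6 * j + 4)) (by
    rw [sub_self, abs_zero, zero_add])
  have h3 := err_le j
  have h4 : phi z hz ((sh (Nn j) * Dj sh j) (ee 0)) =
      phi z hz ((sh (Nn j) * Lm sh (q (6 * j))) (ee 0)) -
      phi z hz ((sh (Nn j) * Lm sh (q (6 * j + 4))) (ee 0)) := by
    unfold Dj
    rw [mul_sub, sub_apply, map_sub]
  rw [h4]
  unfold Dj
  rw [mul_sub, mul_sub, sub_sub_sub_comm]
  refine (norm_sub_le _ _).trans ?_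
  linarith

lemma cmpK (j : ℕ) : ‖phi z hz ((sh (Nn j) * (Hj sh j * Kj sh j)) (ee 0)) -
    (‖z‖ : ℂ) ^ (Nn j) * (rot1 (z / (‖z‖ : ℂ)) (Nn j) * (Hj (rot1 (z / (‖z‖ : ℂ))) j *
      Kj (rot1 (z / (‖z‖ : ℂ))) j))‖ ≤ 2 * (1 / 2 : ℝ) ^ (90 + j) := by
  have hK := Kq_lt j
  have hrep : Rep (rot1 (z / (‖z‖ : ℂ))) := rot1_rep (unit_of hz0)
  have h3 := err_le j
  rw [hrep.NHK, sh_rep.NHK, csmul_apply, map_smul, smul_eq_mul, smul_eq_mul,
    mul_left_comm ((‖z‖ : ℂ) ^ (Nn j)), ← mul_sub, mul_sum, _root_.sum_apply, map_sum,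
    ← sum_sub_distrib, norm_mul, norm_inv, Complex.norm_natCast]
  have hj : (0 : ℝ) < ((j + 1 : ℕ) : ℝ) := by positivity
  rw [inv_mul_le_iff₀ hj]
  refine (norm_sum_le _ _).trans ?_
  refine (sum_le_sum (g := fun _ => 2 * (1 / 2 : ℝ) ^ (90 + j)) fun l hl => ?_).trans ?_
  · have hl' : l ≤ j := by have := mem_range.mp hl; omega
    have hR := Rr_le hl'
    have h13 : q (6 * j + 1) ≤ q (6 * j + 3) := Nat.le_of_dvd (q_pos _) (q_dvd (by omega))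
    have h34 := two_q_le (show 6 * j + 3 < 6 * j + 4 by omega)
    have a1 := phi_cmp hz hz0 hK (n := (Nn j : ℤ) + Rr j l) (q_pos (6 * j + 1)) (by
      rw [add_sub_cancel_left, abs_of_nonneg (by positivity)]
      exact_mod_cast (by omega : Rr j l + q (6 * j + 1) ≤ q (6 * j + 4)))
    have a2 := phi_cmp hz hz0 hK (n := (Nn j : ℤ) + Rr j l) (q_pos (6 * j + 3)) (by
      rw [add_sub_cancel_left, abs_of_nonneg (by positivity)]
      exact_mod_cast (by omega : Rr j l + q (6 * j + 3) ≤ q (6 * j + 4)))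
    have a3 := phi_cmp hz hz0 hK (n := (Nn j : ℤ) - Rr j l) (q_pos (6 * j + 1)) (by
      rw [show (Nn j : ℤ) - Rr j l - Nn j = -(Rr j l : ℤ) by ring, abs_neg,
        abs_of_nonneg (by positivity)]
      exact_mod_cast (by omega : Rr j l + q (6 * j + 1) ≤ q (6 * j + 4)))
    have a4 := phi_cmp hz hz0 hK (n := (Nn j : ℤ) - Rr j l) (q_pos (6 * j + 3)) (by
      rw [show (Nn j : ℤ) - Rr j l - Nn j = -(Rr j l : ℤ) by ring, abs_neg,
        abs_of_nonneg (by positivity)]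
      exact_mod_cast (by omega : Rr j l + q (6 * j + 3) ≤ q (6 * j + 4)))
    set P := (‖z‖ : ℂ) ^ (Nn j)
    set x1 := phi z hz ((sh ((Nn j : ℤ) + Rr j l) * Lm sh (q (6 * j + 1))) (ee 0))
    set x2 := phi z hz ((sh ((Nn j : ℤ) + Rr j l) * Lm sh (q (6 * j + 3))) (ee 0))
    set x3 := phi z hz ((sh ((Nn j : ℤ) - Rr j l) * Lm sh (q (6 * j + 1))) (ee 0))
    set x4 := phi z hz ((sh ((Nn j : ℤ) - Rr j l) * Lm sh (q (6 * j + 3))) (ee 0))
    set y1 := rot1 (z / (‖z‖ : ℂ)) ((Nn j : ℤ) + Rr j l) * Lm (rot1 (z / (‖z‖ : ℂ))) (q (6 * j + 1))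
    set y2 := rot1 (z / (‖z‖ : ℂ)) ((Nn j : ℤ) + Rr j l) * Lm (rot1 (z / (‖z‖ : ℂ))) (q (6 * j + 3))
    set y3 := rot1 (z / (‖z‖ : ℂ)) ((Nn j : ℤ) - Rr j l) * Lm (rot1 (z / (‖z‖ : ℂ))) (q (6 * j + 1))
    set y4 := rot1 (z / (‖z‖ : ℂ)) ((Nn j : ℤ) - Rr j l) * Lm (rot1 (z / (‖z‖ : ℂ))) (q (6 * j + 3))
    have e1 : phi z hz (((1 / 2 : ℂ) •
        ((sh ((Nn j : ℤ) + Rr j l) * Lm sh (q (6 * j + 1)) -
          sh ((Nn j : ℤ) + Rr j l) * Lm sh (q (6 * j + 3))) +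
         (sh ((Nn j : ℤ) - Rr j l) * Lm sh (q (6 * j + 1)) -
          sh ((Nn j : ℤ) - Rr j l) * Lm sh (q (6 * j + 3))))) (ee 0)) =
        (1 / 2) * ((x1 - x2) + (x3 - x4)) := by
      rw [csmul_apply, map_smul, smul_eq_mul, add_apply, sub_apply, sub_apply, map_add, map_sub,
        map_sub]
    rw [e1, smul_eq_mul]
    have e2 : (1 / 2) * ((x1 - x2) + (x3 - x4)) - P * (1 / 2 * ((y1 - y2) + (y3 - y4))) =
        (1 / 2) * ((x1 - P * y1) - (x2 - P * y2) + ((x3 - P * y3) - (x4 - P * y4))) := by ring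
    rw [e2, norm_mul]
    have e3 : ‖(1 / 2 : ℂ)‖ = 1 / 2 := by norm_num
    rw [e3]
    have b1 := norm_add_le ((x1 - P * y1) - (x2 - P * y2)) ((x3 - P * y3) - (x4 - P * y4))
    have b2 := norm_sub_le (x1 - P * y1) (x2 - P * y2)
    have b3 := norm_sub_le (x3 - P * y3) (x4 - P * y4)
    linarith
  · rw [sum_const, card_range, nsmul_eq_mul]

end disk

/-! ### realness on the circle -/

section circle

variable {ζ : ℂ} (hζ : ‖ζ‖ = 1)

/-- the real symbol -/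
noncomputable def FL (ζ : ℂ) (L : ℕ) : ℝ := (‖∑ p ∈ range L, ζ ^ p‖ / L) ^ 2

include hζ

lemma conj_rot1 (n : ℤ) : rot1 ζ (-n) = (starRingEnd ℂ) (rot1 ζ n) := by
  unfold rot1
  rw [map_zpow₀, zpow_neg, ← inv_zpow]
  congr 1
  rw [Complex.inv_def, Complex.normSq_eq_norm_sq, hζ]
  simp

lemma Lm_circle (L : ℕ) : Lm (rot1 ζ) L = (FL ζ L : ℂ) := by
  rw [(rot1_rep hζ).Lm_eq, smul_eq_mul]
  have h1 : ∑ s ∈ range L, rot1 ζ (-(s : ℤ)) = (starRingEnd ℂ) (∑ s ∈ range L, rot1 ζ (s : ℤ)) := by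
    rw [map_sum]
    exact sum_congr rfl fun s _ => conj_rot1 hζ _
  have h2 : ∑ s ∈ range L, rot1 ζ (s : ℤ) = ∑ s ∈ range L, ζ ^ s :=
    sum_congr rfl fun s _ => by unfold rot1; rw [zpow_natCast]
  rw [h1, h2, Complex.mul_conj, Complex.normSq_eq_norm_sq]
  unfold FL
  push_cast
  rw [div_pow]
  ring

lemma FL_le_one (L : ℕ) : FL ζ L ≤ 1 := by
  unfold FL
  have h1 : ‖∑ p ∈ range L, ζ ^ p‖ ≤ L := by
    refine (norm_sum_le _ _).trans (le_of_eq ?_)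
    simp [norm_pow, hζ]
  rcases Nat.eq_zero_or_pos L with rfl | hL
  · simp
  have hL' : (0 : ℝ) < L := by exact_mod_cast hL
  exact pow_le_one₀ (by positivity) ((div_le_one hL').mpr h1)

omit hζ in
lemma FL_nonneg (L : ℕ) : 0 ≤ FL ζ L := by unfold FL; positivity

omit hζ in
lemma sum_pow_mul (L k : ℕ) : ∑ p ∈ range (L * k), ζ ^ p =
    (∑ p ∈ range L, ζ ^ p) * ∑ i ∈ range k, (ζ ^ L) ^ i := by
  induction k with
  | zero => simp
  | succ k ih =>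
      rw [Nat.mul_succ, sum_range_add, ih, sum_range_succ, mul_add]
      congr 1
      rw [sum_mul]
      refine sum_congr rfl fun p _ => ?_
      rw [pow_add, pow_mul, mul_comm]

lemma FL_anti {L L' : ℕ} (hL : 0 < L) (h : L ∣ L') : FL ζ L' ≤ FL ζ L := by
  obtain ⟨k, rfl⟩ := h
  rcases Nat.eq_zero_or_pos k with rfl | hk
  · unfold FL; simp; positivity
  unfold FL
  refine pow_le_pow_left₀ (by positivity) ?_ 2
  rw [sum_pow_mul, norm_mul, Nat.cast_mul]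
  have h1 : ‖∑ i ∈ range k, (ζ ^ L) ^ i‖ ≤ k := by
    refine (norm_sum_le _ _).trans (le_of_eq ?_)
    simp [norm_pow, hζ]
  have hL' : (0 : ℝ) < L := by exact_mod_cast hL
  have hk' : (0 : ℝ) < k := by exact_mod_cast hk
  rw [div_le_div_iff₀ (by positivity) hL']
  calc ‖∑ p ∈ range L, ζ ^ p‖ * ‖∑ i ∈ range k, (ζ ^ L) ^ i‖ * L
      ≤ ‖∑ p ∈ range L, ζ ^ p‖ * k * L :=
        mul_le_mul_of_nonneg_right (mul_le_mul_of_nonneg_left h1 (norm_nonneg _)) hL'.le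
    _ = ‖∑ p ∈ range L, ζ ^ p‖ * (L * k) := by ring

/-- the real symbol of the average of cosines -/
lemma Hj_circle (j : ℕ) : ∃ x : ℝ, |x| ≤ 1 ∧ Hj (rot1 ζ) j = (x : ℂ) := by
  refine ⟨(((j + 1 : ℕ) : ℝ))⁻¹ * ∑ l ∈ range (j + 1), (rot1 ζ (Rr j l)).re, ?_, ?_⟩
  · have hj : (0 : ℝ) < ((j + 1 : ℕ) : ℝ) := by positivity
    rw [abs_mul, abs_inv, abs_of_pos hj, inv_mul_le_iff₀ hj, mul_one]
    refine (abs_sum_le_sum_abs _ _).trans ?_
    calc ∑ l ∈ range (j + 1), |(rot1 ζ (Rr j l)).re| ≤ ∑ l ∈ range (j + 1), (1 : ℝ) :=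
          sum_le_sum fun l _ => (Complex.abs_re_le_norm _).trans ((rot1_rep hζ).norm _)
      _ = _ := by simp
  · unfold Hj
    rw [smul_eq_mul]
    push_cast
    congr 1
    refine sum_congr rfl fun l _ => ?_
    rw [conj_rot1 hζ, Complex.add_conj, smul_eq_mul]
    push_cast
    ring

lemma t_real (J : ℕ) : ∃ t : ℝ, |t| ≤ 1 ∧
    ∑ i ∈ range J, Hj (rot1 ζ) i * Kj (rot1 ζ) i = (t : ℂ) := by
  choose x hx1 hx2 using Hj_circle hζ
  refine ⟨∑ i ∈ range J, x i * (FL ζ (q (6 * i + 1)) - FL ζ (q (6 * i + 3))), ?_, ?_⟩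
  · refine (abs_sum_le_sum_abs _ _).trans ?_
    have h1 : ∀ i, |x i * (FL ζ (q (6 * i + 1)) - FL ζ (q (6 * i + 3)))| ≤
        FL ζ (q (6 * i + 1)) - FL ζ (q (6 * (i + 1) + 1)) := by
      intro i
      have h2 : FL ζ (q (6 * i + 3)) ≤ FL ζ (q (6 * i + 1)) :=
        FL_anti hζ (q_pos _) (q_dvd (by omega))
      have h3 : FL ζ (q (6 * (i + 1) + 1)) ≤ FL ζ (q (6 * i + 3)) :=
        FL_anti hζ (q_pos _) (q_dvd (by omega))
      rw [abs_mul, abs_of_nonneg (sub_nonneg.mpr h2)]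
      have h4 := mul_le_mul_of_nonneg_right (hx1 i) (sub_nonneg.mpr h2)
      linarith
    refine (sum_le_sum fun i _ => h1 i).trans ?_
    rw [sum_range_sub' (fun i => FL ζ (q (6 * i + 1)))]
    have h5 := FL_le_one hζ (q (6 * 0 + 1))
    have h6 := FL_nonneg (ζ := ζ) (q (6 * J + 1))
    linarith
  · push_cast
    refine sum_congr rfl fun i _ => ?_
    rw [hx2]
    unfold Kj
    rw [Lm_circle hζ, Lm_circle hζ]

end circle

end Pool.Agent.H33.Cor
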