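import Pool.Agent.H33.Cor.Disk2

set_option autoImplicit false
set_option linter.unusedSectionVars false

/-! The lower bound on the disk, end. -/

namespace Pool.Agent.H33.Cor

open Finset Filter Topology

lemma c2_norm : ‖(-(3 / 340) * Complex.I : ℂ)‖ = 3 / 340 := by
  rw [norm_mul, Complex.norm_I, mul_one, norm_neg]; norm_num

lemma c2_im (t : ℝ) : 3 / 340 ≤ ‖(-(3 / 340) * Complex.I : ℂ) - (t : ℂ) * (1 / 20)‖ := by
  refine le_trans ?_ (Complex.abs_im_le_norm _)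
  have h : ((-(3 / 340) * Complex.I : ℂ) - (t : ℂ) * (1 / 20)).im = -(3 / 340) := by
    simp
  rw [h, abs_neg, abs_of_nonneg (by norm_num)]

lemma disk_fin {z : ℂ} (hz : ‖z‖ < 1) (hz0 : z ≠ 0) (J : ℕ) :
    1 / 1000 ≤ ‖1 / 20 - phi z hz (G1 sh J (ee 0))‖ +
      ‖-(3 / 340) * Complex.I - phi z hz (G2 sh J (ee 0))‖ := by
  set σ := rot1 (z / (‖z‖ : ℂ)) with hσ
  have hrep : Rep σ := rot1_rep (unit_of hz0)
  obtain ⟨t, ht1, ht⟩ := t_real (unit_of hz0) J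
  rw [← hσ] at ht
  set g1 := phi z hz (G1 sh J (ee 0)) with hg1
  set g2 := phi z hz (G2 sh J (ee 0)) with hg2
  have e1 : g1 = ∑ j ∈ range J, phi z hz ((sh (Nn j) * Dj sh j) (ee 0)) := by
    rw [hg1]; unfold G1; rw [_root_.sum_apply, map_sum]
  have e2 : g2 = ∑ j ∈ range J, phi z hz ((sh (Nn j) * (Hj sh j * Kj sh j)) (ee 0)) := by
    rw [hg2]; unfold G2; rw [_root_.sum_apply, map_sum]
  have key : ‖g2 - t * g1‖ ≤ 1 / 2000 := by
    have h1 : g2 - t * g1 = ∑ j ∈ range J,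
        ((phi z hz ((sh (Nn j) * (Hj sh j * Kj sh j)) (ee 0)) -
          (‖z‖ : ℂ) ^ (Nn j) * (σ (Nn j) * (Hj σ j * Kj σ j))) -
        t * (phi z hz ((sh (Nn j) * Dj sh j) (ee 0)) -
          (‖z‖ : ℂ) ^ (Nn j) * (σ (Nn j) * Dj σ j)) +
        (‖z‖ : ℂ) ^ (Nn j) * (σ (Nn j) * (Hj σ j * Kj σ j - t * Dj σ j))) := by
      rw [e1, e2, mul_sum, ← sum_sub_distrib]
      exact sum_congr rfl fun j _ => by ring
    rw [h1]
    refine (norm_sum_le _ _).trans ?_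
    refine (sum_le_sum (g := fun j => 7 * (1 / 2 : ℝ) ^ (90 + j)) fun j hj => ?_).trans ?_
    · have a1 := cmpK hz hz0 j
      have a2 := cmpD hz hz0 j
      have a3 := hrep.disk_est (mem_range.mp hj)
      rw [← hσ] at a1 a2
      rw [ht] at a3
      have b1 : ‖(t : ℂ) * (phi z hz ((sh (Nn j) * Dj sh j) (ee 0)) -
          (‖z‖ : ℂ) ^ (Nn j) * (σ (Nn j) * Dj σ j))‖ ≤ 2 * (1 / 2 : ℝ) ^ (90 + j) := by
        rw [norm_mul, Complex.norm_real, Real.norm_eq_abs]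
        calc _ ≤ 1 * (2 * (1 / 2 : ℝ) ^ (90 + j)) :=
              mul_le_mul ht1 a2 (norm_nonneg _) zero_le_one
          _ = _ := one_mul _
      have b2 : ‖(‖z‖ : ℂ) ^ (Nn j) * (σ (Nn j) * (Hj σ j * Kj σ j - t * Dj σ j))‖ ≤
          3 * (1 / 2 : ℝ) ^ (90 + j) := by
        rw [norm_mul, norm_mul, norm_pow, Complex.norm_real, norm_norm]
        have c1 : ‖z‖ ^ (Nn j) ≤ 1 := pow_le_one₀ (norm_nonneg _) hz.le
        have c2 : ‖σ (Nn j)‖ ≤ 1 := hrep.norm _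
        have c3 : ‖σ (Nn j)‖ * ‖Hj σ j * Kj σ j - t * Dj σ j‖ ≤
            1 * (3 * (1 / 2 : ℝ) ^ (90 + j)) := mul_le_mul c2 a3 (norm_nonneg _) zero_le_one
        calc _ ≤ 1 * (1 * (3 * (1 / 2 : ℝ) ^ (90 + j))) :=
              mul_le_mul c1 c3 (by positivity) zero_le_one
          _ = _ := by ring
      refine (norm_add_le _ _).trans ?_
      have b3 := norm_sub_le (phi z hz ((sh (Nn j) * (Hj sh j * Kj sh j)) (ee 0)) -
          (‖z‖ : ℂ) ^ (Nn j) * (σ (Nn j) * (Hj σ j * Kj σ j)))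
        (t * (phi z hz ((sh (Nn j) * Dj sh j) (ee 0)) -
          (‖z‖ : ℂ) ^ (Nn j) * (σ (Nn j) * Dj σ j)))
      linarith
    · refine (sum_small_le hrep J 7 (by norm_num)).trans ?_
      norm_num
  have h2 := c2_im t
  have h3 : (-(3 / 340) * Complex.I : ℂ) - (t : ℂ) * (1 / 20) =
      (-(3 / 340) * Complex.I - g2) + ((g2 - t * g1) - t * (1 / 20 - g1)) := by ring
  rw [h3] at h2
  have h4 := norm_add_le (-(3 / 340) * Complex.I - g2) ((g2 - t * g1) - t * (1 / 20 - g1))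
  have h5 := norm_sub_le (g2 - t * g1) (t * (1 / 20 - g1))
  have h6 : ‖(t : ℂ) * (1 / 20 - g1)‖ ≤ ‖1 / 20 - g1‖ := by
    rw [norm_mul, Complex.norm_real, Real.norm_eq_abs]
    calc _ ≤ 1 * ‖1 / 20 - g1‖ := mul_le_mul_of_nonneg_right ht1 (norm_nonneg _)
      _ = _ := one_mul _
  linarith

lemma disk_zero (hz : ‖(0 : ℂ)‖ < 1) (J : ℕ) : phi 0 hz (G1 sh J (ee 0)) = 0 := by
  unfold G1
  rw [_root_.sum_apply, map_sum]
  refine sum_eq_zero fun j _ => ?_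
  have h1 : ∀ L : ℕ, L ≤ q (6 * j + 4) → phi 0 hz ((sh (Nn j) * Lm sh L) (ee 0)) = 0 := by
    intro L hL
    have hK := Kq_lt j
    rw [phi_Lm 0 hz (Nn j) L (by exact_mod_cast (by omega : L ≤ Nn j))]
    rw [sum_eq_zero, mul_zero]
    intro p hp
    refine sum_eq_zero fun s hs => ?_
    have h2 := mem_range.mp hp
    have h3 := mem_range.mp hs
    exact zero_zpow _ (by omega)
  unfold Dj
  rw [mul_sub, sub_apply, map_sub,
    h1 _ (Nat.le_of_dvd (q_pos _) (q_dvd (by omega))), h1 _ le_rfl, sub_zero]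

variable {𝒢₁ 𝒢₂ 𝒢ₘ 𝒟 : X →L[ℂ] X} (hL : Lims 𝒢₁ 𝒢₂ 𝒢ₘ 𝒟)

lemma eval_F {T : X →L[ℂ] X} {Tn : ℕ → X →L[ℂ] X} {z : ℂ} (hz : ‖z‖ < 1) (c : ℂ)
    (hT : ∀ u, Tendsto (fun J => Tn J u) atTop (𝓝 (T u))) :
    Tendsto (fun J => ‖c - phi z hz (Tn J (ee 0))‖) atTop
      (𝓝 ‖∑' k : ℕ, kr (c • 1 - T) (k : ℤ) * z ^ k‖) := by
  have h1 : ∑' k : ℕ, kr (c • 1 - T) (k : ℤ) * z ^ k = c - phi z hz (T (ee 0)) := by
    have h2 : ∑' k : ℕ, kr (c • 1 - T) (k : ℤ) * z ^ k = phi z hz ((c • 1 - T) (ee 0)) := rfl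
    have h3 : (c • (1 : X →L[ℂ] X) - T) (ee 0) = c • ee 0 - T (ee 0) := rfl
    rw [h2, h3, map_sub, map_smul, phi_ee z hz 0 le_rfl, zpow_zero, smul_eq_mul, mul_one]
  rw [h1]
  exact (tendsto_const_nhds.sub (((phi z hz).continuous.tendsto _).comp (hT (ee 0)))).norm

include hL in
lemma Lims.disk (z : ℂ) (hz : ‖z‖ < 1) :
    1 / 1000 ≤ ‖∑' k : ℕ, kr (F1 𝒢₁) (k : ℤ) * z ^ k‖ +
      ‖∑' k : ℕ, kr (F2 𝒢₂) (k : ℤ) * z ^ k‖ := by
  have h1 := eval_F hz (1 / 20) hL.l1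
  have h2 := eval_F hz (-(3 / 340) * Complex.I) hL.l2
  by_cases hz0 : z = 0
  · subst hz0
    have h3 : Tendsto (fun J => ‖1 / 20 - phi 0 hz (G1 sh J (ee 0))‖) atTop
        (𝓝 ‖(1 / 20 : ℂ)‖) := by
      simp only [disk_zero hz, sub_zero]
      exact tendsto_const_nhds
    have h4 := tendsto_nhds_unique h1 h3
    have h5 : ‖(1 / 20 : ℂ)‖ = 1 / 20 := by norm_num
    rw [h5] at h4
    have h6 : ‖∑' k : ℕ, kr (F1 𝒢₁) (k : ℤ) * (0 : ℂ) ^ k‖ = 1 / 20 := h4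
    have h7 := norm_nonneg (∑' k : ℕ, kr (F2 𝒢₂) (k : ℤ) * (0 : ℂ) ^ k)
    rw [h6]
    linarith
  · exact ge_of_tendsto (h1.add h2) (Eventually.of_forall fun J => disk_fin hz hz0 J)

end Pool.Agent.H33.Cor
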