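import Pool.Agent.H33.Cor.Bez

set_option autoImplicit false
set_option linter.unusedSectionVars false

/-! The contradiction. -/

namespace Pool.Agent.H33.Cor

open Finset Filter Topology

/-- the error level -/
noncomputable def et (j : ℕ) : ℝ :=
  (1 / 20 : ℝ) ^ (j + 1) + 2 * (3 * (1 / 2 : ℝ) ^ (20 + j) + Real.sqrt (1 / (j + 1)))

lemma et_nonneg (j : ℕ) : 0 ≤ et j := by unfold et; positivity

lemma et_tendsto : Tendsto et atTop (𝓝 0) := by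
  unfold et
  have h1 : Tendsto (fun j : ℕ => (1 / 20 : ℝ) ^ (j + 1)) atTop (𝓝 0) :=
    (tendsto_pow_atTop_nhds_zero_of_lt_one (by norm_num) (by norm_num)).comp (tendsto_add_atTop_nat 1)
  have h2 : Tendsto (fun j : ℕ => (1 / 2 : ℝ) ^ (20 + j)) atTop (𝓝 0) := by
    have := (tendsto_pow_atTop_nhds_zero_of_lt_one (r := (1 / 2 : ℝ)) (by norm_num)
      (by norm_num)).comp (tendsto_add_atTop_nat 20)
    refine this.congr fun j => ?_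
    simp only [Function.comp]; rw [add_comm]
  have h3 : Tendsto (fun j : ℕ => Real.sqrt (1 / ((j : ℝ) + 1))) atTop (𝓝 0) := by
    have h4 : Tendsto (fun j : ℕ => 1 / ((j : ℝ) + 1)) atTop (𝓝 0) :=
      tendsto_one_div_add_atTop_nhds_zero_nat
    have h5 := (Real.continuous_sqrt.tendsto 0).comp h4
    rw [Real.sqrt_zero] at h5
    exact h5
  have h6 := h1.add (((h2.const_mul 3).add h3).const_mul 2)
  simpa using h6

lemma lam_norm : ‖(-(3 / 17) * Complex.I : ℂ)‖ ≤ 1 := by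
  rw [norm_mul, Complex.norm_I, mul_one, norm_neg]; norm_num

variable {𝒢₁ 𝒢₂ 𝒢ₘ 𝒟 : X →L[ℂ] X} (hL : Lims 𝒢₁ 𝒢₂ 𝒢ₘ 𝒟)

include hL

lemma Lims.y1 (j : ℕ) (S : Finset ℤ) (hS : ∀ x ∈ S, x < 0) :
    ∑ x ∈ S, ‖((F1 𝒢₁) (WW j)) x‖ ^ 4 ≤ (et j * ‖UU j‖) ^ 4 := by
  have h1 := hL.UU1 j
  have h2 : ‖𝒢₁ (UU j) - (1 : ℂ) • sh (Nn j) (UU j)‖ ≤
      (3 * (1 / 2 : ℝ) ^ (20 + j) + Real.sqrt (1 / (j + 1))) * ‖UU j‖ := by
    rw [one_smul]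
    refine h1.trans (mul_le_mul_of_nonneg_right ?_ (norm_nonneg _))
    have := Real.sqrt_nonneg (1 / ((j : ℝ) + 1))
    linarith
  have h3 := FW_small hL.c1 1 (by rw [norm_one]) j _ (by positivity) h2 S hS
  have h4 : F1 𝒢₁ = ((1 : ℂ) * (1 / 20)) • (1 : X →L[ℂ] X) - 𝒢₁ := by
    unfold F1; rw [one_mul]
  rw [h4]
  exact h3

lemma Lims.y2 (j : ℕ) (S : Finset ℤ) (hS : ∀ x ∈ S, x < 0) :
    ∑ x ∈ S, ‖((F2 𝒢₂) (WW j)) x‖ ^ 4 ≤ (et j * ‖UU j‖) ^ 4 := by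
  have h3 := FW_small hL.c2 (-(3 / 17) * Complex.I) lam_norm j _ (by positivity) (hL.UU2 j) S hS
  have h4 : F2 𝒢₂ = ((-(3 / 17) * Complex.I : ℂ) * (1 / 20)) • (1 : X →L[ℂ] X) - 𝒢₂ := by
    unfold F2; congr 2; ring
  rw [h4]
  exact h3

omit hL in
lemma Com_WW {T : X →L[ℂ] X} (hT : T ∈ Com) (j : ℕ) (s : ℤ) :
    (T (WW j)) s = ∑ k ∈ Ico (-((j + 1 : ℕ) * Nn j : ℤ)) 0, WW j k * kr T (s - k) := by
  have h1 : WW j = ∑ k ∈ Ico (-((j + 1 : ℕ) * Nn j : ℤ)) 0, WW j k • ee k := by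
    ext x
    rw [sum_ee_apply]
    split_ifs with h
    · rfl
    · exact WW_sup j x h
  conv_lhs => rw [h1]
  rw [map_sum, sum_apply']
  refine sum_congr rfl fun k _ => ?_
  rw [map_smul, smul_apply', Com_ee hT]

lemma Lims.contra (g : Fin 2 → ℤ → ℂ) (hg : ∀ i, g i ∈ MM ∧ ∀ k : ℤ, k < 0 → g i k = 0)
    (hb : ∀ t : ℤ, (∑ i, ∑' k : ℤ, (![kr (F1 𝒢₁), kr (F2 𝒢₂)] : Fin 2 → ℤ → ℂ) i k *
      g i (t - k)) = if t = 0 then (1 : ℂ) else 0) : False := by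
  have ha1 : ∀ x < 0, kr (F1 𝒢₁) x = 0 := anal_lim _ hL.l1 anal_G1
  have ha2 : ∀ x < 0, kr (F2 𝒢₂) x = 0 := anal_lim _ hL.l2 anal_G2
  have hf : ∀ i, ∀ k : ℤ, k < 0 → (![kr (F1 𝒢₁), kr (F2 𝒢₂)] : Fin 2 → ℤ → ℂ) i k = 0 := by
    intro i
    fin_cases i
    · exact ha1
    · exact ha2
  have hc1 : F1 𝒢₁ ∈ Com := F_mem _ hL.c1
  have hc2 : F2 𝒢₂ ∈ Com := F_mem _ hL.c2
  obtain ⟨C₀, hC₀, hm₀⟩ := mult_bound (hg 0).1
  obtain ⟨C₁, hC₁, hm₁⟩ := mult_bound (hg 1).1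
  have key : ∀ j, 1 ≤ 8 * (C₀ + C₁) * et j ^ 4 := by
    intro j
    set M : ℤ := ((j + 1 : ℕ) * Nn j : ℤ) with hM
    set S := Ico (-M) 0 with hS
    have hSneg : ∀ x ∈ S, x < 0 := fun x hx => (mem_Ico.mp hx).2
    set y₀ : ℤ → ℂ := fun s => ((F1 𝒢₁) (WW j)) s with hy₀
    set y₁ : ℤ → ℂ := fun s => ((F2 𝒢₂) (WW j)) s with hy₁
    have h1 : ∀ n ∈ S, WW j n = ∑ s ∈ S, y₀ s * g 0 (n - s) + ∑ s ∈ S, y₁ s * g 1 (n - s) := by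
      intro n hn
      have h2 := bez_formal _ g hf (fun i => (hg i).2) hb M (fun k => WW j k) n hn
      rw [Fin.sum_univ_two] at h2
      simp only [Matrix.cons_val_zero, Matrix.cons_val_one] at h2
      rw [h2]
      congr 1
      · refine sum_congr rfl fun s _ => ?_
        rw [hy₀]; beta_reduce; rw [Com_WW hc1]
      · refine sum_congr rfl fun s _ => ?_
        rw [hy₁]; beta_reduce; rw [Com_WW hc2]
    have h2 : ∑ n ∈ S, ‖WW j n‖ ^ 4 ≤ 8 * (C₀ * ∑ s ∈ S, ‖y₀ s‖ ^ 4) +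
        8 * (C₁ * ∑ s ∈ S, ‖y₁ s‖ ^ 4) := by
      calc ∑ n ∈ S, ‖WW j n‖ ^ 4
          ≤ ∑ n ∈ S, (8 * ‖∑ s ∈ S, y₀ s * g 0 (n - s)‖ ^ 4 +
              8 * ‖∑ s ∈ S, y₁ s * g 1 (n - s)‖ ^ 4) := by
            refine sum_le_sum fun n hn => ?_
            rw [h1 n hn]
            exact four_add _ _
        _ = 8 * ∑ n ∈ S, ‖∑ s ∈ S, y₀ s * g 0 (n - s)‖ ^ 4 +
              8 * ∑ n ∈ S, ‖∑ s ∈ S, y₁ s * g 1 (n - s)‖ ^ 4 := by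
            rw [sum_add_distrib, mul_sum, mul_sum]
        _ ≤ _ := by
            have a1 := hm₀ S y₀
            have a2 := hm₁ S y₁
            linarith
    have h3 := WW_lower j
    have h4 := hL.y1 j S hSneg
    have h5 := hL.y2 j S hSneg
    have h6 : C₀ * ∑ s ∈ S, ‖y₀ s‖ ^ 4 ≤ C₀ * (et j * ‖UU j‖) ^ 4 :=
      mul_le_mul_of_nonneg_left h4 hC₀
    have h7 : C₁ * ∑ s ∈ S, ‖y₁ s‖ ^ 4 ≤ C₁ * (et j * ‖UU j‖) ^ 4 :=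
      mul_le_mul_of_nonneg_left h5 hC₁
    have h8 : ‖UU j‖ ^ 4 ≤ 8 * (C₀ + C₁) * et j ^ 4 * ‖UU j‖ ^ 4 := by
      calc ‖UU j‖ ^ 4 ≤ ∑ n ∈ S, ‖WW j n‖ ^ 4 := h3
        _ ≤ 8 * (C₀ * (et j * ‖UU j‖) ^ 4) + 8 * (C₁ * (et j * ‖UU j‖) ^ 4) := by linarith
        _ = _ := by ring
    have h9 : 0 < ‖UU j‖ ^ 4 := pow_pos (UU_pos j) 4
    by_contra hcon
    push Not at hcon
    have := mul_lt_mul_of_pos_right hcon h9
    linarith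
  have h1 : Tendsto (fun j => 8 * (C₀ + C₁) * et j ^ 4) atTop (𝓝 (8 * (C₀ + C₁) * 0 ^ 4)) :=
    (et_tendsto.pow 4).const_mul _
  rw [zero_pow (by norm_num), mul_zero] at h1
  have h2 : (1 : ℝ) ≤ 0 := ge_of_tendsto h1 (Eventually.of_forall key)
  linarith

end Pool.Agent.H33.Cor
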