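import Pool.Agent.H33.Cor.Bound

set_option autoImplicit false
set_option linter.unusedSectionVars false

/-! Decay of averages and the limit operators. -/

namespace Pool.Agent.H33.Cor

open Finset Filter Topology

lemma norm4_sum_one {ι : Type*} (s : Finset ι) (g : ι → ℤ) (hg : Set.InjOn g s) :
    ‖(∑ i ∈ s, ee (g i) : X)‖ ^ 4 = (s.card : ℝ) := by
  classical
  have h1 : (∑ i ∈ s, ee (g i) : X) = ∑ y ∈ s.image g, (1 : ℂ) • ee y := by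
    rw [sum_image hg]
    exact sum_congr rfl fun i _ => by rw [one_smul]
  rw [h1, norm4_sum_ee (s.image g) (fun _ => 1)]
  simp only [norm_one, one_pow, sum_const, nsmul_eq_mul, mul_one]
  rw [card_image_of_injOn hg]

lemma Lm_ee (L : ℕ) (hL : 0 < L) (k : ℤ) : ‖Lm sh L (ee k)‖ ^ 4 ≤ 1 / (L : ℝ) ^ 3 := by
  have hL' : (0 : ℝ) < L := by exact_mod_cast hL
  rw [sh_rep.Lm_eq, csmul_apply, norm_smul, norm_inv, norm_pow, Complex.norm_natCast,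
    mul_apply_eq_comp]
  have h1 : (∑ s ∈ range L, sh (-(s : ℤ))) (ee k) = ∑ s ∈ range L, ee (k + -(s : ℤ)) := by
    rw [_root_.sum_apply]
    exact sum_congr rfl fun s _ => sh_ee _ _
  have h2 : ‖(∑ s ∈ range L, sh (-(s : ℤ))) (ee k)‖ ^ 4 = (L : ℝ) := by
    rw [h1, norm4_sum_one, card_range]
    intro a _ b _ hab
    simpa using hab
  have h3 : ‖(∑ p ∈ range L, sh (p : ℤ)) ((∑ s ∈ range L, sh (-(s : ℤ))) (ee k))‖ ≤
      L * ‖(∑ s ∈ range L, sh (-(s : ℤ))) (ee k)‖ := by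
    rw [_root_.sum_apply]
    refine (norm_sum_le _ _).trans ?_
    simp only [sh_norm, sum_const, card_range, nsmul_eq_mul]
    exact le_rfl
  have h4 : ((L : ℝ) ^ 2)⁻¹ * ‖(∑ p ∈ range L, sh (p : ℤ)) ((∑ s ∈ range L, sh (-(s : ℤ))) (ee k))‖
      ≤ ((L : ℝ) ^ 2)⁻¹ * (L * ‖(∑ s ∈ range L, sh (-(s : ℤ))) (ee k)‖) :=
    mul_le_mul_of_nonneg_left h3 (by positivity)
  refine (pow_le_pow_left₀ (by positivity) h4 4).trans (le_of_eq ?_)
  rw [mul_pow, mul_pow, h2]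
  field_simp

lemma Lm_decay (L : ℕ) (hL : 0 < L) (s : Finset ℤ) (c : ℤ → ℂ) :
    ‖Lm sh L (∑ k ∈ s, c k • ee k)‖ ^ 4 ≤
      ((s.card : ℝ) / L) ^ 3 * ‖(∑ k ∈ s, c k • ee k : X)‖ ^ 4 := by
  have hL' : (0 : ℝ) < L := by exact_mod_cast hL
  set t : ℝ := ‖Lm sh L (ee 0)‖ with ht
  have ht4 : t ^ 4 ≤ 1 / (L : ℝ) ^ 3 := Lm_ee L hL 0
  have h0 : ∀ k, ‖Lm sh L (ee k)‖ = t := by
    intro k
    have h1 : ee k = sh k (ee 0) := by rw [sh_ee, zero_add]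
    have h2 : Lm sh L (ee k) = sh k (Lm sh L (ee 0)) := by
      rw [h1, ← mul_apply_eq_comp, ← sh_rep.comm_Lm, mul_apply_eq_comp]
    rw [h2, sh_norm]
  have h1 : ‖Lm sh L (∑ k ∈ s, c k • ee k)‖ ≤ (∑ k ∈ s, ‖c k‖) * t := by
    rw [map_sum, sum_mul]
    refine (norm_sum_le _ _).trans (le_of_eq (sum_congr rfl fun k _ => ?_))
    rw [map_smul, norm_smul, h0]
  have h2 := pow_sum_div_card_le_sum_pow (s := s) (f := fun k => ‖c k‖)
    (fun k _ => norm_nonneg _) 3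
  rw [norm4_sum_ee]
  rcases s.eq_empty_or_nonempty with rfl | hs
  · simp
  have hc : (0 : ℝ) < s.card := by exact_mod_cast hs.card_pos
  rw [div_le_iff₀ (by positivity)] at h2
  calc ‖Lm sh L (∑ k ∈ s, c k • ee k)‖ ^ 4
      ≤ ((∑ k ∈ s, ‖c k‖) * t) ^ 4 := pow_le_pow_left₀ (norm_nonneg _) h1 4
    _ = (∑ k ∈ s, ‖c k‖) ^ 4 * t ^ 4 := by ring
    _ ≤ ((∑ k ∈ s, ‖c k‖ ^ 4) * (s.card : ℝ) ^ 3) * (1 / (L : ℝ) ^ 3) :=
        mul_le_mul h2 ht4 (by positivity) (by positivity)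
    _ = _ := by field_simp

lemma q_ge (i : ℕ) : 2 ^ (20 * i) ≤ q i := by
  have h := q_gap (show i < i + 1 by omega)
  rcases Nat.eq_zero_or_pos i with rfl | hi
  · rw [mul_zero, pow_zero]; exact q_pos 0
  · have h1 := q_gap (show i - 1 < i by omega)
    refine le_trans ?_ h1
    calc 2 ^ (20 * i) ≤ 2 ^ (40 * i + 100) := Nat.pow_le_pow_right (by norm_num) (by omega)
      _ = 2 ^ (40 * i + 100) * 1 := by ring
      _ ≤ _ := Nat.mul_le_mul_left _ (q_pos _)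

lemma Lm_q_ee (i : ℕ) (k : ℤ) : ‖Lm sh (q i) (ee k)‖ ≤ (1 / 2 : ℝ) ^ i := by
  refine norm_le_of_four (by positivity) ((Lm_ee _ (q_pos i) k).trans ?_)
  have h1 : ((2 ^ (20 * i) : ℕ) : ℝ) ≤ (q i : ℝ) := by exact_mod_cast q_ge i
  push_cast at h1
  rw [one_div, one_div, inv_pow, inv_pow, ← inv_pow]
  rw [inv_pow]
  refine inv_anti₀ (by positivity) ?_
  calc ((2 : ℝ) ^ i) ^ 4 = 2 ^ (4 * i) := by rw [← pow_mul, mul_comm]
    _ ≤ 2 ^ (20 * i * 3) := pow_le_pow_right₀ (by norm_num) (by omega)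
    _ = (2 ^ (20 * i)) ^ 3 := by rw [pow_mul]
    _ ≤ (q i : ℝ) ^ 3 := pow_le_pow_left₀ (by positivity) h1 3

lemma Dj_ee (j : ℕ) (k : ℤ) : ‖Dj sh j (ee k)‖ ≤ 2 * (1 / 2 : ℝ) ^ j := by
  have h : Dj sh j (ee k) = Lm sh (q (6 * j)) (ee k) - Lm sh (q (6 * j + 4)) (ee k) := rfl
  rw [h]
  refine (norm_sub_le _ _).trans ?_
  have h1 := Lm_q_ee (6 * j) k
  have h2 := Lm_q_ee (6 * j + 4) k
  have h3 : (1 / 2 : ℝ) ^ (6 * j) ≤ (1 / 2 : ℝ) ^ j :=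
    pow_le_pow_of_le_one (by norm_num) (by norm_num) (by omega)
  have h4 : (1 / 2 : ℝ) ^ (6 * j + 4) ≤ (1 / 2 : ℝ) ^ j :=
    pow_le_pow_of_le_one (by norm_num) (by norm_num) (by omega)
  linarith

lemma Kj_ee (j : ℕ) (k : ℤ) : ‖Kj sh j (ee k)‖ ≤ 2 * (1 / 2 : ℝ) ^ j := by
  have h : Kj sh j (ee k) = Lm sh (q (6 * j + 1)) (ee k) - Lm sh (q (6 * j + 3)) (ee k) := rfl
  rw [h]
  refine (norm_sub_le _ _).trans ?_
  have h1 := Lm_q_ee (6 * j + 1) k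
  have h2 := Lm_q_ee (6 * j + 3) k
  have h3 : (1 / 2 : ℝ) ^ (6 * j + 1) ≤ (1 / 2 : ℝ) ^ j :=
    pow_le_pow_of_le_one (by norm_num) (by norm_num) (by omega)
  have h4 : (1 / 2 : ℝ) ^ (6 * j + 3) ≤ (1 / 2 : ℝ) ^ j :=
    pow_le_pow_of_le_one (by norm_num) (by norm_num) (by omega)
  linarith

lemma cauchy_of (P : ℕ → X →L[ℂ] X) (k : ℤ) (h : ∀ j, ‖P j (ee k)‖ ≤ 2 * (1 / 2 : ℝ) ^ j) :
    CauchySeq fun J => (∑ j ∈ range J, P j) (ee k) := by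
  refine cauchySeq_of_le_geometric (1 / 2) 2 (by norm_num) fun J => ?_
  rw [dist_comm, dist_eq_norm, sum_range_succ]
  have h1 : (∑ j ∈ range J, P j + P J) (ee k) - (∑ j ∈ range J, P j) (ee k) = P J (ee k) := by
    rw [add_apply]; abel
  rw [h1]
  exact h J

lemma G1_cauchy (k : ℤ) : CauchySeq fun J => G1 sh J (ee k) := by
  unfold G1
  refine cauchy_of _ k fun j => ?_
  rw [mul_apply_eq_comp, sh_norm]
  exact Dj_ee j k

lemma G1m_cauchy (k : ℤ) : CauchySeq fun J => G1m sh J (ee k) := by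
  unfold G1m
  refine cauchy_of _ k fun j => ?_
  rw [mul_apply_eq_comp, sh_norm]
  exact Dj_ee j k

lemma DD_cauchy (k : ℤ) : CauchySeq fun J => DD sh J (ee k) := by
  unfold DD
  exact cauchy_of _ k fun j => Dj_ee j k

lemma G2_cauchy (k : ℤ) : CauchySeq fun J => G2 sh J (ee k) := by
  unfold G2
  refine cauchy_of _ k fun j => ?_
  rw [mul_apply_eq_comp, sh_norm, mul_apply_eq_comp]
  have h1 := (Hj sh j).le_opNorm (Kj sh j (ee k))
  have h2 := mul_le_mul_of_nonneg_right (sh_rep.Hj_norm j) (norm_nonneg (Kj sh j (ee k)))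
  have h3 := Kj_ee j k
  linarith

/-- all the limit operators at once -/
lemma exists_limits : ∃ 𝒢₁ 𝒢₂ 𝒢ₘ 𝒟 : X →L[ℂ] X,
    (‖𝒢₁‖ ≤ 11 ∧ ∀ u, Tendsto (fun J => G1 sh J u) atTop (𝓝 (𝒢₁ u))) ∧
    (‖𝒢₂‖ ≤ 11 ∧ ∀ u, Tendsto (fun J => G2 sh J u) atTop (𝓝 (𝒢₂ u))) ∧
    (‖𝒢ₘ‖ ≤ 11 ∧ ∀ u, Tendsto (fun J => G1m sh J u) atTop (𝓝 (𝒢ₘ u))) ∧
    (‖𝒟‖ ≤ 11 ∧ ∀ u, Tendsto (fun J => DD sh J u) atTop (𝓝 (𝒟 u))) := by
  obtain ⟨a, ha⟩ := strong_limit (G1 sh) 11 (by norm_num) G1_norm G1_cauchy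
  obtain ⟨b, hb⟩ := strong_limit (G2 sh) 11 (by norm_num) G2_norm G2_cauchy
  obtain ⟨c, hc⟩ := strong_limit (G1m sh) 11 (by norm_num) G1m_norm G1m_cauchy
  obtain ⟨d, hd⟩ := strong_limit (DD sh) 11 (by norm_num) DD_norm DD_cauchy
  exact ⟨a, b, c, d, ha, hb, hc, hd⟩

/-- products of strong limits -/
lemma tendsto_mul_strong {T R : ℕ → X →L[ℂ] X} {T' R' : X →L[ℂ] X} {C : ℝ}
    (hT : ∀ J, ‖T J‖ ≤ C) (h1 : ∀ u, Tendsto (fun J => T J u) atTop (𝓝 (T' u)))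
    (h2 : ∀ u, Tendsto (fun J => R J u) atTop (𝓝 (R' u))) (u : X) :
    Tendsto (fun J => (T J * R J) u) atTop (𝓝 ((T' * R') u)) := by
  have h3 : Tendsto (fun J => T J (R J u - R' u)) atTop (𝓝 0) := by
    have h4 : Tendsto (fun J => C * ‖R J u - R' u‖) atTop (𝓝 0) := by
      have h5 : Tendsto (fun J => ‖R J u - R' u‖) atTop (𝓝 0) := by
        rw [← tendsto_iff_norm_sub_tendsto_zero]; exact h2 u
      simpa using h5.const_mul C
    refine squeeze_zero_norm (fun J => ?_) h4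
    exact ((T J).le_opNorm _).trans (mul_le_mul_of_nonneg_right (hT J) (norm_nonneg _))
  have h4 := h3.add (h1 (R' u))
  have h5 : (fun J => (T J * R J) u) = fun J => T J (R J u - R' u) + T J (R' u) := by
    funext J
    rw [mul_apply_eq_comp, map_sub, sub_add_cancel]
  rw [h5, mul_apply_eq_comp]
  simpa using h4

lemma norm_le_of_strong {T : ℕ → X →L[ℂ] X} {T' : X →L[ℂ] X} {C : ℝ} (hC : 0 ≤ C)
    (hT : ∀ J, ‖T J‖ ≤ C) (h1 : ∀ u, Tendsto (fun J => T J u) atTop (𝓝 (T' u))) :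
    ‖T'‖ ≤ C := by
  refine T'.opNorm_le_bound hC fun u => ?_
  exact le_of_tendsto (h1 u).norm (Eventually.of_forall fun J =>
    ((T J).le_opNorm u).trans (mul_le_mul_of_nonneg_right (hT J) (norm_nonneg u)))

lemma comm_of_strong {T : ℕ → X →L[ℂ] X} {T' : X →L[ℂ] X} (n : ℤ)
    (hT : ∀ J, sh n * T J = T J * sh n)
    (h1 : ∀ u, Tendsto (fun J => T J u) atTop (𝓝 (T' u))) : sh n * T' = T' * sh n := by
  ext1 u
  rw [mul_apply_eq_comp, mul_apply_eq_comp]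
  have h2 := h1 (sh n u)
  have h3 := ((sh n).continuous.tendsto _).comp (h1 u)
  have h4 : (fun J => T J (sh n u)) = (sh n) ∘ fun J => T J u := by
    funext J
    have := congrArg (fun S : X →L[ℂ] X => S u) (hT J)
    simp only [mul_apply_eq_comp] at this
    exact this.symm
  rw [h4] at h2
  exact tendsto_nhds_unique h3 h2

end Pool.Agent.H33.Cor
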