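import Pool.Agent.H33.Cor.Trans

set_option autoImplicit false
set_option linter.unusedSectionVars false

/-! The translation lemma on `ℤ`. -/

namespace Pool.Agent.H33.Cor

open Finset

/-- the translation invariant average on `ℤ` -/
noncomputable def LamZ (L : ℕ) (u : ℤ → ℂ) (x : ℤ) : ℂ :=
  ((L : ℝ) ^ 2)⁻¹ • ∑ p ∈ range L, ∑ s ∈ range L, u (x - p + s)

lemma eval_cast {M K W : ℕ} [NeZero M] (hW : W + K < M) (hK : 2 * K < M) {u : ℤ → ℂ}
    (hu : ∀ x : ℤ, (K : ℤ) < |x| → u x = 0) {z : ℤ} (hz : |z| ≤ W) :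
    u ((z : ZMod M).valMinAbs) = u z := by
  set w := ((z : ZMod M)).valMinAbs with hw
  have h1 : ((w : ℤ) : ZMod M) = (z : ZMod M) := by rw [hw, ZMod.coe_valMinAbs]
  have h2 : (M : ℤ) ∣ z - w := (ZMod.intCast_eq_intCast_iff_dvd_sub _ _ _).mp h1
  have h3 : w * 2 ∈ Set.Ioc (-(M : ℤ)) M := ZMod.valMinAbs_mem_Ioc _
  obtain ⟨h3a, h3b⟩ := h3
  by_cases hwz : w = z
  · rw [hwz]
  · have h4 : (M : ℤ) ≤ |z - w| := by
      apply Int.le_of_dvd
      · exact abs_pos.mpr (sub_ne_zero.mpr (Ne.symm hwz))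
      · exact (dvd_abs _ _).mpr h2
    have h5 : (K : ℤ) < |w| := by
      have : |z - w| ≤ |z| + |w| := abs_sub _ _
      have : (W : ℤ) + K < M := by exact_mod_cast hW
      linarith
    have h6 : (K : ℤ) < |z| := by
      have h7 : |z - w| ≤ |z| + |w| := abs_sub _ _
      have h8 : |w| * 2 ≤ M := by
        rcases abs_cases w with ⟨h, _⟩ | ⟨h, _⟩ <;> rw [h] <;> linarith
      have : 2 * (K : ℤ) < M := by exact_mod_cast hK
      linarith
    rw [hu w h5, hu z h6]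

theorem line_bound {A B ρ : ℕ → ℕ} (hS : Scales A B ρ) (r : ℕ → ℕ) (hAr : ∀ j, A j ∣ r j)
    (hrρ : ∀ j, r j ≤ ρ j) (J : ℕ)
    (hsum : ∑ j ∈ range J, (8 : ℝ) ^ (j + 1) * ((ρ j : ℝ) / A (j + 1)) ≤ 1)
    (K : ℕ) (u : ℤ → ℂ) (hu : ∀ x : ℤ, (K : ℤ) < |x| → u x = 0) (F : Finset ℤ) :
    ∑ x ∈ F, ‖∑ j ∈ range J, (LamZ (A j) u (x - r j) - LamZ (B j) u (x - r j))‖ ^ 4 ≤
      12416 * ∑ x ∈ Icc (-(K : ℤ)) K, ‖u x‖ ^ 4 := by
  set W : ℕ := ∑ x ∈ F, x.natAbs + ∑ j ∈ range J, (r j + A j + B j) with hWdef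
  set m : ℕ := 2 * W + 2 * K + 2 with hm
  have hAJ : 0 < A J := hS.hA0 J
  have hMm : m ≤ A J * m := Nat.le_mul_of_pos_left _ hAJ
  have : NeZero (A J * m) := ⟨by positivity⟩
  have hWK : W + K < A J * m := by omega
  have h2K : 2 * K < A J * m := by omega
  have hFW : ∀ x ∈ F, |x| ≤ (∑ x ∈ F, x.natAbs : ℕ) := by
    intro x hx
    rw [Int.abs_eq_natAbs]
    exact_mod_cast single_le_sum (f := fun x : ℤ => x.natAbs) (fun _ _ => Nat.zero_le _) hx
  have hjW : ∀ j ∈ range J, r j + A j + B j ≤ ∑ j ∈ range J, (r j + A j + B j) := by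
    intro j hj
    exact single_le_sum (f := fun j => r j + A j + B j) (fun _ _ => Nat.zero_le _) hj
  set v : ZMod (A J * m) → ℂ := fun y => u y.valMinAbs with hv
  have hval : ∀ x ∈ F, ∀ j ∈ range J, ∀ L : ℕ, L ≤ A j + B j →
      Lam L v ((x : ZMod (A J * m)) - (r j : ZMod (A J * m))) = LamZ L u (x - r j) := by
    intro x hx j hj L hL
    unfold Lam LamZ
    congr 1
    refine sum_congr rfl fun p hp => sum_congr rfl fun s hs => ?_
    have h1 : (x : ZMod (A J * m)) - (r j : ZMod (A J * m)) - (p : ZMod (A J * m)) +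
        (s : ZMod (A J * m)) = ((x - r j - p + s : ℤ) : ZMod (A J * m)) := by push_cast; ring
    rw [h1]
    simp only [hv]
    refine eval_cast hWK h2K hu ?_
    have h2 := hFW x hx
    have h3 := hjW j hj
    have h4 := mem_range.mp hp
    have h5 := mem_range.mp hs
    rw [abs_le] at h2 ⊢
    rw [hWdef]
    push_cast at h2 ⊢
    zify at h3 h4 h5 hL
    constructor <;> linarith [h2.1, h2.2]
  obtain ⟨G, hG⟩ : ∃ G : ZMod (A J * m) → ℝ, G = fun y => ‖∑ j ∈ range J,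
    (Lam (A j) v (y - (r j : ZMod (A J * m))) - Lam (B j) v (y - (r j : ZMod (A J * m))))‖ ^ 4 :=
    ⟨_, rfl⟩
  have h1 : ∑ x ∈ F, ‖∑ j ∈ range J, (LamZ (A j) u (x - r j) - LamZ (B j) u (x - r j))‖ ^ 4 =
      ∑ x ∈ F, G ((x : ZMod (A J * m))) := by
    refine sum_congr rfl fun x hx => ?_
    rw [hG]
    beta_reduce
    congr 2
    refine sum_congr rfl fun j hj => ?_
    rw [hval x hx j hj (A j) (by omega), hval x hx j hj (B j) (by omega)]
  have hinj : Set.InjOn (fun x : ℤ => (x : ZMod (A J * m))) F := by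
    intro x hx y hy hxy
    have h2 : ((A J * m : ℕ) : ℤ) ∣ y - x := (ZMod.intCast_eq_intCast_iff_dvd_sub _ _ _).mp hxy
    by_contra hne
    have h4 : ((A J * m : ℕ) : ℤ) ≤ |y - x| := by
      apply Int.le_of_dvd
      · exact abs_pos.mpr (sub_ne_zero.mpr (Ne.symm hne))
      · exact (dvd_abs _ _).mpr h2
    have h5 : |y - x| ≤ |y| + |x| := abs_sub _ _
    have h6 := hFW x hx
    have h7 := hFW y hy
    have h8 : (m : ℤ) ≤ ((A J * m : ℕ) : ℤ) := by exact_mod_cast hMm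
    have h9 : (m : ℤ) = 2 * W + 2 * K + 2 := by rw [hm]; push_cast; ring
    have h10 : ((∑ x ∈ F, x.natAbs : ℕ) : ℤ) ≤ W := by
      rw [hWdef]; push_cast; linarith [sum_nonneg (s := range J)
        (f := fun j => ((r j : ℤ) + A j + B j)) (fun j _ => by positivity)]
    have h11 : (0 : ℤ) ≤ K := by positivity
    linarith
  rw [h1, ← sum_image (f := G) hinj]
  refine (sum_le_univ_sum_of_nonneg fun y => by rw [hG]; positivity).trans ?_
  rw [hG]
  refine (cyc_bound hS r hAr hrρ J (Dvd.intro _ rfl) hsum v).trans ?_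
  refine mul_le_mul_of_nonneg_left ?_ (by norm_num)
  simp only [hv]
  rw [← sum_image (s := univ) (g := fun y : ZMod (A J * m) => y.valMinAbs)
    (f := fun x : ℤ => ‖u x‖ ^ 4) (fun _ _ _ _ h => ZMod.injective_valMinAbs h)]
  have h3 : ∑ x ∈ image (fun y : ZMod (A J * m) => y.valMinAbs) univ, ‖u x‖ ^ 4 =
      ∑ x ∈ (image (fun y : ZMod (A J * m) => y.valMinAbs) univ) ∩ Icc (-(K : ℤ)) K,
        ‖u x‖ ^ 4 := by
    symm
    refine sum_subset inter_subset_left fun x hx hx' => ?_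
    have h4 : x ∉ Icc (-(K : ℤ)) K := fun h => hx' (mem_inter.mpr ⟨hx, h⟩)
    rw [mem_Icc, ← abs_le, not_le] at h4
    rw [hu x h4]; simp
  rw [h3]
  exact sum_le_sum_of_subset_of_nonneg inter_subset_right fun _ _ _ => by positivity

end Pool.Agent.H33.Cor
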