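import Pool.Agent.H33.Cor.Avg

set_option autoImplicit false

/-! A fourth moment inequality for reversed martingales on a finite set. -/

namespace Pool.Agent.H33.Cor

open Finset

section comb

lemma sq_sum_le_aux (s : ℕ → ℝ) (hs : ∀ j, 0 ≤ s j) (J : ℕ) :
    (∑ j ∈ range J, s j) ^ 2 ≤ 2 * ∑ j ∈ range J, s j * ∑ i ∈ range (j + 1), s i := by
  induction J with
  | zero => simp
  | succ J ih =>
      have h1 : 0 ≤ ∑ j ∈ range J, s j := sum_nonneg fun j _ => hs j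
      rw [sum_range_succ, sum_range_succ (fun j => s j * ∑ i ∈ range (j + 1), s i),
        sum_range_succ s J]
      nlinarith [hs J, mul_nonneg h1 (hs J), sq_nonneg (s J)]

lemma sq_sum_eq_aux (s : ℕ → ℝ) (J : ℕ) :
    (∑ j ∈ range J, s j) ^ 2 =
      ∑ j ∈ range J, s j ^ 2 + 2 * ∑ j ∈ range J, s j * ∑ i ∈ range j, s i := by
  induction J with
  | zero => simp
  | succ J ih =>
      rw [sum_range_succ, sum_range_succ (fun j => s j ^ 2),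
        sum_range_succ (fun j => s j * ∑ i ∈ range j, s i)]
      linear_combination ih

lemma four_expand (m e : ℂ) :
    ‖m + e‖ ^ 4 ≤ ‖m‖ ^ 4 + 4 * (((‖m‖ ^ 2 : ℝ) : ℂ) * (starRingEnd ℂ) m * e).re
      + 8 * (‖m‖ ^ 2 * ‖e‖ ^ 2) + 3 * ‖e‖ ^ 4 := by
  have h1 : ‖m + e‖ ^ 2 = ‖m‖ ^ 2 + 2 * ((starRingEnd ℂ) m * e).re + ‖e‖ ^ 2 := by
    rw [← Complex.normSq_eq_norm_sq, ← Complex.normSq_eq_norm_sq, ← Complex.normSq_eq_norm_sq,
      Complex.normSq_apply, Complex.normSq_apply, Complex.normSq_apply]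
    simp
    ring
  have h2 : |((starRingEnd ℂ) m * e).re| ≤ ‖m‖ * ‖e‖ := by
    refine (Complex.abs_re_le_norm _).trans ?_
    rw [norm_mul, RCLike.norm_conj]
  have h3 : (((‖m‖ ^ 2 : ℝ) : ℂ) * (starRingEnd ℂ) m * e).re
      = ‖m‖ ^ 2 * ((starRingEnd ℂ) m * e).re := by
    rw [mul_assoc, Complex.re_ofReal_mul]
  rw [h3]
  set r := ((starRingEnd ℂ) m * e).re with hr
  have h4 : ‖m + e‖ ^ 4 = (‖m‖ ^ 2 + 2 * r + ‖e‖ ^ 2) ^ 2 := by rw [← h1]; ring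
  rw [h4]
  have h5 : r ^ 2 ≤ ‖m‖ ^ 2 * ‖e‖ ^ 2 := by
    have := sq_le_sq' (by linarith [(abs_le.mp h2).1]) (abs_le.mp h2).2
    nlinarith [this]
  have h6 : r ≤ ‖m‖ * ‖e‖ := (abs_le.mp h2).2
  have hm := norm_nonneg m
  have he := norm_nonneg e
  have h7 : 4 * r * ‖e‖ ^ 2 ≤ 2 * (‖m‖ ^ 2 * ‖e‖ ^ 2) + 2 * ‖e‖ ^ 4 := by
    have h8 : 4 * r * ‖e‖ ^ 2 ≤ 4 * (‖m‖ * ‖e‖) * ‖e‖ ^ 2 :=
      mul_le_mul_of_nonneg_right (by linarith) (by positivity)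
    nlinarith [mul_nonneg (sq_nonneg ‖e‖) (sq_nonneg (‖m‖ - ‖e‖))]
  nlinarith [h5, h7]

end comb

section mart

variable {α : Type*} [Fintype α]

variable {π : ℕ → α → ℕ} (hn : ∀ j x y, π j x = π j y → π (j + 1) x = π (j + 1) y)

omit [Fintype α] in
include hn in
lemma nested {i j : ℕ} (h : i ≤ j) {x y : α} (hxy : π i x = π i y) : π j x = π j y := by
  induction j, h using Nat.le_induction with
  | base => exact hxy
  | succ j _ ih => exact hn _ _ _ ih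

/-- the differences -/
noncomputable def Df (π : ℕ → α → ℕ) (u : α → ℂ) (j : ℕ) (x : α) : ℂ :=
  Av (π j) u x - Av (π (j + 1)) u x

include hn in
lemma Df_label (u : α → ℂ) (j : ℕ) {x y : α} (h : π j x = π j y) :
    Df π u j x = Df π u j y := by
  unfold Df
  rw [Av_congr_label _ h, Av_congr_label _ (hn _ _ _ h)]

include hn in
lemma pyth (u : α → ℂ) (j : ℕ) (ψ : α → ℝ)
    (hψ : ∀ x y, π (j + 1) x = π (j + 1) y → ψ x = ψ y) :
    ∑ x, ψ x * ‖Df π u j x‖ ^ 2 =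
      ∑ x, ψ x * ‖Av (π j) u x‖ ^ 2 - ∑ x, ψ x * ‖Av (π (j + 1)) u x‖ ^ 2 := by
  have h1 : ∑ x, ((ψ x : ℂ) * (starRingEnd ℂ) (Av (π (j + 1)) u x)) * Av (π j) u x =
      ∑ x, ((ψ x : ℂ) * (starRingEnd ℂ) (Av (π (j + 1)) u x)) * Av (π (j + 1)) u x := by
    rw [← sum_mul_Av (π (j + 1)) (ψ := fun x => (ψ x : ℂ) *
      (starRingEnd ℂ) (Av (π (j + 1)) u x)) (f := Av (π j) u)]
    · refine sum_congr rfl fun x _ => ?_
      rw [Av_Av (hn j)]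
    · intro x y hxy
      rw [hψ x y hxy, Av_congr_label _ hxy]
  have h2 := congrArg Complex.re h1
  simp only [Complex.re_sum] at h2
  have h3 : ∀ x, (((ψ x : ℂ) * (starRingEnd ℂ) (Av (π (j + 1)) u x)) *
      Av (π (j + 1)) u x).re = ψ x * ‖Av (π (j + 1)) u x‖ ^ 2 := by
    intro x
    rw [mul_assoc, Complex.re_ofReal_mul, mul_comm ((starRingEnd ℂ) _), Complex.mul_conj,
      Complex.ofReal_re, Complex.normSq_eq_norm_sq]
  have h4 : ∀ x, ψ x * ‖Df π u j x‖ ^ 2 = ψ x * ‖Av (π j) u x‖ ^ 2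
      - 2 * (((ψ x : ℂ) * (starRingEnd ℂ) (Av (π (j + 1)) u x)) * Av (π j) u x).re
      + ψ x * ‖Av (π (j + 1)) u x‖ ^ 2 := by
    intro x
    unfold Df
    rw [mul_assoc, Complex.re_ofReal_mul, ← Complex.normSq_eq_norm_sq,
      ← Complex.normSq_eq_norm_sq, ← Complex.normSq_eq_norm_sq, Complex.normSq_apply,
      Complex.normSq_apply, Complex.normSq_apply]
    simp
    ring
  simp only [h4, h3, sum_add_distrib, sum_sub_distrib, ← mul_sum] at h2 ⊢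
  linarith

include hn in
lemma key_claim (u : α → ℂ) (i : ℕ) (ψ : α → ℝ) (h0 : ∀ x, 0 ≤ ψ x)
    (hψ : ∀ x y, π i x = π i y → ψ x = ψ y) :
    ∑ j ∈ range i, ∑ x, ψ x * ‖Df π u j x‖ ^ 2 ≤ ∑ x, ψ x * ‖u x‖ ^ 2 := by
  have h1 : ∀ j ∈ range i, ∑ x, ψ x * ‖Df π u j x‖ ^ 2 =
      ∑ x, ψ x * ‖Av (π j) u x‖ ^ 2 - ∑ x, ψ x * ‖Av (π (j + 1)) u x‖ ^ 2 := by
    intro j hj
    refine pyth hn u j ψ fun x y hxy => hψ x y (nested hn ?_ hxy)
    have := mem_range.mp hj; omega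
  rw [sum_congr rfl h1, sum_range_sub' (fun j => ∑ x, ψ x * ‖Av (π j) u x‖ ^ 2)]
  have h2 : 0 ≤ ∑ x, ψ x * ‖Av (π i) u x‖ ^ 2 :=
    sum_nonneg fun x _ => mul_nonneg (h0 x) (by positivity)
  have h3 : ∑ x, ψ x * ‖Av (π 0) u x‖ ^ 2 ≤ ∑ x, ψ x * ‖u x‖ ^ 2 := by
    rw [← sum_mul_Av (π 0) (ψ := ψ) (f := fun y => ‖u y‖ ^ 2)
      (fun x y hxy => hψ x y (nested hn (Nat.zero_le _) hxy))]
    exact sum_le_sum fun x _ => mul_le_mul_of_nonneg_left (norm_sq_Av_le _ _ _) (h0 x)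
  linarith

/-- the conditional variances -/
noncomputable def sg (π : ℕ → α → ℕ) (u : α → ℂ) (j : ℕ) (x : α) : ℝ :=
  Av (π (j + 1)) (fun y => ‖Df π u j y‖ ^ 2) x

lemma sg_nonneg (u : α → ℂ) (j : ℕ) (x : α) : 0 ≤ sg π u j x :=
  Av_nonneg _ (fun _ => by positivity) x

lemma sg_label (u : α → ℂ) (j : ℕ) {x y : α} (h : π (j + 1) x = π (j + 1) y) :
    sg π u j x = sg π u j y := Av_congr_label _ h

include hn in
lemma S2_le (u : α → ℂ) (J : ℕ) :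
    ∑ x, (∑ j ∈ range J, sg π u j x) ^ 2 ≤ 2 * ∑ x, ‖u x‖ ^ 2 * ∑ j ∈ range J, sg π u j x := by
  have h1 : ∑ x, (∑ j ∈ range J, sg π u j x) ^ 2 ≤
      ∑ x, 2 * ∑ j ∈ range J, sg π u j x * ∑ i ∈ range (j + 1), sg π u i x :=
    sum_le_sum fun x _ => sq_sum_le_aux _ (fun j => sg_nonneg u j x) J
  refine h1.trans ?_
  rw [← mul_sum]
  refine mul_le_mul_of_nonneg_left ?_ (by norm_num)
  rw [sum_comm]
  have h2 : ∑ x, ‖u x‖ ^ 2 * ∑ j ∈ range J, sg π u j x =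
      ∑ j ∈ range J, ∑ x, sg π u j x * ‖u x‖ ^ 2 := by
    simp only [mul_sum]
    rw [sum_comm]
    exact sum_congr rfl fun j _ => sum_congr rfl fun x _ => mul_comm _ _
  rw [h2]
  refine sum_le_sum fun j _ => ?_
  have h3 : ∑ x, sg π u j x * ∑ i ∈ range (j + 1), sg π u i x =
      ∑ i ∈ range (j + 1), ∑ x, sg π u j x * ‖Df π u i x‖ ^ 2 := by
    simp only [mul_sum]
    rw [sum_comm]
    refine sum_congr rfl fun i hi => ?_
    refine sum_mul_Av (π (i + 1)) (ψ := sg π u j) (f := fun y => ‖Df π u i y‖ ^ 2) ?_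
    intro x y hxy
    exact sg_label u j (nested hn (by have := mem_range.mp hi; omega) hxy)
  rw [h3]
  exact key_claim hn u (j + 1) (sg π u j) (sg_nonneg u j) fun x y hxy => sg_label u j hxy

include hn in
lemma SB_le (u : α → ℂ) (J : ℕ) :
    ∑ x, ‖u x‖ ^ 2 * ∑ j ∈ range J, sg π u j x ≤ 2 * ∑ x, ‖u x‖ ^ 4 ∧
    ∑ x, (∑ j ∈ range J, sg π u j x) ^ 2 ≤ 4 * ∑ x, ‖u x‖ ^ 4 := by
  have h1 := S2_le hn u J
  have h2 := sum_mul_sq_le_sq_mul_sq univ (fun x => ‖u x‖ ^ 2)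
    (fun x => ∑ j ∈ range J, sg π u j x)
  have h3 : ∑ x, (‖u x‖ ^ 2) ^ 2 = ∑ x, ‖u x‖ ^ 4 := sum_congr rfl fun x _ => by ring
  rw [h3] at h2
  set P := ∑ x, ‖u x‖ ^ 4
  set B := ∑ x, ‖u x‖ ^ 2 * ∑ j ∈ range J, sg π u j x
  set s2 := ∑ x, (∑ j ∈ range J, sg π u j x) ^ 2
  have hP : 0 ≤ P := sum_nonneg fun x _ => by positivity
  have hB : 0 ≤ B := sum_nonneg fun x _ => mul_nonneg (by positivity)
    (sum_nonneg fun j _ => sg_nonneg u j x)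
  have hB2 : B ≤ 2 * P := by
    by_contra hcon
    push Not at hcon
    have h4 : B ^ 2 ≤ P * (2 * B) := h2.trans (mul_le_mul_of_nonneg_left h1 hP)
    nlinarith
  exact ⟨hB2, by linarith⟩

include hn in
lemma AT_le (u : α → ℂ) (J : ℕ) :
    ∑ j ∈ range J, ∑ x, ‖Df π u j x‖ ^ 4 ≤ 14 * ∑ x, ‖u x‖ ^ 4 := by
  obtain ⟨hB, -⟩ := SB_le hn u J
  set P := ∑ x, ‖u x‖ ^ 4 with hPdef
  set B := ∑ x, ‖u x‖ ^ 2 * ∑ j ∈ range J, sg π u j x with hBdef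
  set t := ∑ j ∈ range J, ∑ x, ‖Df π u j x‖ ^ 4 with htdef
  set A := ∑ x, ‖u x‖ ^ 2 * ∑ j ∈ range J, ‖Df π u j x‖ ^ 2 with hAdef
  have hP : 0 ≤ P := sum_nonneg fun x _ => by positivity
  have hA0 : 0 ≤ A := sum_nonneg fun x _ => mul_nonneg (by positivity)
    (sum_nonneg fun j _ => by positivity)
  have hA' : A = ∑ j ∈ range J, ∑ x, ‖Df π u j x‖ ^ 2 * ‖u x‖ ^ 2 := by
    rw [hAdef]
    simp only [mul_sum]
    rw [sum_comm]
    exact sum_congr rfl fun j _ => sum_congr rfl fun x _ => mul_comm _ _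
  have hB' : B = ∑ j ∈ range J, ∑ x, sg π u j x * ‖u x‖ ^ 2 := by
    rw [hBdef]
    simp only [mul_sum]
    rw [sum_comm]
    exact sum_congr rfl fun j _ => sum_congr rfl fun x _ => mul_comm _ _
  -- the square of the square function
  have hq : ∑ x, (∑ j ∈ range J, ‖Df π u j x‖ ^ 2) ^ 2 ≤ t + 2 * A := by
    have h1 : ∑ x, (∑ j ∈ range J, ‖Df π u j x‖ ^ 2) ^ 2 =
        t + 2 * ∑ j ∈ range J, ∑ i ∈ range j, ∑ x, ‖Df π u j x‖ ^ 2 * ‖Df π u i x‖ ^ 2 := by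
      rw [htdef, sum_comm (s := range J) (t := univ)]
      have h2 : ∑ j ∈ range J, ∑ i ∈ range j, ∑ x, ‖Df π u j x‖ ^ 2 * ‖Df π u i x‖ ^ 2 =
          ∑ x, ∑ j ∈ range J, ‖Df π u j x‖ ^ 2 * ∑ i ∈ range j, ‖Df π u i x‖ ^ 2 := by
        rw [sum_comm (s := univ)]
        refine sum_congr rfl fun j _ => ?_
        rw [sum_comm]
        simp only [mul_sum]
      rw [h2, mul_sum, ← sum_add_distrib]
      refine sum_congr rfl fun x _ => ?_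
      rw [sq_sum_eq_aux (fun j => ‖Df π u j x‖ ^ 2)]
      congr 1
      exact sum_congr rfl fun j _ => by ring
    rw [h1, hA']
    have h3 : ∑ j ∈ range J, ∑ i ∈ range j, ∑ x, ‖Df π u j x‖ ^ 2 * ‖Df π u i x‖ ^ 2 ≤
        ∑ j ∈ range J, ∑ x, ‖Df π u j x‖ ^ 2 * ‖u x‖ ^ 2 := by
      refine sum_le_sum fun j _ => ?_
      refine key_claim hn u j (fun x => ‖Df π u j x‖ ^ 2) (fun x => by positivity) ?_
      intro x y hxy
      rw [Df_label hn u j hxy]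
    linarith
  have ht : t ≤ 2 * A + 2 * B := by
    rw [htdef, hA', hB', mul_sum, mul_sum, ← sum_add_distrib]
    refine sum_le_sum fun j _ => ?_
    have h1 : ∑ x, ‖Df π u j x‖ ^ 4 ≤
        ∑ x, (2 * (‖Df π u j x‖ ^ 2 * Av (π j) (fun y => ‖u y‖ ^ 2) x) +
          2 * (‖Df π u j x‖ ^ 2 * Av (π (j + 1)) (fun y => ‖u y‖ ^ 2) x)) := by
      refine sum_le_sum fun x _ => ?_
      have h2 : ‖Df π u j x‖ ≤ ‖Av (π j) u x‖ + ‖Av (π (j + 1)) u x‖ := norm_sub_le _ _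
      have h3 := norm_sq_Av_le (π j) u x
      have h4 := norm_sq_Av_le (π (j + 1)) u x
      have h5 : ‖Df π u j x‖ ^ 2 ≤ 2 * ‖Av (π j) u x‖ ^ 2 + 2 * ‖Av (π (j + 1)) u x‖ ^ 2 := by
        nlinarith [norm_nonneg (Df π u j x), norm_nonneg (Av (π j) u x),
          norm_nonneg (Av (π (j + 1)) u x), sq_nonneg (‖Av (π j) u x‖ - ‖Av (π (j + 1)) u x‖)]
      have h6 : ‖Df π u j x‖ ^ 2 ≤ 2 * Av (π j) (fun y => ‖u y‖ ^ 2) x +
          2 * Av (π (j + 1)) (fun y => ‖u y‖ ^ 2) x := by linarith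
      calc ‖Df π u j x‖ ^ 4 = ‖Df π u j x‖ ^ 2 * ‖Df π u j x‖ ^ 2 := by ring
        _ ≤ ‖Df π u j x‖ ^ 2 * (2 * Av (π j) (fun y => ‖u y‖ ^ 2) x +
          2 * Av (π (j + 1)) (fun y => ‖u y‖ ^ 2) x) :=
            mul_le_mul_of_nonneg_left h6 (by positivity)
        _ = _ := by ring
    refine h1.trans (le_of_eq ?_)
    rw [sum_add_distrib, ← mul_sum, ← mul_sum,
      sum_mul_Av (π j) (ψ := fun x => ‖Df π u j x‖ ^ 2) (f := fun y => ‖u y‖ ^ 2)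
        (fun x y hxy => by rw [Df_label hn u j hxy])]
    congr 2
    have h7 := sum_mul_Av (π (j + 1)) (ψ := Av (π (j + 1)) (fun y => ‖u y‖ ^ 2))
      (f := fun y => ‖Df π u j y‖ ^ 2) (fun x y hxy => Av_congr_label _ hxy)
    have h8 := sum_mul_Av (π (j + 1)) (ψ := sg π u j) (f := fun y => ‖u y‖ ^ 2)
      (fun x y hxy => sg_label u j hxy)
    rw [← h8]
    calc ∑ x, ‖Df π u j x‖ ^ 2 * Av (π (j + 1)) (fun y => ‖u y‖ ^ 2) x
        = ∑ x, Av (π (j + 1)) (fun y => ‖u y‖ ^ 2) x * ‖Df π u j x‖ ^ 2 :=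
          sum_congr rfl fun x _ => mul_comm _ _
      _ = _ := h7.symm
      _ = _ := sum_congr rfl fun x _ => mul_comm _ _
  have hcs := sum_mul_sq_le_sq_mul_sq univ (fun x => ‖u x‖ ^ 2)
    (fun x => ∑ j ∈ range J, ‖Df π u j x‖ ^ 2)
  have h3 : ∑ x, (‖u x‖ ^ 2) ^ 2 = P := sum_congr rfl fun x _ => by ring
  rw [h3] at hcs
  have hcs2 : A ^ 2 ≤ P * (4 * A + 4 * P) := by
    refine hcs.trans (mul_le_mul_of_nonneg_left ?_ hP)
    linarith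
  have hA5 : A ≤ 5 * P := by
    by_contra hcon
    push Not at hcon
    nlinarith
  linarith

include hn in
/-- **The fourth moment inequality.** -/
theorem four_moment (u : α → ℂ) (e : ℕ → α → ℂ) (J : ℕ)
    (he1 : ∀ j < J, ∀ x y, π j x = π j y → e j x = e j y)
    (he2 : ∀ j < J, ∀ x, Av (π (j + 1)) (e j) x = 0)
    (he3 : ∀ j < J, ∀ x, Av (π (j + 1)) (fun y => ‖e j y‖ ^ 2) x ≤ sg π u j x)
    (he4 : ∀ j < J, ∑ x, ‖e j x‖ ^ 4 ≤ 16 * ∑ x, ‖Df π u j x‖ ^ 4) :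
    ∑ x, ‖∑ j ∈ range J, e j x‖ ^ 4 ≤ 1296 * ∑ x, ‖u x‖ ^ 4 := by
  obtain ⟨-, hS⟩ := SB_le hn u J
  have hT := AT_le hn u J
  set P := ∑ x, ‖u x‖ ^ 4 with hPdef
  have hP : 0 ≤ P := sum_nonneg fun x _ => by positivity
  set M : ℕ → α → ℂ := fun j x => ∑ i ∈ Ico j J, e i x with hM
  have hM0 : ∀ x, M 0 x = ∑ j ∈ range J, e j x := by
    intro x; simp only [hM, range_eq_Ico]
  have hMs : ∀ j < J, ∀ x, M j x = M (j + 1) x + e j x := by
    intro j hj x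
    simp only [hM]
    rw [sum_eq_sum_Ico_succ_bot hj, add_comm]
  have hMJ : ∀ x, M J x = 0 := by intro x; simp [hM]
  have hMl : ∀ j x y, π j x = π j y → M j x = M j y := by
    intro j x y hxy
    simp only [hM]
    refine sum_congr rfl fun i hi => ?_
    have := mem_Ico.mp hi
    exact he1 i (by omega) x y (nested hn (by omega) hxy)
  have hAvM : ∀ j ≤ J, ∀ x, Av (π j) (M 0) x = M j x := by
    intro j hj x
    have h1 : ∀ y, M 0 y = ∑ i ∈ range j, e i y + M j y := by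
      intro y
      simp only [hM, range_eq_Ico]
      rw [sum_Ico_consecutive _ (Nat.zero_le _) hj]
    have h2 : M 0 = fun y => ∑ i ∈ range j, e i y + M j y := funext h1
    rw [h2, Av_add, Av_const (π j) (f := M j) (fun y hy => hMl j y x hy), Av_sum]
    rw [sum_eq_zero, zero_add]
    intro i hi
    have hij : i + 1 ≤ j := by have := mem_range.mp hi; omega
    rw [← Av_Av (π₁ := π (i + 1)) (π₂ := π j) (fun x y h => nested hn hij h)]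
    have h3 : Av (π (i + 1)) (e i) = fun _ => 0 := funext (he2 i (by omega))
    rw [h3]
    simp [Av]
  have hstep : ∀ j < J, ∑ x, ‖M j x‖ ^ 4 ≤ ∑ x, ‖M (j + 1) x‖ ^ 4 +
      8 * ∑ x, ‖M 0 x‖ ^ 2 * sg π u j x + 3 * (16 * ∑ x, ‖Df π u j x‖ ^ 4) := by
    intro j hj
    have h1 : ∑ x, ‖M j x‖ ^ 4 ≤ ∑ x, (‖M (j + 1) x‖ ^ 4 +
        4 * (((‖M (j + 1) x‖ ^ 2 : ℝ) : ℂ) * (starRingEnd ℂ) (M (j + 1) x) * e j x).re
        + 8 * (‖M (j + 1) x‖ ^ 2 * ‖e j x‖ ^ 2) + 3 * ‖e j x‖ ^ 4) := by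
      refine sum_le_sum fun x _ => ?_
      rw [hMs j hj]
      exact four_expand _ _
    rw [sum_add_distrib, sum_add_distrib, sum_add_distrib, ← mul_sum, ← mul_sum, ← mul_sum] at h1
    have h2 : ∑ x, (((‖M (j + 1) x‖ ^ 2 : ℝ) : ℂ) * (starRingEnd ℂ) (M (j + 1) x) * e j x).re
        = 0 := by
      rw [← Complex.re_sum, ← sum_mul_Av (π (j + 1)) (ψ := fun x =>
        ((‖M (j + 1) x‖ ^ 2 : ℝ) : ℂ) * (starRingEnd ℂ) (M (j + 1) x)) (f := e j)]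
      · rw [sum_eq_zero, Complex.zero_re]
        intro x _
        rw [he2 j hj, mul_zero]
      · intro x y hxy
        rw [hMl (j + 1) x y hxy]
    have h3 : ∑ x, ‖M (j + 1) x‖ ^ 2 * ‖e j x‖ ^ 2 ≤ ∑ x, ‖M 0 x‖ ^ 2 * sg π u j x := by
      rw [← sum_mul_Av (π (j + 1)) (ψ := fun x => ‖M (j + 1) x‖ ^ 2)
        (f := fun y => ‖e j y‖ ^ 2) (fun x y hxy => by rw [hMl (j + 1) x y hxy])]
      have h4 : ∑ x, ‖M 0 x‖ ^ 2 * sg π u j x =
          ∑ x, Av (π (j + 1)) (fun y => ‖M 0 y‖ ^ 2) x * sg π u j x := by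
        have h5 := sum_mul_Av (π (j + 1)) (ψ := sg π u j) (f := fun y => ‖M 0 y‖ ^ 2)
          (fun x y hxy => sg_label u j hxy)
        rw [show ∑ x, ‖M 0 x‖ ^ 2 * sg π u j x = ∑ x, sg π u j x * ‖M 0 x‖ ^ 2 from
          sum_congr rfl fun x _ => mul_comm _ _, ← h5]
        exact sum_congr rfl fun x _ => mul_comm _ _
      rw [h4]
      refine sum_le_sum fun x _ => ?_
      have h6 : ‖M (j + 1) x‖ ^ 2 ≤ Av (π (j + 1)) (fun y => ‖M 0 y‖ ^ 2) x := by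
        rw [← hAvM (j + 1) hj]
        exact norm_sq_Av_le _ _ _
      exact mul_le_mul h6 (he3 j hj x) (Av_nonneg _ (fun _ => by positivity) _)
        (Av_nonneg _ (fun _ => by positivity) _)
    have h5 := he4 j hj
    linarith
  have hsum : ∀ k ≤ J, ∑ x, ‖M (J - k) x‖ ^ 4 ≤
      ∑ j ∈ Ico (J - k) J, (8 * ∑ x, ‖M 0 x‖ ^ 2 * sg π u j x +
        3 * (16 * ∑ x, ‖Df π u j x‖ ^ 4)) := by
    intro k hk
    induction k with
    | zero =>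
        rw [Nat.sub_zero, Ico_self, sum_empty]
        exact le_of_eq (sum_eq_zero fun x _ => by rw [hMJ]; simp)
    | succ k ih =>
        have h1 := ih (by omega)
        have h2 := hstep (J - (k + 1)) (by omega)
        have h3 : J - (k + 1) + 1 = J - k := by omega
        rw [h3] at h2
        rw [sum_eq_sum_Ico_succ_bot (by omega : J - (k + 1) < J), h3]
        linarith
  have hX := hsum J le_rfl
  rw [Nat.sub_self, ← range_eq_Ico, sum_add_distrib, ← mul_sum] at hX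
  have hC : ∑ j ∈ range J, ∑ x, ‖M 0 x‖ ^ 2 * sg π u j x =
      ∑ x, ‖M 0 x‖ ^ 2 * ∑ j ∈ range J, sg π u j x := by
    rw [sum_comm]; simp only [mul_sum]
  have hD : ∑ j ∈ range J, 3 * (16 * ∑ x, ‖Df π u j x‖ ^ 4) ≤ 672 * P := by
    rw [← mul_sum, ← mul_sum]; linarith
  rw [hC] at hX
  have hcs := sum_mul_sq_le_sq_mul_sq univ (fun x => ‖M 0 x‖ ^ 2)
    (fun x => ∑ j ∈ range J, sg π u j x)
  have h3 : ∑ x, (‖M 0 x‖ ^ 2) ^ 2 = ∑ x, ‖M 0 x‖ ^ 4 := sum_congr rfl fun x _ => by ring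
  rw [h3] at hcs
  have hgoal : ∑ x, ‖∑ j ∈ range J, e j x‖ ^ 4 = ∑ x, ‖M 0 x‖ ^ 4 :=
    sum_congr rfl fun x _ => by rw [hM0]
  rw [hgoal]
  set X := ∑ x, ‖M 0 x‖ ^ 4 with hXdef
  set C := ∑ x, ‖M 0 x‖ ^ 2 * ∑ j ∈ range J, sg π u j x with hCdef
  have hX0 : 0 ≤ X := sum_nonneg fun x _ => by positivity
  have hC0 : 0 ≤ C := sum_nonneg fun x _ => mul_nonneg (by positivity)
    (sum_nonneg fun j _ => sg_nonneg u j x)
  have hC2 : C ^ 2 ≤ X * (4 * P) := hcs.trans (mul_le_mul_of_nonneg_left hS hX0)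
  have hX1 : X ≤ 8 * C + 672 * P := by linarith
  by_contra hcon
  push Not at hcon
  have h5 : (X - 672 * P) ^ 2 ≤ 64 * C ^ 2 := by
    have : 0 ≤ X - 672 * P := by linarith
    nlinarith
  nlinarith

end mart

end Pool.Agent.H33.Cor
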