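import Pool.Agent.H33.Cor.Disk3

set_option autoImplicit false
set_option linter.unusedSectionVars false

/-! The Riesz product vectors. -/

namespace Pool.Agent.H33.Cor

open Finset Filter Topology

/-- supported in `[-T, T)` -/
def Sup (T : ℤ) (u : X) : Prop := ∀ x : ℤ, (x < -T ∨ T ≤ x) → u x = 0

lemma Sup.add {T : ℤ} {u v : X} (hu : Sup T u) (hv : Sup T v) : Sup T (u + v) := by
  intro x hx; rw [add_apply', hu x hx, hv x hx, add_zero]

lemma Sup.smul {T : ℤ} {u : X} (c : ℂ) (hu : Sup T u) : Sup T (c • u) := by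
  intro x hx; rw [smul_apply', hu x hx, mul_zero]

lemma Sup.zero (T : ℤ) : Sup T 0 := by intro x _; rw [zero_apply']

lemma Sup.shift {T : ℤ} {u : X} (hu : Sup T u) {T' n : ℤ} (h : T + |n| ≤ T') :
    Sup T' (sh n u) := by
  intro x hx
  rw [sh_apply]
  apply hu
  have h1 := neg_abs_le n
  have h2 := le_abs_self n
  rcases hx with hx | hx
  · left; linarith
  · right; linarith

lemma Sup.mono {T T' : ℤ} {u : X} (hu : Sup T u) (h : T ≤ T') : Sup T' u := by
  intro x hx; apply hu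
  rcases hx with hx | hx
  · left; linarith
  · right; linarith

/-- additivity of the fourth power of the norm over four distant windows -/
lemma norm4_four {T R : ℤ} (hTR : 2 * T ≤ R) (hR : 0 ≤ R) {u₀ u₁ u₂ u₃ : X} (h0 : Sup T u₀)
    (h1 : Sup T u₁) (h2 : Sup T u₂) (h3 : Sup T u₃) :
    ‖sh (-R) u₀ + u₁ + sh R u₂ + sh (2 * R) u₃‖ ^ 4 =
      ‖u₀‖ ^ 4 + ‖u₁‖ ^ 4 + ‖u₂‖ ^ 4 + ‖u₃‖ ^ 4 := by
  have e0 : ‖u₀‖ ^ 4 = ‖sh (-R) u₀‖ ^ 4 := by rw [sh_norm]
  have e2 : ‖u₂‖ ^ 4 = ‖sh R u₂‖ ^ 4 := by rw [sh_norm]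
  have e3 : ‖u₃‖ ^ 4 = ‖sh (2 * R) u₃‖ ^ 4 := by rw [sh_norm]
  rw [e0, e2, e3, norm4, norm4 (sh (-R) u₀), norm4 u₁, norm4 (sh R u₂), norm4 (sh (2 * R) u₃)]
  have s0 := summable4 (sh (-R) u₀)
  have s1 := summable4 u₁
  have s2 := summable4 (sh R u₂)
  have s3 := summable4 (sh (2 * R) u₃)
  rw [← s0.tsum_add s1, ← (s0.add s1).tsum_add s2, ← ((s0.add s1).add s2).tsum_add s3]
  refine tsum_congr fun x => ?_
  simp only [add_apply', sh_apply]
  by_cases hx : x < -T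
  · have a1 : u₁ x = 0 := h1 x (Or.inl hx)
    have a2 : u₂ (x - R) = 0 := h2 _ (Or.inl (by linarith))
    have a3 : u₃ (x - 2 * R) = 0 := h3 _ (Or.inl (by linarith))
    rw [a1, a2, a3]; simp
  · push Not at hx
    have a0 : u₀ (x - -R) = 0 := h0 _ (Or.inr (by linarith))
    by_cases hx2 : x < T
    · have a2 : u₂ (x - R) = 0 := h2 _ (Or.inl (by linarith))
      have a3 : u₃ (x - 2 * R) = 0 := h3 _ (Or.inl (by linarith))
      rw [a0, a2, a3]; simp
    · push Not at hx2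
      have a1 : u₁ x = 0 := h1 x (Or.inr hx2)
      by_cases hx3 : x - R < T
      · have a3 : u₃ (x - 2 * R) = 0 := h3 _ (Or.inl (by linarith))
        rw [a0, a1, a3]; simp
      · push Not at hx3
        have a2 : u₂ (x - R) = 0 := h2 _ (Or.inr hx3)
        rw [a0, a1, a2]; simp

/-- the operators `∏ (1 + 2 i S^{R_l})` -/
noncomputable def PP (R : ℕ → ℤ) : ℕ → (X →L[ℂ] X)
  | 0 => 1
  | n + 1 => (1 + (2 * Complex.I) • sh (R n)) * PP R n

/-- `∑_{p<k} S^p` -/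
noncomputable def SS (k : ℕ) : X →L[ℂ] X := ∑ p ∈ range k, sh (p : ℤ)

/-- the Riesz vectors -/
noncomputable def VV (R : ℕ → ℤ) (n k : ℕ) : X := (PP R n * SS k) (ee 0)

lemma sh_comm_PP (R : ℕ → ℤ) (m : ℤ) (n : ℕ) : sh m * PP R n = PP R n * sh m := by
  induction n with
  | zero => unfold PP; rw [one_mul, mul_one]
  | succ n ih =>
      have h : sh m * (1 + (2 * Complex.I) • sh (R n)) =
          (1 + (2 * Complex.I) • sh (R n)) * sh m := by
        rw [mul_add, add_mul, mul_one, one_mul, mul_smul_comm, smul_mul_assoc, sh_rep.comm]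
      rw [PP, ← mul_assoc, h, mul_assoc, ih, mul_assoc]

lemma VV_succ (R : ℕ → ℤ) (n k : ℕ) :
    VV R (n + 1) k = VV R n k + sh (R n) ((2 * Complex.I) • VV R n k) := by
  unfold VV
  rw [PP, mul_assoc, mul_apply_eq_comp, map_smul]
  rfl

lemma VV_zero (R : ℕ → ℤ) (k : ℕ) : VV R 0 k = ∑ p ∈ range k, ee (p : ℤ) := by
  unfold VV SS
  rw [PP, one_mul, _root_.sum_apply]
  refine sum_congr rfl fun p _ => ?_
  rw [sh_ee, zero_add]

section riesz

variable {a : ℕ} {R : ℕ → ℤ} (hR : ∀ n, R n = 8 * (a * 8 ^ n)) {T : ℕ → ℤ}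
  (hT : ∀ n, T n = 4 * (a * 8 ^ n))

include hR hT

lemma VV_sup {k : ℕ} (hk : k ≤ a) (n : ℕ) : Sup (T n) (VV R n k) := by
  induction n with
  | zero =>
      intro x hx
      rw [VV_zero, sum_apply']
      refine sum_eq_zero fun p hp => ?_
      rw [ee_apply, if_neg]
      intro h
      rw [h, hT, pow_zero, mul_one] at hx
      have := mem_range.mp hp
      omega
  | succ n ih =>
      rw [VV_succ]
      have h1 : (0 : ℤ) ≤ a * 8 ^ n := by positivity
      refine (ih.mono ?_).add ((ih.smul _).shift ?_)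
      · rw [hT, hT, pow_succ]; nlinarith
      · rw [hT, hT, hR, abs_of_nonneg (by positivity), pow_succ]; nlinarith

lemma VV_norm {k : ℕ} (hk : k ≤ a) (n : ℕ) : ‖VV R n k‖ ^ 4 = 17 ^ n * k := by
  induction n with
  | zero =>
      rw [VV_zero, norm4_sum_one (range k) (fun p => (p : ℤ)), card_range, pow_zero, one_mul]
      intro x _ y _ hxy
      have hxy' : (x : ℤ) = y := hxy
      exact_mod_cast hxy'
  | succ n ih =>
      have hs := VV_sup hR hT hk n
      have h1 : (0 : ℤ) ≤ a * 8 ^ n := by positivity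
      have h2 := norm4_four (T := T n) (R := R n) (by rw [hT, hR]; linarith)
        (by rw [hR]; positivity) (Sup.zero _) hs (hs.smul (2 * Complex.I)) (Sup.zero _)
      rw [map_zero, map_zero, zero_add, add_zero, ← VV_succ, norm_zero, norm_smul, ih] at h2
      rw [h2]
      have h3 : ‖(2 * Complex.I : ℂ)‖ = 2 := by
        rw [norm_mul, Complex.norm_I, mul_one]; norm_num
      rw [h3, mul_pow, ih, pow_succ]
      ring

/-- the sum of the cosines -/
noncomputable def CC (R : ℕ → ℤ) (n : ℕ) : X →L[ℂ] X :=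
  ∑ l ∈ range n, (1 / 2 : ℂ) • (sh (R l) + sh (-(R l)))

/-- the deviation from the eigenvalue -/
noncomputable def ZZ (R : ℕ → ℤ) (a n : ℕ) : X :=
  (CC R n + ((3 / 17) * Complex.I * n) • (1 : X →L[ℂ] X)) (VV R n a)

omit hR hT in
lemma ZZ_zero (R : ℕ → ℤ) (a : ℕ) : ZZ R a 0 = 0 := by
  unfold ZZ CC
  rw [range_zero, sum_empty, zero_add, Nat.cast_zero, mul_zero, zero_smul]
  rfl

omit hR hT in
lemma CC_succ (R : ℕ → ℤ) (n : ℕ) : CC R (n + 1) = CC R n +
    (1 / 2 : ℂ) • (sh (R n) + sh (-(R n))) := by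
  unfold CC; rw [sum_range_succ]

omit hR hT in
lemma sh_comm_CC (R : ℕ → ℤ) (m : ℤ) (n : ℕ) : sh m * CC R n = CC R n * sh m := by
  unfold CC
  rw [mul_sum, sum_mul]
  refine sum_congr rfl fun l _ => ?_
  rw [mul_smul_comm, smul_mul_assoc, mul_add, add_mul, sh_rep.comm, sh_rep.comm m (-(R l))]

omit hR hT in
lemma ZZ_succ (R : ℕ → ℤ) (a n : ℕ) : ZZ R a (n + 1) =
    sh (-(R n)) ((1 / 2 : ℂ) • VV R n a) + (ZZ R a n + (20 / 17 * Complex.I) • VV R n a) +
    sh (R n) ((2 * Complex.I) • ZZ R a n + (5 / 34 : ℂ) • VV R n a) +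
    sh (2 * R n) (Complex.I • VV R n a) := by
  set V := VV R n a with hV
  set s := sh (R n) with hs
  set t := sh (-(R n)) with ht
  have hst : s * t = 1 := by rw [hs, ht, ← sh_rep.add, add_neg_cancel, sh_rep.zero]
  have hts : t * s = 1 := by rw [hs, ht, ← sh_rep.add, neg_add_cancel, sh_rep.zero]
  have hss : sh (2 * R n) = s * s := by rw [hs, ← sh_rep.add, two_mul]
  have hCs : CC R n * s = s * CC R n := (sh_comm_CC R _ n).symm
  have e1 : ∀ u : X, t (s u) = u := fun u => by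
    have := congrArg (fun S : X →L[ℂ] X => S u) hts
    simpa only [mul_apply_eq_comp, one_apply_eq_self] using this
  have e2 : ∀ u : X, CC R n (s u) = s (CC R n u) := fun u => by
    have := congrArg (fun S : X →L[ℂ] X => S u) hCs
    simpa only [mul_apply_eq_comp] using this
  have hI : Complex.I * Complex.I = -1 := Complex.I_mul_I
  unfold ZZ
  rw [CC_succ, VV_succ, ← hV, ← hs, ← ht, hss]
  simp only [add_apply, csmul_apply, one_apply_eq_self, map_add, map_smul, mul_apply_eq_comp, e1,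
    e2, smul_add, smul_smul]
  push_cast
  have k1 : (3 / 17 * Complex.I * ((n : ℂ) + 1)) • V = (3 / 17 * Complex.I * (n : ℂ)) • V +
      ((3 / 17) * Complex.I) • V := by rw [← add_smul]; congr 1; ring
  have k2 : (2 * Complex.I * (3 / 17 * Complex.I * ((n : ℂ) + 1))) • s V =
      (2 * Complex.I * (3 / 17 * Complex.I * (n : ℂ))) • s V + (-(6 / 17) : ℂ) • s V := by
    rw [← add_smul]; congr 1; linear_combination (6 / 17) * hI
  have k3 : ∀ w : X, (20 / 17 * Complex.I) • w = ((3 / 17) * Complex.I) • w +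
      (1 / 2 * (2 * Complex.I)) • w := by intro w; rw [← add_smul]; congr 1; ring
  have k4 : ∀ w : X, (5 / 34 : ℂ) • w = (1 / 2 : ℂ) • w + (-(6 / 17) : ℂ) • w := by
    intro w; rw [← add_smul]; congr 1; norm_num
  have k5 : ∀ w : X, Complex.I • w = (1 / 2 * (2 * Complex.I)) • w := by
    intro w; congr 1; ring
  simp only [k1, k2, k3, k4, k5, mul_comm (2 * Complex.I) (1 / 2)]
  abel

lemma ZZ_sup (n : ℕ) : Sup (T n) (ZZ R a n) := by
  induction n with
  | zero => rw [ZZ_zero]; exact Sup.zero _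
  | succ n ih =>
      rw [ZZ_succ]
      have hV := VV_sup hR hT le_rfl n
      have h1 : (0 : ℤ) ≤ a * 8 ^ n := by positivity
      have hR0 : 0 ≤ R n := by rw [hR]; positivity
      have b0 : T n ≤ T (n + 1) := by rw [hT, hT, pow_succ]; nlinarith
      have b1 : T n + |-(R n)| ≤ T (n + 1) := by
        rw [abs_neg, abs_of_nonneg hR0, hT, hT, hR, pow_succ]; nlinarith
      have b2 : T n + |R n| ≤ T (n + 1) := by
        rw [abs_of_nonneg hR0, hT, hT, hR, pow_succ]; nlinarith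
      have b3 : T n + |2 * R n| ≤ T (n + 1) := by
        rw [abs_of_nonneg (by linarith), hT, hT, hR, pow_succ]; nlinarith
      exact ((((hV.smul _).shift b1).add ((ih.add (hV.smul _)).mono b0)).add
        (((ih.smul _).add (hV.smul _)).shift b2)).add ((hV.smul _).shift b3)

end riesz

/-- the pointwise inequality behind the eigenvector estimate -/
lemma point_ineq (w v : ℂ) (c : ℝ) (hc : 0 < c) :
    ‖w + (20 / 17 * Complex.I) * v‖ ^ 4 + ‖(2 * Complex.I) * w + (5 / 34 : ℂ) * v‖ ^ 4 ≤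
      (17 + 6 / c) * ‖w‖ ^ 4 + (6 * c + 5.8) * ‖v‖ ^ 4 := by
  have h1 := four_expand w ((20 / 17 * Complex.I) * v)
  have h2 := four_expand ((2 * Complex.I) * w) ((5 / 34 : ℂ) * v)
  have n1 : ‖(20 / 17 * Complex.I) * v‖ = 20 / 17 * ‖v‖ := by
    rw [norm_mul, norm_mul, Complex.norm_I, mul_one]; norm_num
  have n2 : ‖(2 * Complex.I) * w‖ = 2 * ‖w‖ := by
    rw [norm_mul, norm_mul, Complex.norm_I, mul_one]; norm_num
  have n3 : ‖(5 / 34 : ℂ) * v‖ = 5 / 34 * ‖v‖ := by rw [norm_mul]; norm_num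
  rw [n1] at h1
  rw [n2, n3] at h2
  have r1 : (((‖w‖ ^ 2 : ℝ) : ℂ) * (starRingEnd ℂ) w * ((20 / 17 * Complex.I) * v)).re =
      ‖w‖ ^ 2 * (20 / 17) * (Complex.I * ((starRingEnd ℂ) w * v)).re := by
    have : ((‖w‖ ^ 2 : ℝ) : ℂ) * (starRingEnd ℂ) w * ((20 / 17 * Complex.I) * v) =
        ((‖w‖ ^ 2 * (20 / 17) : ℝ) : ℂ) * (Complex.I * ((starRingEnd ℂ) w * v)) := by
      push_cast; ring
    rw [this, Complex.re_ofReal_mul]
  have r2 : ((((2 * ‖w‖) ^ 2 : ℝ) : ℂ) * (starRingEnd ℂ) (2 * Complex.I * w) *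
      ((5 / 34 : ℂ) * v)).re =
      -(‖w‖ ^ 2 * (20 / 17)) * (Complex.I * ((starRingEnd ℂ) w * v)).re := by
    have : (((2 * ‖w‖) ^ 2 : ℝ) : ℂ) * (starRingEnd ℂ) (2 * Complex.I * w) *
      ((5 / 34 : ℂ) * v) = ((-(‖w‖ ^ 2 * (20 / 17)) : ℝ) : ℂ) *
        (Complex.I * ((starRingEnd ℂ) w * v)) := by
      rw [map_mul, map_mul, Complex.conj_I, map_ofNat]
      push_cast; ring
    rw [this, Complex.re_ofReal_mul]
  rw [r1] at h1
  rw [r2] at h2
  have hW := norm_nonneg w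
  have hV := norm_nonneg v
  have hq : 12 * (‖w‖ ^ 2 * ‖v‖ ^ 2) ≤ 6 / c * ‖w‖ ^ 4 + 6 * c * ‖v‖ ^ 4 := by
    have h3 : 0 ≤ 6 / c * (‖w‖ ^ 2 - c * ‖v‖ ^ 2) ^ 2 := by positivity
    have h4 : 6 / c * (‖w‖ ^ 2 - c * ‖v‖ ^ 2) ^ 2 =
        6 / c * ‖w‖ ^ 4 - 12 * (‖w‖ ^ 2 * ‖v‖ ^ 2) + 6 * c * ‖v‖ ^ 4 := by
      field_simp; ring
    linarith
  have hv4 : 0 ≤ ‖v‖ ^ 4 := by positivity
  have hwv : 0 ≤ ‖w‖ ^ 2 * ‖v‖ ^ 2 := by positivity
  nlinarith

end Pool.Agent.H33.Cor
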