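import Pool.Agent.H33.Cor.Riesz

set_option autoImplicit false
set_option linter.unusedSectionVars false

/-! Estimates for the Riesz product vectors. -/

namespace Pool.Agent.H33.Cor

open Finset Filter Topology

lemma point_sum (w v : X) (c : ℝ) (hc : 0 < c) :
    ‖w + (20 / 17 * Complex.I) • v‖ ^ 4 + ‖(2 * Complex.I) • w + (5 / 34 : ℂ) • v‖ ^ 4 ≤
      (17 + 6 / c) * ‖w‖ ^ 4 + (6 * c + 5.8) * ‖v‖ ^ 4 := by
  have s1 := summable4 (w + (20 / 17 * Complex.I) • v)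
  have s2 := summable4 ((2 * Complex.I) • w + (5 / 34 : ℂ) • v)
  have s3 := (summable4 w).mul_left (17 + 6 / c)
  have s4 := (summable4 v).mul_left (6 * c + 5.8)
  rw [norm4 (w + _), norm4 (_ + (5 / 34 : ℂ) • v), norm4 w, norm4 v, ← tsum_mul_left,
    ← tsum_mul_left, ← s1.tsum_add s2, ← s3.tsum_add s4]
  refine (s1.add s2).tsum_le_tsum (fun x => ?_) (s3.add s4)
  exact point_ineq (w x) (v x) c hc

section riesz

variable {a : ℕ} {R : ℕ → ℤ} (hR : ∀ n, R n = 8 * (a * 8 ^ n)) {T : ℕ → ℤ}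
  (hT : ∀ n, T n = 4 * (a * 8 ^ n))

include hR hT

lemma ZZ_norm (n : ℕ) : ‖ZZ R a n‖ ^ 4 ≤ (n : ℝ) ^ 2 * (17 ^ n * a) := by
  induction n with
  | zero => rw [ZZ_zero, norm_zero]; simp
  | succ n ih =>
      have hV := VV_sup hR hT le_rfl n
      have hVn := VV_norm hR hT (le_refl a) n
      have hZ := ZZ_sup hR hT n
      have h1 : (0 : ℤ) ≤ a * 8 ^ n := by positivity
      have h2 := norm4_four (T := T n) (R := R n) (by rw [hT, hR]; linarith)
        (by rw [hR]; positivity) (hV.smul (1 / 2 : ℂ)) (hZ.add (hV.smul (20 / 17 * Complex.I)))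
        ((hZ.smul (2 * Complex.I)).add (hV.smul (5 / 34 : ℂ))) (hV.smul Complex.I)
      rw [← ZZ_succ] at h2
      have h3 : ‖(1 / 2 : ℂ) • VV R n a‖ ^ 4 = 1 / 16 * ‖VV R n a‖ ^ 4 := by
        rw [norm_smul, mul_pow]; norm_num
      have h4 : ‖Complex.I • VV R n a‖ ^ 4 = ‖VV R n a‖ ^ 4 := by
        rw [norm_smul, Complex.norm_I, one_mul]
      have hn : (0 : ℝ) < (n : ℝ) + 1 := by positivity
      have h5 := point_sum (ZZ R a n) (VV R n a) ((n : ℝ) + 1) hn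
      rw [h3, h4] at h2
      rw [h2]
      rw [hVn] at h5 ⊢
      set Y : ℝ := 17 ^ n * a with hY
      have hY0 : 0 ≤ Y := by positivity
      have h6 : (17 + 6 / ((n : ℝ) + 1)) * ‖ZZ R a n‖ ^ 4 ≤
          (17 + 6 / ((n : ℝ) + 1)) * ((n : ℝ) ^ 2 * Y) :=
        mul_le_mul_of_nonneg_left ih (by positivity)
      have h7 : 6 / ((n : ℝ) + 1) * (n : ℝ) ^ 2 ≤ 6 * n := by
        rw [div_mul_eq_mul_div, div_le_iff₀ hn]
        nlinarith [Nat.cast_nonneg (α := ℝ) n]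
      have h8 : (6 / ((n : ℝ) + 1) * (n : ℝ) ^ 2) * Y ≤ 6 * n * Y :=
        mul_le_mul_of_nonneg_right h7 hY0
      have h9 : (17 : ℝ) ^ (n + 1) * a = 17 * Y := by rw [hY, pow_succ]; ring
      have hn0 : (0 : ℝ) ≤ n * Y := by positivity
      push_cast
      rw [h9]
      nlinarith

end riesz

lemma SS_diff (k a : ℕ) : (sh (k : ℤ) - 1) * SS a = (sh (a : ℤ) - 1) * SS k := by
  have h : ∀ n m : ℕ, (sh (n : ℤ) - 1) * SS m =
      ∑ p ∈ range n, sh ((m + p : ℕ) : ℤ) - ∑ p ∈ range n, sh (p : ℤ) := by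
    intro n m
    unfold SS
    have h2 : sh (n : ℤ) * ∑ p ∈ range m, sh (p : ℤ) = ∑ p ∈ range m, sh ((n + p : ℕ) : ℤ) := by
      rw [mul_sum]
      refine sum_congr rfl fun p _ => ?_
      rw [← sh_rep.add]; push_cast; rfl
    rw [sub_mul, one_mul, h2]
    have h3 := sum_range_add (fun p => sh ((p : ℕ) : ℤ)) n m
    have h4 := sum_range_add (fun p => sh ((p : ℕ) : ℤ)) m n
    rw [add_comm n m, h4] at h3
    rw [sub_eq_sub_iff_add_eq_add, add_comm (∑ x ∈ range m, sh _), ← h3, add_comm]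
  rw [h k a]
  unfold SS
  have h2 : sh (a : ℤ) * ∑ p ∈ range k, sh (p : ℤ) = ∑ p ∈ range k, sh ((a + p : ℕ) : ℤ) := by
    rw [mul_sum]
    refine sum_congr rfl fun p _ => ?_
    rw [← sh_rep.add]; push_cast; rfl
  rw [sub_mul, one_mul, h2]

lemma VV_diff (R : ℕ → ℤ) (n a k : ℕ) :
    sh (k : ℤ) (VV R n a) - VV R n a = sh (a : ℤ) (VV R n k) - VV R n k := by
  have h1 : ∀ m b : ℕ, sh (m : ℤ) (VV R n b) - VV R n b =
      (PP R n * ((sh (m : ℤ) - 1) * SS b)) (ee 0) := by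
    intro m b
    unfold VV
    rw [← mul_apply_eq_comp, ← sub_apply]
    congr 1
    rw [← mul_assoc, sh_comm_PP, sub_mul, one_mul, mul_sub, mul_assoc]
  rw [h1, h1, SS_diff]

section riesz

variable {a : ℕ} {R : ℕ → ℤ} (hR : ∀ n, R n = 8 * (a * 8 ^ n)) {T : ℕ → ℤ}
  (hT : ∀ n, T n = 4 * (a * 8 ^ n))

include hR hT

lemma VV_shift_le (n : ℕ) {L : ℕ} (hL : L ≤ a) {m : ℤ} (hm : |m| ≤ L) :
    ‖sh m (VV R n a) - VV R n a‖ ≤ 2 * ‖VV R n L‖ := by
  have key : ∀ k : ℕ, k ≤ L → ‖sh (k : ℤ) (VV R n a) - VV R n a‖ ≤ 2 * ‖VV R n L‖ := by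
    intro k hk
    rw [VV_diff]
    refine (norm_sub_le _ _).trans ?_
    rw [sh_norm]
    have h1 : ‖VV R n k‖ ≤ ‖VV R n L‖ := by
      refine norm_le_of_four (norm_nonneg _) ?_
      rw [VV_norm hR hT (hk.trans hL), VV_norm hR hT hL]
      exact mul_le_mul_of_nonneg_left (by exact_mod_cast hk) (by positivity)
    linarith
  rcases le_total 0 m with h | h
  · obtain ⟨k, rfl⟩ := Int.eq_ofNat_of_zero_le h
    rw [abs_of_nonneg h] at hm
    exact key k (by exact_mod_cast hm)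
  · obtain ⟨k, hk0⟩ := Int.eq_ofNat_of_zero_le (neg_nonneg.mpr h)
    have hmk : m = -(k : ℤ) := by linarith
    subst hmk
    rw [abs_neg, abs_of_nonneg (by positivity)] at hm
    have h1 : sh (-(k : ℤ)) (VV R n a) - VV R n a =
        -(sh (-(k : ℤ)) (sh (k : ℤ) (VV R n a) - VV R n a)) := by
      have h2 : sh (-(k : ℤ)) (sh (k : ℤ) (VV R n a)) = VV R n a := by
        rw [← mul_apply_eq_comp, sh_rep.neg_mul_self]; rfl
      rw [map_sub, h2, neg_sub]
    rw [h1, norm_neg, sh_norm]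
    exact key k (by exact_mod_cast hm)

lemma VV_Lm_le (n : ℕ) {L : ℕ} (hL0 : 0 < L) (hL : L ≤ a) :
    ‖Lm sh L (VV R n a) - VV R n a‖ ^ 4 ≤ 16 * ((L : ℝ) / a) * ‖VV R n a‖ ^ 4 := by
  have h1 : ‖Lm sh L (VV R n a) - VV R n a‖ ≤ 2 * ‖VV R n L‖ := by
    have hc : (L : ℂ) ≠ 0 := by exact_mod_cast hL0.ne'
    have h2 : Lm sh L (VV R n a) - VV R n a = ((L : ℂ) ^ 2)⁻¹ •
        ∑ p ∈ range L, ∑ s ∈ range L, (sh ((p : ℤ) - s) (VV R n a) - VV R n a) := by
      unfold Lm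
      simp only [sum_sub_distrib, smul_sub]
      rw [csmul_apply, _root_.sum_apply]
      simp only [_root_.sum_apply]
      congr 1
      rw [sum_const, sum_const, card_range, ← Nat.cast_smul_eq_nsmul ℂ,
        ← Nat.cast_smul_eq_nsmul ℂ, smul_smul, smul_smul]
      rw [show ((L : ℂ) ^ 2)⁻¹ * (L : ℂ) * L = 1 by field_simp, one_smul]
    rw [h2, norm_smul, norm_inv, norm_pow, Complex.norm_natCast]
    have hL' : (0 : ℝ) < (L : ℝ) ^ 2 := by positivity
    rw [inv_mul_le_iff₀ hL']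
    refine (norm_sum_le _ _).trans ?_
    calc ∑ p ∈ range L, ‖∑ s ∈ range L, (sh ((p : ℤ) - s) (VV R n a) - VV R n a)‖
        ≤ ∑ p ∈ range L, ∑ s ∈ range L, 2 * ‖VV R n L‖ := by
          refine sum_le_sum fun p hp => (norm_sum_le _ _).trans (sum_le_sum fun s hs => ?_)
          refine VV_shift_le hR hT n hL ?_
          have h3 := mem_range.mp hp
          have h4 := mem_range.mp hs
          rw [abs_le]; constructor <;> omega
      _ = _ := by
          rw [sum_const, sum_const, card_range, nsmul_eq_mul, nsmul_eq_mul]; ring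
  refine (pow_le_pow_left₀ (norm_nonneg _) h1 4).trans (le_of_eq ?_)
  rw [mul_pow, VV_norm hR hT hL, VV_norm hR hT le_rfl]
  have ha : (a : ℝ) ≠ 0 := by
    have : 0 < a := lt_of_lt_of_le hL0 hL
    positivity
  field_simp
  norm_num

lemma VV_decay (n : ℕ) {L : ℕ} (hL : 0 < L) :
    ‖Lm sh L (VV R n a)‖ ^ 4 ≤ ((8 * (a * 8 ^ n) : ℝ) / L) ^ 3 * ‖VV R n a‖ ^ 4 := by
  set V := VV R n a with hV
  have hs := VV_sup hR hT (le_refl a) n
  have h1 : V = ∑ k ∈ Ico (-(T n)) (T n), V k • ee k := by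
    ext x
    rw [sum_ee_apply]
    split_ifs with h
    · rfl
    · rw [mem_Ico, not_and_or, not_le, not_lt] at h
      exact hs x h
  have h2 := Lm_decay L hL (Ico (-(T n)) (T n)) (fun k => V k)
  rw [← h1] at h2
  have h3 : ((Ico (-(T n)) (T n)).card : ℝ) = 8 * (a * 8 ^ n) := by
    rw [Int.card_Ico, hT]
    have h4 : (4 * ((a : ℤ) * 8 ^ n) - -(4 * (a * 8 ^ n))).toNat = 8 * (a * 8 ^ n) := by
      rw [show (4 * ((a : ℤ) * 8 ^ n) - -(4 * (a * 8 ^ n))) =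
        ((8 * (a * 8 ^ n) : ℕ) : ℤ) by push_cast; ring, Int.toNat_natCast]
    rw [h4]; push_cast; ring
  rw [h3] at h2
  exact h2

end riesz

end Pool.Agent.H33.Cor
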