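import Pool.Agent.H33.Cor.Riesz2

set_option autoImplicit false
set_option linter.unusedSectionVars false

/-! The approximate joint eigenvectors. -/

namespace Pool.Agent.H33.Cor

open Finset Filter Topology

/-- the shifts as integers -/
def RR (j : ℕ) (l : ℕ) : ℤ := Rr j l

/-- the half-lengths of the windows -/
def TW (j : ℕ) (n : ℕ) : ℤ := 4 * ((q (6 * j + 2) : ℕ) * 8 ^ n)

/-- the approximate eigenvector -/
noncomputable def UU (j : ℕ) : X := VV (RR j) (j + 1) (q (6 * j + 2))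

lemma hRR (j : ℕ) : ∀ n, RR j n = 8 * ((q (6 * j + 2) : ℕ) * 8 ^ n) := by
  intro n; unfold RR Rr; push_cast; rw [pow_succ]; ring

lemma hTW (j : ℕ) : ∀ n, TW j n = 4 * ((q (6 * j + 2) : ℕ) * 8 ^ n) := fun _ => rfl

lemma UU_pos (j : ℕ) : 0 < ‖UU j‖ := by
  have h := VV_norm (hRR j) (hTW j) (le_refl (q (6 * j + 2))) (j + 1)
  have h1 : (0 : ℝ) < 17 ^ (j + 1) * (q (6 * j + 2) : ℕ) := by
    have : (0 : ℝ) < (q (6 * j + 2) : ℕ) := by exact_mod_cast q_pos _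
    positivity
  have h2 : 0 < ‖UU j‖ ^ 4 := by unfold UU; rw [h]; exact h1
  rcases (norm_nonneg (UU j)).eq_or_lt with h3 | h3
  · rw [← h3] at h2; norm_num at h2
  · exact h3

/-- short averages act almost trivially -/
lemma UU_smooth {i j : ℕ} (h : i ≤ 6 * j + 1) :
    ‖Lm sh (q i) (UU j) - UU j‖ ≤ (1 / 2 : ℝ) ^ (60 * j + 44) * ‖UU j‖ := by
  have h0 : q i ≤ q (6 * j + 2) := Nat.le_of_dvd (q_pos _) (q_dvd (by omega))
  have h1 := VV_Lm_le (hRR j) (hTW j) (j + 1) (q_pos i) h0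
  have h2 := q_ratio (show i < 6 * j + 2 by omega)
  refine norm_le_of_four (by positivity) (h1.trans ?_)
  rw [mul_pow]
  refine mul_le_mul_of_nonneg_right ?_ (by positivity)
  calc 16 * ((q i : ℝ) / (q (6 * j + 2) : ℕ)) ≤ 16 * (1 / 2 : ℝ) ^ (40 * (6 * j + 2) + 100) := by
        linarith
    _ = ((1 / 2 : ℝ) ^ (60 * j + 44)) ^ 4 := by
        rw [← pow_mul, show 40 * (6 * j + 2) + 100 = (60 * j + 44) * 4 + 4 by ring, pow_add,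
          show (1 / 2 : ℝ) ^ 4 = 1 / 16 by norm_num]
        ring

/-- long averages are small -/
lemma UU_small {i j : ℕ} (h : 6 * j + 3 ≤ i) :
    ‖Lm sh (q i) (UU j)‖ ≤ (1 / 2 : ℝ) ^ (27 * i + 69) * ‖UU j‖ := by
  have h1 := VV_decay (hRR j) (hTW j) (j + 1) (q_pos i)
  have h2 := q_ratio (show 6 * j + 2 < i by omega)
  refine norm_le_of_four (mul_nonneg (pow_nonneg (by norm_num) _) (norm_nonneg _)) (h1.trans ?_)
  rw [mul_pow]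
  refine mul_le_mul_of_nonneg_right ?_ (by positivity)
  have h3 : (8 * ((q (6 * j + 2) : ℕ) * 8 ^ (j + 1)) : ℝ) / (q i : ℕ) ≤
      (1 / 2 : ℝ) ^ (36 * i + 92) := by
    calc (8 * ((q (6 * j + 2) : ℕ) * 8 ^ (j + 1)) : ℝ) / (q i : ℕ)
        = 8 ^ (j + 2) * ((q (6 * j + 2) : ℝ) / q i) := by
          rw [pow_succ, pow_succ, pow_succ]; ring
      _ ≤ 8 ^ (j + 2) * (1 / 2 : ℝ) ^ (40 * i + 100) := mul_le_mul_of_nonneg_left h2 (by positivity)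
      _ = 2 ^ (3 * (j + 2)) * (1 / 2 : ℝ) ^ (3 * (j + 2) + (40 * i + 100 - 3 * (j + 2))) := by
          rw [eight_pow]; congr 2; omega
      _ = (1 / 2 : ℝ) ^ (40 * i + 100 - 3 * (j + 2)) := by
          rw [pow_add, ← mul_assoc, ← mul_pow]; norm_num
      _ ≤ (1 / 2 : ℝ) ^ (36 * i + 92) :=
          pow_le_pow_of_le_one (by norm_num) (by norm_num) (by omega)
  calc ((8 * ((q (6 * j + 2) : ℕ) * 8 ^ (j + 1)) : ℝ) / (q i : ℕ)) ^ 3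
      ≤ ((1 / 2 : ℝ) ^ (36 * i + 92)) ^ 3 := pow_le_pow_left₀ (by positivity) h3 3
    _ = ((1 / 2 : ℝ) ^ (27 * i + 69)) ^ 4 := by
        rw [← pow_mul, ← pow_mul]; congr 1; ring

lemma half_le {m n : ℕ} (h : m ≤ n) : (1 / 2 : ℝ) ^ n ≤ (1 / 2 : ℝ) ^ m :=
  pow_le_pow_of_le_one (by norm_num) (by norm_num) h

/-- differences of averages of the same kind are small -/
lemma UU_diff {i₁ i₂ i j : ℕ} (hij : i ≠ j) (h1 : 6 * i ≤ i₁) (h1' : i₁ ≤ 6 * i + 4)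
    (h2 : 6 * i ≤ i₂) (h2' : i₂ ≤ 6 * i + 4) :
    ‖Lm sh (q i₁) (UU j) - Lm sh (q i₂) (UU j)‖ ≤ (1 / 2 : ℝ) ^ (20 + i + j) * ‖UU j‖ := by
  have hU := norm_nonneg (UU j)
  rcases lt_or_gt_of_ne hij with h | h
  · have a1 := UU_smooth (show i₁ ≤ 6 * j + 1 by omega)
    have a2 := UU_smooth (show i₂ ≤ 6 * j + 1 by omega)
    have a3 : Lm sh (q i₁) (UU j) - Lm sh (q i₂) (UU j) =
        (Lm sh (q i₁) (UU j) - UU j) - (Lm sh (q i₂) (UU j) - UU j) := by abel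
    rw [a3]
    refine (norm_sub_le _ _).trans ?_
    have a4 : (1 / 2 : ℝ) ^ (60 * j + 44) * 2 ≤ (1 / 2 : ℝ) ^ (20 + i + j) := by
      calc (1 / 2 : ℝ) ^ (60 * j + 44) * 2 = (1 / 2 : ℝ) ^ (60 * j + 43) := by
            rw [show 60 * j + 44 = (60 * j + 43) + 1 by ring, pow_succ]; ring
        _ ≤ _ := half_le (by omega)
    nlinarith
  · have a1 := UU_small (show 6 * j + 3 ≤ i₁ by omega)
    have a2 := UU_small (show 6 * j + 3 ≤ i₂ by omega)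
    refine (norm_sub_le _ _).trans ?_
    have a3 : (1 / 2 : ℝ) ^ (27 * i₁ + 69) ≤ (1 / 2 : ℝ) ^ (21 + i + j) := half_le (by omega)
    have a4 : (1 / 2 : ℝ) ^ (27 * i₂ + 69) ≤ (1 / 2 : ℝ) ^ (21 + i + j) := half_le (by omega)
    have a5 : (1 / 2 : ℝ) ^ (20 + i + j) = (1 / 2 : ℝ) ^ (21 + i + j) * 2 := by
      rw [show 21 + i + j = (20 + i + j) + 1 by ring, pow_succ]; ring
    rw [a5]
    nlinarith

lemma UU_diag {i₁ i₂ j : ℕ} (h1 : i₁ ≤ 6 * j + 1) (h2 : 6 * j + 3 ≤ i₂) :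
    ‖(Lm sh (q i₁) (UU j) - Lm sh (q i₂) (UU j)) - UU j‖ ≤ (1 / 2 : ℝ) ^ (20 + j) * ‖UU j‖ := by
  have hU := norm_nonneg (UU j)
  have a1 := UU_smooth h1
  have a2 := UU_small h2
  have a3 : (Lm sh (q i₁) (UU j) - Lm sh (q i₂) (UU j)) - UU j =
      (Lm sh (q i₁) (UU j) - UU j) - Lm sh (q i₂) (UU j) := by abel
  rw [a3]
  refine (norm_sub_le _ _).trans ?_
  have a4 : (1 / 2 : ℝ) ^ (60 * j + 44) ≤ (1 / 2 : ℝ) ^ (21 + j) := half_le (by omega)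
  have a5 : (1 / 2 : ℝ) ^ (27 * i₂ + 69) ≤ (1 / 2 : ℝ) ^ (21 + j) := half_le (by omega)
  have a6 : (1 / 2 : ℝ) ^ (20 + j) = (1 / 2 : ℝ) ^ (21 + j) * 2 := by
    rw [show 21 + j = (20 + j) + 1 by ring, pow_succ]; ring
  rw [a6]
  nlinarith

lemma Dj_UU {i j : ℕ} (hij : i ≠ j) : ‖Dj sh i (UU j)‖ ≤ (1 / 2 : ℝ) ^ (20 + i + j) * ‖UU j‖ :=
  UU_diff hij (by omega) (by omega) (by omega) (by omega)

lemma Kj_UU {i j : ℕ} (hij : i ≠ j) : ‖Kj sh i (UU j)‖ ≤ (1 / 2 : ℝ) ^ (20 + i + j) * ‖UU j‖ :=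
  UU_diff hij (by omega) (by omega) (by omega) (by omega)

lemma Dj_UU_self (j : ℕ) : ‖Dj sh j (UU j) - UU j‖ ≤ (1 / 2 : ℝ) ^ (20 + j) * ‖UU j‖ :=
  UU_diag (by omega) (by omega)

lemma Kj_UU_self (j : ℕ) : ‖Kj sh j (UU j) - UU j‖ ≤ (1 / 2 : ℝ) ^ (20 + j) * ‖UU j‖ :=
  UU_diag (by omega) (by omega)

lemma Hj_UU (j : ℕ) : ‖Hj sh j (UU j) - (-(3 / 17) * Complex.I : ℂ) • UU j‖ ≤
    Real.sqrt (1 / (j + 1)) * ‖UU j‖ := by
  have h1 := ZZ_norm (hRR j) (hTW j) (j + 1)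
  have h2 := VV_norm (hRR j) (hTW j) (le_refl (q (6 * j + 2))) (j + 1)
  have hc : (((j + 1 : ℕ) : ℂ)) ≠ 0 := by exact_mod_cast (Nat.succ_ne_zero j)
  have h3 : Hj sh j (UU j) - (-(3 / 17) * Complex.I : ℂ) • UU j =
      (((j + 1 : ℕ) : ℂ))⁻¹ • ZZ (RR j) (q (6 * j + 2)) (j + 1) := by
    have h4 : Hj sh j = (((j + 1 : ℕ) : ℂ))⁻¹ • CC (RR j) (j + 1) := rfl
    unfold ZZ
    rw [h4, csmul_apply, add_apply, csmul_apply, one_apply_eq_self, smul_add, smul_smul, neg_mul,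
      neg_smul, sub_neg_eq_add]
    unfold UU
    congr 2
    field_simp
  rw [h3]
  refine norm_le_of_four (by positivity) ?_
  have hj : (0 : ℝ) < (j : ℝ) + 1 := by positivity
  rw [norm_smul, norm_inv, Complex.norm_natCast, mul_pow, mul_pow]
  have h5 : Real.sqrt (1 / ((j : ℝ) + 1)) ^ 4 = (1 / ((j : ℝ) + 1)) ^ 2 := by
    rw [show Real.sqrt (1 / ((j : ℝ) + 1)) ^ 4 = (Real.sqrt (1 / ((j : ℝ) + 1)) ^ 2) ^ 2 by ring,
      Real.sq_sqrt (by positivity)]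
  rw [h5]
  have h6 : ‖UU j‖ ^ 4 = 17 ^ (j + 1) * (q (6 * j + 2) : ℕ) := h2
  rw [h6]
  set Y : ℝ := 17 ^ (j + 1) * (q (6 * j + 2) : ℕ) with hY
  have hj' : (((j + 1 : ℕ) : ℝ)) = (j : ℝ) + 1 := by push_cast; ring
  rw [hj'] at h1 ⊢
  calc (((j : ℝ) + 1)⁻¹) ^ 4 * ‖ZZ (RR j) (q (6 * j + 2)) (j + 1)‖ ^ 4
      ≤ (((j : ℝ) + 1)⁻¹) ^ 4 * (((j : ℝ) + 1) ^ 2 * Y) :=
        mul_le_mul_of_nonneg_left h1 (by positivity)
    _ = (1 / ((j : ℝ) + 1)) ^ 2 * Y := by field_simp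

lemma geom_fin (J : ℕ) (C : ℝ) (hC : 0 ≤ C) (j : ℕ) :
    ∑ i ∈ (range J).erase j, (1 / 2 : ℝ) ^ (20 + i + j) * C ≤ 2 * (1 / 2 : ℝ) ^ (20 + j) * C := by
  calc ∑ i ∈ (range J).erase j, (1 / 2 : ℝ) ^ (20 + i + j) * C
      ≤ ∑ i ∈ range J, (1 / 2 : ℝ) ^ (20 + i + j) * C :=
        sum_le_sum_of_subset_of_nonneg (erase_subset _ _) fun _ _ _ => by positivity
    _ = (∑ i ∈ range J, (1 / 2 : ℝ) ^ i) * ((1 / 2 : ℝ) ^ (20 + j) * C) := by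
        rw [sum_mul]
        refine sum_congr rfl fun i _ => ?_
        rw [← mul_assoc, ← pow_add]
        congr 2
        ring
    _ ≤ 2 * ((1 / 2 : ℝ) ^ (20 + j) * C) :=
        mul_le_mul_of_nonneg_right (geom_half_le sh_rep J) (by positivity)
    _ = _ := by ring

lemma G1_UU {j J : ℕ} (hj : j < J) :
    ‖G1 sh J (UU j) - sh (Nn j) (UU j)‖ ≤ 3 * (1 / 2 : ℝ) ^ (20 + j) * ‖UU j‖ := by
  have h1 : G1 sh J (UU j) - sh (Nn j) (UU j) = sh (Nn j) (Dj sh j (UU j) - UU j) +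
      ∑ i ∈ (range J).erase j, sh (Nn i) (Dj sh i (UU j)) := by
    unfold G1
    rw [_root_.sum_apply, ← add_sum_erase (range J) _ (mem_range.mpr hj), map_sub]
    simp only [mul_apply_eq_comp]
    abel
  rw [h1]
  refine (norm_add_le _ _).trans ?_
  have h2 : ‖∑ i ∈ (range J).erase j, sh (Nn i) (Dj sh i (UU j))‖ ≤
      2 * (1 / 2 : ℝ) ^ (20 + j) * ‖UU j‖ := by
    refine (norm_sum_le _ _).trans (le_trans (sum_le_sum fun i hi => ?_)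
      (geom_fin J ‖UU j‖ (norm_nonneg _) j))
    rw [sh_norm]
    exact Dj_UU (ne_of_mem_erase hi)
  have h3 := Dj_UU_self j
  rw [sh_norm]
  linarith

lemma G2_UU {j J : ℕ} (hj : j < J) :
    ‖G2 sh J (UU j) - (-(3 / 17) * Complex.I : ℂ) • sh (Nn j) (UU j)‖ ≤
      (3 * (1 / 2 : ℝ) ^ (20 + j) + Real.sqrt (1 / (j + 1))) * ‖UU j‖ := by
  have h1 : G2 sh J (UU j) - (-(3 / 17) * Complex.I : ℂ) • sh (Nn j) (UU j) =
      sh (Nn j) (Hj sh j (Kj sh j (UU j) - UU j)) +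
      sh (Nn j) (Hj sh j (UU j) - (-(3 / 17) * Complex.I : ℂ) • UU j) +
      ∑ i ∈ (range J).erase j, sh (Nn i) (Hj sh i (Kj sh i (UU j))) := by
    unfold G2
    rw [_root_.sum_apply, ← add_sum_erase (range J) _ (mem_range.mpr hj), map_sub, map_sub,
      map_sub, map_smul]
    simp only [mul_apply_eq_comp]
    abel
  rw [h1]
  refine (norm_add_le _ _).trans ?_
  have hH : ∀ i (u : X), ‖Hj sh i u‖ ≤ ‖u‖ := fun i u => by
    have := (Hj sh i).le_opNorm u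
    have h2 := mul_le_mul_of_nonneg_right (sh_rep.Hj_norm i) (norm_nonneg u)
    linarith
  have h2 : ‖∑ i ∈ (range J).erase j, sh (Nn i) (Hj sh i (Kj sh i (UU j)))‖ ≤
      2 * (1 / 2 : ℝ) ^ (20 + j) * ‖UU j‖ := by
    refine (norm_sum_le _ _).trans (le_trans (sum_le_sum fun i hi => ?_)
      (geom_fin J ‖UU j‖ (norm_nonneg _) j))
    rw [sh_norm]
    exact (hH _ _).trans (Kj_UU (ne_of_mem_erase hi))
  have h3 := norm_add_le (sh (Nn j) (Hj sh j (Kj sh j (UU j) - UU j)))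
    (sh (Nn j) (Hj sh j (UU j) - (-(3 / 17) * Complex.I : ℂ) • UU j))
  rw [sh_norm, sh_norm] at h3
  have h4 := (hH j _).trans (Kj_UU_self j)
  have h5 := Hj_UU j
  linarith

variable {𝒢₁ 𝒢₂ 𝒢ₘ 𝒟 : X →L[ℂ] X} (hL : Lims 𝒢₁ 𝒢₂ 𝒢ₘ 𝒟)

include hL

lemma Lims.UU1 (j : ℕ) :
    ‖𝒢₁ (UU j) - sh (Nn j) (UU j)‖ ≤ 3 * (1 / 2 : ℝ) ^ (20 + j) * ‖UU j‖ :=
  le_of_tendsto ((hL.l1 (UU j)).sub_const _).norm
    ((eventually_gt_atTop j).mono fun _ hJ => G1_UU hJ)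

lemma Lims.UU2 (j : ℕ) :
    ‖𝒢₂ (UU j) - (-(3 / 17) * Complex.I : ℂ) • sh (Nn j) (UU j)‖ ≤
      (3 * (1 / 2 : ℝ) ^ (20 + j) + Real.sqrt (1 / (j + 1))) * ‖UU j‖ :=
  le_of_tendsto ((hL.l2 (UU j)).sub_const _).norm
    ((eventually_gt_atTop j).mono fun _ hJ => G2_UU hJ)

end Pool.Agent.H33.Cor
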