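import Pool.Agent.H33.Cor.Alg
import Pool.Agent.H33.Cor.Line

set_option autoImplicit false
set_option linter.unusedSectionVars false

/-! The space `ℓ⁴(ℤ)` and the shifts. -/

namespace Pool.Agent.H33.Cor

open Finset Filter Topology
open scoped ENNReal

instance fact4 : Fact ((1 : ℝ≥0∞) ≤ 4) := ⟨by norm_num⟩

/-- the space `ℓ⁴(ℤ)` -/
def X : Type := lp (fun _ : ℤ => ℂ) 4

noncomputable instance : NormedAddCommGroup X :=
  inferInstanceAs (NormedAddCommGroup (lp (fun _ : ℤ => ℂ) 4))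

noncomputable instance : NormedSpace ℂ X :=
  inferInstanceAs (NormedSpace ℂ (lp (fun _ : ℤ => ℂ) 4))

instance : CompleteSpace X := inferInstanceAs (CompleteSpace (lp (fun _ : ℤ => ℂ) 4))

/-- the coordinates -/
def X.toF (u : X) : ℤ → ℂ := (show lp (fun _ : ℤ => ℂ) 4 from u).1

instance : CoeFun X (fun _ => ℤ → ℂ) := ⟨X.toF⟩

lemma toReal4 : (4 : ℝ≥0∞).toReal = ((4 : ℕ) : ℝ) := by norm_num

lemma norm4 (u : X) : ‖u‖ ^ 4 = ∑' x, ‖u x‖ ^ 4 := by
  have h := lp.norm_rpow_eq_tsum (p := 4) (E := fun _ : ℤ => ℂ) (by norm_num)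
    (show lp (fun _ : ℤ => ℂ) 4 from u)
  rw [toReal4] at h
  simp only [Real.rpow_natCast] at h
  exact h

lemma summable4 (u : X) : Summable fun x => ‖u x‖ ^ 4 := by
  have h := (lp.memℓp (show lp (fun _ : ℤ => ℂ) 4 from u)).summable (by norm_num)
  rw [toReal4] at h
  simp only [Real.rpow_natCast] at h
  exact h

lemma mem4 {f : ℤ → ℂ} (h : Summable fun x => ‖f x‖ ^ 4) : Memℓp f 4 := by
  apply memℓp_gen
  rw [toReal4]
  simp only [Real.rpow_natCast]
  exact h

/-- a vector from its coordinates -/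
def mkX (f : ℤ → ℂ) (h : Summable fun x => ‖f x‖ ^ 4) : X :=
  show lp (fun _ : ℤ => ℂ) 4 from ⟨f, mem4 h⟩

lemma mkX_apply (f : ℤ → ℂ) (h : Summable fun x => ‖f x‖ ^ 4) (x : ℤ) : mkX f h x = f x := rfl

@[ext] lemma X.ext {u v : X} (h : ∀ x, u x = v x) : u = v :=
  Subtype.ext (funext h)

lemma add_apply' (u v : X) (x : ℤ) : (u + v) x = u x + v x := rfl
lemma sub_apply' (u v : X) (x : ℤ) : (u - v) x = u x - v x := rfl
lemma neg_apply' (u : X) (x : ℤ) : (-u) x = -u x := rfl
lemma zero_apply' (x : ℤ) : (0 : X) x = 0 := rfl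
lemma smul_apply' (c : ℂ) (u : X) (x : ℤ) : (c • u) x = c * u x := rfl

/-- the coordinate functionals, as additive maps -/
def coordHom (x : ℤ) : X →+ ℂ where
  toFun u := u x
  map_zero' := rfl
  map_add' _ _ := rfl

lemma sum_apply' {ι : Type*} (s : Finset ι) (f : ι → X) (x : ℤ) :
    (∑ i ∈ s, f i : X) x = ∑ i ∈ s, (f i) x := map_sum (coordHom x) f s

lemma norm_coord_le (u : X) (x : ℤ) : ‖u x‖ ≤ ‖u‖ :=
  lp.norm_apply_le_norm (by norm_num) (show lp (fun _ : ℤ => ℂ) 4 from u) x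

lemma norm_le_of_four {a b : ℝ} (hb : 0 ≤ b) (h : a ^ 4 ≤ b ^ 4) : a ≤ b := by
  by_contra hcon
  push Not at hcon
  exact absurd h (not_le.mpr (pow_lt_pow_left₀ hcon hb (by norm_num)))

lemma summable_shift (n : ℤ) (u : X) : Summable fun x => ‖u (x - n)‖ ^ 4 := by
  have h := (Equiv.subRight n).summable_iff (f := fun x : ℤ => ‖u x‖ ^ 4)
  exact h.mpr (summable4 u)

/-- translation by `n`, as a linear map -/
noncomputable def shL (n : ℤ) : X →ₗ[ℂ] X where
  toFun u := mkX (fun x => u (x - n)) (summable_shift n u)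
  map_add' u v := by ext x; rfl
  map_smul' c u := by ext x; rfl

lemma shL_norm (n : ℤ) (u : X) : ‖shL n u‖ = ‖u‖ := by
  have h : ‖shL n u‖ ^ 4 = ‖u‖ ^ 4 := by
    rw [norm4, norm4]
    exact (Equiv.subRight n).tsum_eq (fun x => ‖u x‖ ^ 4)
  exact (pow_left_inj₀ (norm_nonneg _) (norm_nonneg _) (by norm_num)).mp h

/-- translation by `n` -/
noncomputable def sh (n : ℤ) : X →L[ℂ] X := (shL n).mkContinuous 1 fun u => by
  rw [shL_norm, one_mul]

lemma sh_apply (n : ℤ) (u : X) (x : ℤ) : (sh n u) x = u (x - n) := rfl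

lemma sh_norm (n : ℤ) (u : X) : ‖sh n u‖ = ‖u‖ := shL_norm n u

lemma sh_rep : Rep sh where
  zero := by
    ext u x
    rw [sh_apply, sub_zero]; rfl
  add m n := by
    ext u x
    rw [mul_apply_eq_comp, sh_apply, sh_apply, sh_apply, sub_sub]
  norm n := (shL n).mkContinuous_norm_le zero_le_one _

/-- the unit vectors -/
noncomputable def ee (k : ℤ) : X := show lp (fun _ : ℤ => ℂ) 4 from lp.single 4 k (1 : ℂ)

lemma ee_apply (k x : ℤ) : ee k x = if x = k then 1 else 0 := by
  have h : ee k x = Pi.single (M := fun _ : ℤ => ℂ) k 1 x :=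
    lp.single_apply (E := fun _ : ℤ => ℂ) 4 k 1 x
  rw [h, Pi.single_apply]

lemma sh_ee (n k : ℤ) : sh n (ee k) = ee (k + n) := by
  ext x
  rw [sh_apply, ee_apply, ee_apply]
  simp only [sub_eq_iff_eq_add]

lemma hasSum_ee (u : X) : HasSum (fun k => u k • ee k) u := by
  have h := lp.hasSum_single (E := fun _ : ℤ => ℂ) (p := 4) (by norm_num)
    (show lp (fun _ : ℤ => ℂ) 4 from u)
  have h2 : (fun k => (u k • ee k : X)) =
      fun k => (lp.single 4 k (u k) : lp (fun _ : ℤ => ℂ) 4) := by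
    funext k
    refine X.ext fun x => ?_
    rw [smul_apply', ee_apply]
    have h3 : X.toF (lp.single 4 k (u k) : lp (fun _ : ℤ => ℂ) 4) x =
        Pi.single (M := fun _ : ℤ => ℂ) k (u k) x :=
      lp.single_apply (E := fun _ : ℤ => ℂ) 4 k (u k) x
    rw [h3, Pi.single_apply]
    split_ifs <;> simp
  rw [h2]
  exact h

lemma sum_ee_apply (s : Finset ℤ) (c : ℤ → ℂ) (x : ℤ) :
    (∑ k ∈ s, c k • ee k : X) x = if x ∈ s then c x else 0 := by
  rw [sum_apply']
  simp only [smul_apply', ee_apply, mul_ite, mul_one, mul_zero]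
  rw [Finset.sum_ite_eq]

lemma norm4_sum_ee (s : Finset ℤ) (c : ℤ → ℂ) :
    ‖(∑ k ∈ s, c k • ee k : X)‖ ^ 4 = ∑ k ∈ s, ‖c k‖ ^ 4 := by
  rw [norm4]
  simp only [sum_ee_apply]
  rw [tsum_eq_sum (s := s)]
  · exact sum_congr rfl fun k hk => by rw [if_pos hk]
  · intro k hk; rw [if_neg hk]; simp

/-- closed conditions can be checked on finitely supported vectors -/
lemma fin_dense {P : X → Prop} (hP : IsClosed {u | P u})
    (h : ∀ (s : Finset ℤ) (c : ℤ → ℂ), P (∑ k ∈ s, c k • ee k)) (u : X) : P u := by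
  have h1 := hasSum_ee u
  exact hP.mem_of_tendsto h1 (Eventually.of_forall fun s => h s _)

/-- strong limits of uniformly bounded operators that converge on unit vectors -/
lemma strong_limit (T : ℕ → X →L[ℂ] X) (C : ℝ) (hC : 0 ≤ C) (hT : ∀ J, ‖T J‖ ≤ C)
    (hc : ∀ k, CauchySeq fun J => T J (ee k)) :
    ∃ G : X →L[ℂ] X, ‖G‖ ≤ C ∧ ∀ u, Tendsto (fun J => T J u) atTop (𝓝 (G u)) := by
  have h1 : ∀ u : X, CauchySeq fun J => T J u := by
    intro u
    rw [Metric.cauchySeq_iff']
    intro ε hε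
    have h2 := hasSum_ee u
    have h3 : ∀ᶠ s : Finset ℤ in atTop, dist (∑ k ∈ s, u k • ee k) u < ε / (4 * (C + 1)) :=
      h2.eventually (Metric.ball_mem_nhds u (by positivity))
    obtain ⟨s, hs⟩ := h3.exists
    set v : X := ∑ k ∈ s, u k • ee k with hv
    have h4 : CauchySeq fun J => T J v := by
      have h5 : (fun J => T J v) = fun J => ∑ k ∈ s, u k • T J (ee k) := by
        funext J
        rw [hv, map_sum]
        exact sum_congr rfl fun k _ => by rw [map_smul]
      rw [h5]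
      have h6 : ∀ k, ∃ w, Tendsto (fun J => T J (ee k)) atTop (𝓝 w) := fun k =>
        cauchySeq_tendsto_of_complete (hc k)
      choose w hw using h6
      exact (tendsto_finsetSum s fun k _ => (hw k).const_smul (u k)).cauchySeq
    rw [Metric.cauchySeq_iff'] at h4
    obtain ⟨N, hN⟩ := h4 (ε / 2) (by positivity)
    refine ⟨N, fun n hn => ?_⟩
    have h5 : ∀ J, dist (T J u) (T J v) ≤ C * (ε / (4 * (C + 1))) := by
      intro J
      rw [dist_eq_norm, ← map_sub]
      refine ((T J).le_opNorm _).trans ?_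
      rw [← dist_eq_norm, dist_comm]
      exact mul_le_mul (hT J) hs.le dist_nonneg hC
    have h6 : C * (ε / (4 * (C + 1))) < ε / 4 := by
      rw [mul_div_assoc', div_lt_div_iff₀ (by positivity) (by norm_num)]
      nlinarith
    have h7 := h5 n
    have h8 := h5 N
    have h9 := hN n hn
    have h10 := dist_triangle (T n u) (T n v) (T N u)
    have h11 := dist_triangle (T n v) (T N v) (T N u)
    rw [dist_comm (T N v)] at h11
    linarith
  have h2 : ∀ u, ∃ w, Tendsto (fun J => T J u) atTop (𝓝 w) := fun u =>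
    cauchySeq_tendsto_of_complete (h1 u)
  choose g hg using h2
  have hb : ∀ u, ‖g u‖ ≤ C * ‖u‖ := fun u =>
    le_of_tendsto (hg u).norm (Eventually.of_forall fun J =>
      ((T J).le_opNorm u).trans (mul_le_mul_of_nonneg_right (hT J) (norm_nonneg u)))
  let G₀ : X →ₗ[ℂ] X :=
    { toFun := g
      map_add' := fun u v => by
        refine tendsto_nhds_unique (hg (u + v)) ?_
        have := (hg u).add (hg v)
        simp only [← map_add] at this
        exact this
      map_smul' := fun c u => by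
        refine tendsto_nhds_unique (hg (c • u)) ?_
        have := (hg u).const_smul c
        simp only [← map_smul] at this
        exact this }
  exact ⟨G₀.mkContinuous C hb, G₀.mkContinuous_norm_le hC hb, hg⟩

/-! ### pointwise formulas -/

lemma csmul_apply (c : ℂ) (T : X →L[ℂ] X) (u : X) : (c • T) u = c • (T u) := rfl

lemma Lm_apply (L : ℕ) (u : X) (x : ℤ) : (Lm sh L u) x = LamZ L (fun y => u y) x := by
  unfold Lm LamZ
  rw [csmul_apply, _root_.sum_apply]
  simp only [_root_.sum_apply]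
  rw [smul_apply', sum_apply', Complex.real_smul, Complex.ofReal_inv, Complex.ofReal_pow,
    Complex.ofReal_natCast]
  congr 1
  refine sum_congr rfl fun p _ => ?_
  rw [sum_apply']
  refine sum_congr rfl fun s _ => ?_
  rw [sh_apply, sub_sub_eq_add_sub, add_sub_right_comm]

end Pool.Agent.H33.Cor
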