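import Pool.Agent.H33.Cor.Cyc

set_option autoImplicit false
set_option linter.unusedSectionVars false

/-! The translation lemma on `ZMod M`. -/

namespace Pool.Agent.H33.Cor

open Finset

section gen

variable {α : Type*} [Fintype α]

lemma var_le (π : α → ℕ) (f : α → ℂ) (x : α) :
    Av π (fun y => ‖f y - Av π f y‖ ^ 2) x ≤ Av π (fun y => ‖f y‖ ^ 2) x := by
  have h1 : Av π (fun y => ‖f y - Av π f y‖ ^ 2) x =
      Av π (fun y => ‖f y - Av π f x‖ ^ 2) x := by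
    unfold Av
    congr 1
    refine sum_congr rfl fun y hy => ?_
    beta_reduce
    rw [blk_eq (mem_blk.mp hy)]
  rw [h1]
  set m := Av π f x with hm
  have h2 : ∀ y, ‖f y - m‖ ^ 2 = ‖f y‖ ^ 2 - 2 * ((starRingEnd ℂ) m * f y).re + ‖m‖ ^ 2 := by
    intro y
    rw [← Complex.normSq_eq_norm_sq, ← Complex.normSq_eq_norm_sq, ← Complex.normSq_eq_norm_sq,
      Complex.normSq_apply, Complex.normSq_apply, Complex.normSq_apply]
    simp
    ring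
  have hc : (0 : ℝ) < (blk π x).card := by exact_mod_cast blk_card_pos π x
  have h3 : ∑ y ∈ blk π x, f y = ((blk π x).card : ℂ) * m := by
    rw [hm]
    unfold Av
    rw [Complex.real_smul]
    push_cast
    have : ((blk π x).card : ℂ) ≠ 0 := by exact_mod_cast hc.ne'
    field_simp
  unfold Av
  simp only [smul_eq_mul]
  refine mul_le_mul_of_nonneg_left ?_ (by positivity)
  simp only [h2]
  rw [sum_add_distrib, sum_sub_distrib, ← mul_sum, ← Complex.re_sum, ← mul_sum, h3, sum_const,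
    nsmul_eq_mul]
  have h4 : ((starRingEnd ℂ) m * (((blk π x).card : ℂ) * m)).re =
      ((blk π x).card : ℝ) * ‖m‖ ^ 2 := by
    rw [← Complex.normSq_eq_norm_sq, Complex.normSq_apply]
    simp
    ring
  rw [h4]
  nlinarith [sq_nonneg ‖m‖, hc, mul_nonneg hc.le (sq_nonneg ‖m‖)]

lemma four_add (a b : ℂ) : ‖a + b‖ ^ 4 ≤ 8 * ‖a‖ ^ 4 + 8 * ‖b‖ ^ 4 := by
  have h1 := norm_add_le a b
  have ha := norm_nonneg a
  have hb := norm_nonneg b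
  have h2 : ‖a + b‖ ^ 4 ≤ (‖a‖ + ‖b‖) ^ 4 := pow_le_pow_left₀ (norm_nonneg _) h1 4
  have h3 : (‖a‖ + ‖b‖) ^ 2 ≤ 2 * (‖a‖ ^ 2 + ‖b‖ ^ 2) := by nlinarith [sq_nonneg (‖a‖ - ‖b‖)]
  have h4 : (‖a‖ + ‖b‖) ^ 4 ≤ 4 * (‖a‖ ^ 2 + ‖b‖ ^ 2) ^ 2 := by
    calc (‖a‖ + ‖b‖) ^ 4 = ((‖a‖ + ‖b‖) ^ 2) ^ 2 := by ring
      _ ≤ (2 * (‖a‖ ^ 2 + ‖b‖ ^ 2)) ^ 2 := pow_le_pow_left₀ (by positivity) h3 2
      _ = _ := by ring
  nlinarith [sq_nonneg (‖a‖ ^ 2 - ‖b‖ ^ 2)]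

lemma four_sub (a b : ℂ) : ‖a - b‖ ^ 4 ≤ 8 * ‖a‖ ^ 4 + 8 * ‖b‖ ^ 4 := by
  have := four_add a (-b)
  rwa [← sub_eq_add_neg, norm_neg] at this

lemma sum_norm_four_Av_le (π : α → ℕ) {ψ : α → ℝ} (h0 : ∀ x, 0 ≤ ψ x)
    (hψ : ∀ x y, π x = π y → ψ x = ψ y) (f : α → ℂ) :
    ∑ x, ψ x * ‖Av π f x‖ ^ 4 ≤ ∑ x, ψ x * ‖f x‖ ^ 4 := by
  rw [← sum_mul_Av π (f := fun x => ‖f x‖ ^ 4) hψ]
  exact sum_le_sum fun x _ => mul_le_mul_of_nonneg_left (norm_four_Av_le π f x) (h0 x)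

/-- weighted Hölder inequality for fourth powers -/
lemma four_sum_le (y : ℕ → ℝ) (hy : ∀ j, 0 ≤ y j) (J : ℕ) :
    (∑ j ∈ range J, y j) ^ 4 ≤ ∑ j ∈ range J, 8 ^ (j + 1) * y j ^ 4 := by
  suffices H : ∀ (J : ℕ) (y : ℕ → ℝ), (∀ j, 0 ≤ y j) →
      (∑ j ∈ range J, y j) ^ 4 ≤ ∑ j ∈ range J, 8 ^ (j + 1) * y j ^ 4 from H J y hy
  intro J
  induction J with
  | zero => intro y _; simp
  | succ J ih =>
      intro y hy
      rw [sum_range_succ', sum_range_succ' (fun j => (8 : ℝ) ^ (j + 1) * y j ^ 4)]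
      have h1 := ih (fun j => y (j + 1)) (fun j => hy _)
      set s := ∑ j ∈ range J, y (j + 1) with hs
      have hs0 : 0 ≤ s := sum_nonneg fun j _ => hy _
      have h2 : ∑ j ∈ range J, (8 : ℝ) ^ (j + 1 + 1) * y (j + 1) ^ 4 =
          8 * ∑ j ∈ range J, 8 ^ (j + 1) * y (j + 1) ^ 4 := by
        rw [mul_sum]
        exact sum_congr rfl fun j _ => by ring
      rw [h2]
      have h3 : (s + y 0) ^ 4 ≤ 8 * s ^ 4 + 8 * y 0 ^ 4 := by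
        have ha := hs0
        have hb := hy 0
        have h4 : (s + y 0) ^ 2 ≤ 2 * (s ^ 2 + y 0 ^ 2) := by nlinarith [sq_nonneg (s - y 0)]
        have h5 : (s + y 0) ^ 4 ≤ 4 * (s ^ 2 + y 0 ^ 2) ^ 2 := by
          calc (s + y 0) ^ 4 = ((s + y 0) ^ 2) ^ 2 := by ring
            _ ≤ (2 * (s ^ 2 + y 0 ^ 2)) ^ 2 := pow_le_pow_left₀ (by positivity) h4 2
            _ = _ := by ring
        nlinarith [sq_nonneg (s ^ 2 - y 0 ^ 2)]
      have h6 : (8 : ℝ) ^ (0 + 1) * y 0 ^ 4 = 8 * y 0 ^ 4 := by ring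
      rw [h6]
      linarith

end gen

/-- the compatibility conditions on the scales -/
structure Scales (A B ρ : ℕ → ℕ) : Prop where
  hA0 : ∀ j, 0 < A j
  hB0 : ∀ j, 0 < B j
  hAB : ∀ j, A j ∣ B j
  hBA : ∀ j, B j ∣ A (j + 1)
  hBρ : ∀ j, B j ∣ ρ j
  hρA : ∀ j, ρ j ≤ A (j + 1)

variable {M : ℕ} [NeZero M]

/-- the difference of the two averages -/
noncomputable def dd (A B : ℕ) (v : ZMod M → ℂ) (x : ZMod M) : ℂ :=
  Av (lab A) v x - Av (lab B) v x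

lemma Av_Av_lab {L L' : ℕ} (h : L ∣ L') {V : Type*} [CommRing V] [Algebra ℝ V]
    (f : ZMod M → V) (x : ZMod M) :
    Av (lab L') (Av (lab L) f) x = Av (lab L') f x :=
  Av_Av (fun _ _ hxy => lab_nested h hxy) f x

lemma Scales.dvd_A {A B ρ : ℕ → ℕ} (hS : Scales A B ρ) (j : ℕ) : A j ∣ A (j + 1) :=
  (hS.hAB j).trans (hS.hBA j)

lemma Scales.dvd_A' {A B ρ : ℕ → ℕ} (hS : Scales A B ρ) {i j : ℕ} (h : i ≤ j) : A i ∣ A j := by
  induction j, h using Nat.le_induction with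
  | base => exact dvd_rfl
  | succ j _ ih => exact ih.trans (hS.dvd_A j)

lemma dd_eq {A B ρ : ℕ → ℕ} (hS : Scales A B ρ) (j : ℕ) (v : ZMod M → ℂ) (x : ZMod M) :
    dd (A j) (B j) v x = Df (fun j => lab (A j)) v j x -
      Av (lab (B j)) (Df (fun j => lab (A j)) v j) x := by
  have h1 : Df (fun j => lab (A j)) v j = fun x => Av (lab (A j)) v x - Av (lab (A (j + 1))) v x :=
    rfl
  rw [h1, Av_sub]
  beta_reduce
  have h2 : Av (lab (B j)) (fun y => Av (lab (A j)) v y) x = Av (lab (B j)) v x :=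
    Av_Av_lab (hS.hAB j) v x
  have h3 : Av (lab (B j)) (fun y => Av (lab (A (j + 1))) v y) x = Av (lab (A (j + 1))) v x :=
    Av_Av' (fun _ _ hxy => lab_nested (hS.hBA j) hxy) v x
  rw [h2, h3]
  unfold dd
  ring

lemma mart_part {A B ρ : ℕ → ℕ} (hS : Scales A B ρ) (r : ℕ → ℕ) (hAr : ∀ j, A j ∣ r j)
    (hrρ : ∀ j, r j ≤ ρ j) (J : ℕ) (hM : A J ∣ M) (v : ZMod M → ℂ) :
    ∑ x, ‖∑ j ∈ range J, dd (A j) (B j) v (rot (A (j + 1)) (A (j + 1) - r j) x)‖ ^ 4 ≤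
      1296 * ∑ x, ‖v x‖ ^ 4 := by
  have hnest : ∀ (j : ℕ) (x y : ZMod M), (fun j => lab (A j)) j x = (fun j => lab (A j)) j y →
      (fun j => lab (A j)) (j + 1) x = (fun j => lab (A j)) (j + 1) y :=
    fun j x y h => lab_nested (hS.dvd_A j) h
  have hMj : ∀ j ≤ J, A j ∣ M := fun j hj => (hS.dvd_A' hj).trans hM
  have hc : ∀ j, (A (j + 1) - r j) + r j = A (j + 1) := fun j =>
    Nat.sub_add_cancel ((hrρ j).trans (hS.hρA j))
  refine four_moment (π := fun j => lab (A j)) hnest v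
    (fun j x => dd (A j) (B j) v (rot (A (j + 1)) (A (j + 1) - r j) x)) J ?_ ?_ ?_ ?_
  · intro j hj x y hxy
    have h1 : lab (A j) (rot (A (j + 1)) (A (j + 1) - r j) x) =
        lab (A j) (rot (A (j + 1)) (A (j + 1) - r j) y) :=
      lab_rot' (hS.hA0 _) (hMj _ hj) (hS.dvd_A j) (Nat.dvd_sub (hS.dvd_A j) (hAr j)) hxy
    beta_reduce
    unfold dd
    rw [Av_congr_label _ h1, Av_congr_label _ (lab_nested (hS.hAB j) h1)]
  · intro j hj x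
    rw [Av_comp_rot (hS.hA0 _) (hMj _ hj) (hc j) (dd (A j) (B j) v)]
    have h1 : dd (A j) (B j) v = fun x => Av (lab (A j)) v x - Av (lab (B j)) v x := rfl
    rw [h1, Av_sub]
    have h2 : Av (lab (A (j + 1))) (fun y => Av (lab (A j)) v y) x = Av (lab (A (j + 1))) v x :=
      Av_Av_lab (hS.dvd_A j) v x
    have h3 : Av (lab (A (j + 1))) (fun y => Av (lab (B j)) v y) x = Av (lab (A (j + 1))) v x :=
      Av_Av_lab (hS.hBA j) v x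
    rw [h2, h3, sub_self]
  · intro j hj x
    have h0 := Av_comp_rot (hS.hA0 _) (hMj _ hj) (hc j) (fun y => ‖dd (A j) (B j) v y‖ ^ 2) x
    beta_reduce at h0 ⊢
    rw [h0]
    unfold sg
    beta_reduce
    rw [← Av_Av_lab (hS.hBA j), ← Av_Av_lab (hS.hBA j) (fun y => ‖Df _ v j y‖ ^ 2)]
    refine Av_mono _ (fun y => ?_) x
    have h1 := var_le (lab (B j)) (Df (fun j => lab (A j)) v j) y
    simp only [← dd_eq hS] at h1
    exact h1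
  · intro j hj
    beta_reduce
    have h1 : ∑ x, ‖dd (A j) (B j) v (rot (A (j + 1)) (A (j + 1) - r j) x)‖ ^ 4 =
        ∑ x, ‖dd (A j) (B j) v x‖ ^ 4 :=
      Equiv.sum_comp (rotEquiv (hS.hA0 (j + 1)) (hMj _ hj) (hc j))
        (fun x => ‖dd (A j) (B j) v x‖ ^ 4)
    rw [h1]
    have h2 : ∑ x, ‖dd (A j) (B j) v x‖ ^ 4 ≤ ∑ x, (8 * ‖Df (fun j => lab (A j)) v j x‖ ^ 4 +
        8 * ‖Av (lab (B j)) (Df (fun j => lab (A j)) v j) x‖ ^ 4) := by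
      refine sum_le_sum fun x _ => ?_
      rw [dd_eq hS]
      exact four_sub _ _
    refine h2.trans ?_
    rw [sum_add_distrib, ← mul_sum, ← mul_sum]
    have h3 := sum_norm_four_Av_le (lab (B j)) (ψ := fun _ => (1 : ℝ)) (fun _ => zero_le_one)
      (fun _ _ _ => rfl) (Df (fun j => lab (A j)) v j)
    simp only [one_mul] at h3
    linarith

/-- the boundary error for one scale -/
lemma err_part {A B ρ : ℕ → ℕ} (hS : Scales A B ρ) (r : ℕ → ℕ)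
    (hrρ : ∀ j, r j ≤ ρ j) (j : ℕ) (hM : A (j + 1) ∣ M) (v : ZMod M → ℂ) :
    ∑ x, ‖dd (A j) (B j) v (x - (r j : ZMod M)) -
      dd (A j) (B j) v (rot (A (j + 1)) (A (j + 1) - r j) x)‖ ^ 4 ≤
      256 * ∑ x, endInd (A (j + 1)) (ρ j) x * ‖v x‖ ^ 4 := by
  set d := dd (A j) (B j) v with hd
  set E : ZMod M → ℝ := endInd (A (j + 1)) (ρ j) with hE
  have hE0 : ∀ x, 0 ≤ E x := endInd_nonneg _ _
  have hc : (A (j + 1) - r j) + r j = A (j + 1) := Nat.sub_add_cancel ((hrρ j).trans (hS.hρA j))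
  have h1 : ∀ x : ZMod M, ‖d (x - (r j : ZMod M)) - d (rot (A (j + 1)) (A (j + 1) - r j) x)‖ ^ 4 ≤
      8 * (E (x - (r j : ZMod M)) * ‖d (x - (r j : ZMod M))‖ ^ 4) +
      8 * (E (rot (A (j + 1)) (A (j + 1) - r j) x) *
        ‖d (rot (A (j + 1)) (A (j + 1) - r j) x)‖ ^ 4) := by
    intro x
    rcases rot_cases (hS.hA0 (j + 1)) hM (hrρ j) (hS.hρA j) x with h | ⟨ha, hb⟩
    · rw [h, sub_self, norm_zero]
      have := mul_nonneg (hE0 (x - (r j : ZMod M)))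
        (pow_nonneg (norm_nonneg (d (x - (r j : ZMod M)))) 4)
      nlinarith
    · rw [hE, ha, hb, one_mul, one_mul]
      exact four_sub _ _
  refine (sum_le_sum fun x _ => h1 x).trans ?_
  rw [sum_add_distrib, ← mul_sum, ← mul_sum]
  have h2 : ∑ x, E (x - (r j : ZMod M)) * ‖d (x - (r j : ZMod M))‖ ^ 4 = ∑ x, E x * ‖d x‖ ^ 4 :=
    (Equiv.subRight (r j : ZMod M)).sum_comp (fun x => E x * ‖d x‖ ^ 4)
  have h3 : ∑ x, E (rot (A (j + 1)) (A (j + 1) - r j) x) *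
        ‖d (rot (A (j + 1)) (A (j + 1) - r j) x)‖ ^ 4 = ∑ x, E x * ‖d x‖ ^ 4 :=
    Equiv.sum_comp (rotEquiv (hS.hA0 (j + 1)) hM hc) (fun x => E x * ‖d x‖ ^ 4)
  rw [h2, h3]
  have h4 : ∑ x, E x * ‖d x‖ ^ 4 ≤ ∑ x, (8 * (E x * ‖Av (lab (A j)) v x‖ ^ 4) +
      8 * (E x * ‖Av (lab (B j)) v x‖ ^ 4)) := by
    refine sum_le_sum fun x _ => ?_
    have h5 := mul_le_mul_of_nonneg_left (four_sub (Av (lab (A j)) v x) (Av (lab (B j)) v x))
      (hE0 x)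
    rw [hd]
    unfold dd
    linarith
  rw [sum_add_distrib, ← mul_sum, ← mul_sum] at h4
  have h6 := sum_norm_four_Av_le (lab (A j)) hE0 (fun x y hxy =>
    endInd_label (hS.hA0 j) (hS.dvd_A j) ((hS.hAB j).trans (hS.hBρ j)) hxy) v
  have h7 := sum_norm_four_Av_le (lab (B j)) hE0 (fun x y hxy =>
    endInd_label (hS.hB0 j) (hS.hBA j) (hS.hBρ j) hxy) v
  linarith

/-- the martingale version of the operator -/
noncomputable def Tm (A B r : ℕ → ℕ) (J : ℕ) (v : ZMod M → ℂ) (x : ZMod M) : ℂ :=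
  ∑ j ∈ range J, dd (A j) (B j) v (x - (r j : ZMod M))

lemma Tm_bound {A B ρ : ℕ → ℕ} (hS : Scales A B ρ) (r : ℕ → ℕ) (hAr : ∀ j, A j ∣ r j)
    (hrρ : ∀ j, r j ≤ ρ j) (J : ℕ) (hM : A J ∣ M) (v : ZMod M → ℂ) :
    ∑ x, ‖Tm A B r J v x‖ ^ 4 ≤ 10368 * ∑ x, ‖v x‖ ^ 4 +
      2048 * ∑ j ∈ range J, 8 ^ (j + 1) * ∑ x, endInd (A (j + 1)) (ρ j) x * ‖v x‖ ^ 4 := by
  have hMj : ∀ j ≤ J, A j ∣ M := fun j hj => (hS.dvd_A' hj).trans hM
  have h1 := mart_part hS r hAr hrρ J hM v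
  set e : ℕ → ZMod M → ℂ := fun j x =>
    dd (A j) (B j) v (rot (A (j + 1)) (A (j + 1) - r j) x) with he
  set Y : ℕ → ZMod M → ℂ := fun j x => dd (A j) (B j) v (x - (r j : ZMod M)) - e j x with hY
  have h2 : ∀ x, Tm A B r J v x = ∑ j ∈ range J, e j x + ∑ j ∈ range J, Y j x := by
    intro x
    unfold Tm
    rw [← sum_add_distrib]
    refine sum_congr rfl fun j _ => ?_
    simp only [hY]; ring
  have h3 : ∑ x, ‖∑ j ∈ range J, Y j x‖ ^ 4 ≤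
      ∑ j ∈ range J, 8 ^ (j + 1) * (256 * ∑ x, endInd (A (j + 1)) (ρ j) x * ‖v x‖ ^ 4) := by
    calc ∑ x, ‖∑ j ∈ range J, Y j x‖ ^ 4
        ≤ ∑ x, ∑ j ∈ range J, (8 : ℝ) ^ (j + 1) * ‖Y j x‖ ^ 4 := by
          refine sum_le_sum fun x _ => ?_
          exact (pow_le_pow_left₀ (norm_nonneg _) (norm_sum_le _ _) 4).trans
            (four_sum_le (fun j => ‖Y j x‖) (fun j => norm_nonneg _) J)
      _ = ∑ j ∈ range J, (8 : ℝ) ^ (j + 1) * ∑ x, ‖Y j x‖ ^ 4 := by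
          rw [sum_comm]; simp only [mul_sum]
      _ ≤ _ := by
          refine sum_le_sum fun j hj => mul_le_mul_of_nonneg_left ?_ (by positivity)
          exact err_part hS r hrρ j (hMj _ (mem_range.mp hj)) v
  have h4 : ∑ x, ‖Tm A B r J v x‖ ^ 4 ≤
      ∑ x, (8 * ‖∑ j ∈ range J, e j x‖ ^ 4 + 8 * ‖∑ j ∈ range J, Y j x‖ ^ 4) := by
    refine sum_le_sum fun x _ => ?_
    rw [h2]; exact four_add _ _
  rw [sum_add_distrib, ← mul_sum, ← mul_sum] at h4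
  have h5 : ∑ j ∈ range J, (8 : ℝ) ^ (j + 1) *
      (256 * ∑ x, endInd (A (j + 1)) (ρ j) x * ‖v x‖ ^ 4) =
      256 * ∑ j ∈ range J, 8 ^ (j + 1) * ∑ x, endInd (A (j + 1)) (ρ j) x * ‖v x‖ ^ 4 := by
    rw [mul_sum]
    exact sum_congr rfl fun j _ => by ring
  rw [h5] at h3
  linarith

lemma sum_Tm_translate {A B ρ : ℕ → ℕ} (hS : Scales A B ρ) (r : ℕ → ℕ) (J : ℕ) (hM : A J ∣ M)
    (u : ZMod M → ℂ) (x : ZMod M) :
    ∑ τ : ZMod M, Tm A B r J (fun y => u (y + τ)) (x - τ) =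
      (M : ℝ) • ∑ j ∈ range J, (Lam (A j) u (x - (r j : ZMod M)) -
        Lam (B j) u (x - (r j : ZMod M))) := by
  unfold Tm
  rw [sum_comm, smul_sum]
  refine sum_congr rfl fun j hj => ?_
  have hj' := mem_range.mp hj
  have hMA : A j ∣ M := (hS.dvd_A' hj'.le).trans hM
  have hMB : B j ∣ M := (hS.hBA j).trans ((hS.dvd_A' hj').trans hM)
  unfold dd
  rw [sum_sub_distrib, smul_sub, ← sum_Av_translate (hS.hA0 j) hMA,
    ← sum_Av_translate (hS.hB0 j) hMB]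
  have h : ∀ τ : ZMod M, x - τ - (r j : ZMod M) = x - (r j : ZMod M) - τ := fun τ => by ring
  simp only [h]

/-- **The translation lemma on the cyclic group.** -/
theorem cyc_bound {A B ρ : ℕ → ℕ} (hS : Scales A B ρ) (r : ℕ → ℕ) (hAr : ∀ j, A j ∣ r j)
    (hrρ : ∀ j, r j ≤ ρ j) (J : ℕ) (hM : A J ∣ M)
    (hsum : ∑ j ∈ range J, (8 : ℝ) ^ (j + 1) * ((ρ j : ℝ) / A (j + 1)) ≤ 1) (u : ZMod M → ℂ) :
    ∑ x, ‖∑ j ∈ range J, (Lam (A j) u (x - (r j : ZMod M)) -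
        Lam (B j) u (x - (r j : ZMod M)))‖ ^ 4 ≤ 12416 * ∑ x, ‖u x‖ ^ 4 := by
  have hMpos : (0 : ℝ) < M := by exact_mod_cast Nat.pos_of_ne_zero (NeZero.ne M)
  set P := ∑ x, ‖u x‖ ^ 4 with hP
  have hP0 : 0 ≤ P := sum_nonneg fun x _ => by positivity
  have h1 : ∀ x : ZMod M, ‖∑ j ∈ range J, (Lam (A j) u (x - (r j : ZMod M)) -
        Lam (B j) u (x - (r j : ZMod M)))‖ ^ 4 ≤
      (M : ℝ)⁻¹ * ∑ τ : ZMod M, ‖Tm A B r J (fun y => u (y + τ)) (x - τ)‖ ^ 4 := by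
    intro x
    have h2 := sum_Tm_translate hS r J hM u x
    set z := ∑ j ∈ range J, (Lam (A j) u (x - (r j : ZMod M)) -
        Lam (B j) u (x - (r j : ZMod M))) with hz
    have h3 : (M : ℝ) * ‖z‖ ≤ ∑ τ : ZMod M, ‖Tm A B r J (fun y => u (y + τ)) (x - τ)‖ := by
      have h4 : (M : ℝ) * ‖z‖ = ‖(M : ℝ) • z‖ := by
        rw [norm_smul, Real.norm_natCast]
      rw [h4, ← h2]
      exact norm_sum_le _ _
    have h5 := pow_sum_div_card_le_sum_pow (s := (univ : Finset (ZMod M)))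
      (f := fun τ => ‖Tm A B r J (fun y => u (y + τ)) (x - τ)‖) (fun τ _ => norm_nonneg _) 3
    rw [card_univ, ZMod.card] at h5
    have h6 : ((M : ℝ) * ‖z‖) ^ 4 ≤
        (∑ τ : ZMod M, ‖Tm A B r J (fun y => u (y + τ)) (x - τ)‖) ^ 4 :=
      pow_le_pow_left₀ (by positivity) h3 4
    rw [div_le_iff₀ (by positivity)] at h5
    have h7 : (M : ℝ) ^ 4 * ‖z‖ ^ 4 ≤
        (∑ τ : ZMod M, ‖Tm A B r J (fun y => u (y + τ)) (x - τ)‖ ^ 4) * (M : ℝ) ^ 3 := by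
      calc (M : ℝ) ^ 4 * ‖z‖ ^ 4 = ((M : ℝ) * ‖z‖) ^ 4 := by ring
        _ ≤ _ := h6
        _ ≤ _ := h5
    rw [← div_eq_inv_mul, le_div_iff₀ hMpos]
    have h8 : (‖z‖ ^ 4 * M) * (M : ℝ) ^ 3 ≤
        (∑ τ : ZMod M, ‖Tm A B r J (fun y => u (y + τ)) (x - τ)‖ ^ 4) * (M : ℝ) ^ 3 := by
      calc (‖z‖ ^ 4 * M) * (M : ℝ) ^ 3 = (M : ℝ) ^ 4 * ‖z‖ ^ 4 := by ring
        _ ≤ _ := h7
    exact le_of_mul_le_mul_right h8 (by positivity)
  refine (sum_le_sum fun x _ => h1 x).trans ?_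
  rw [← mul_sum, sum_comm]
  have h2 : ∀ τ : ZMod M, ∑ x, ‖Tm A B r J (fun y => u (y + τ)) (x - τ)‖ ^ 4 ≤
      10368 * P + 2048 * ∑ j ∈ range J, 8 ^ (j + 1) *
        ∑ x, endInd (A (j + 1)) (ρ j) x * ‖u (x + τ)‖ ^ 4 := by
    intro τ
    have h3 : ∑ x, ‖Tm A B r J (fun y => u (y + τ)) (x - τ)‖ ^ 4 =
        ∑ x, ‖Tm A B r J (fun y => u (y + τ)) x‖ ^ 4 :=
      (Equiv.subRight τ).sum_comp (fun x => ‖Tm A B r J (fun y => u (y + τ)) x‖ ^ 4)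
    rw [h3]
    have h4 := Tm_bound hS r hAr hrρ J hM (fun y => u (y + τ))
    have h5 : ∑ x, ‖u (x + τ)‖ ^ 4 = P := Equiv.sum_comp (Equiv.addRight τ) (fun x => ‖u x‖ ^ 4)
    beta_reduce at h4
    rw [h5] at h4
    exact h4
  have h3 : ∑ τ : ZMod M, ∑ x, ‖Tm A B r J (fun y => u (y + τ)) (x - τ)‖ ^ 4 ≤
      ∑ τ : ZMod M, (10368 * P + 2048 * ∑ j ∈ range J, 8 ^ (j + 1) *
        ∑ x, endInd (A (j + 1)) (ρ j) x * ‖u (x + τ)‖ ^ 4) := sum_le_sum fun τ _ => h2 τ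
  have h4 : ∑ τ : ZMod M, (10368 * P + 2048 * ∑ j ∈ range J, 8 ^ (j + 1) *
        ∑ x, endInd (A (j + 1)) (ρ j) x * ‖u (x + τ)‖ ^ 4) =
      M * (10368 * P) + 2048 * ∑ j ∈ range J, 8 ^ (j + 1) * (M * (ρ j / A (j + 1)) * P) := by
    rw [sum_add_distrib, sum_const, card_univ, ZMod.card, nsmul_eq_mul, ← mul_sum, sum_comm]
    congr 2
    refine sum_congr rfl fun j hj => ?_
    rw [← mul_sum, sum_comm]
    congr 1
    have h5 : ∀ x : ZMod M, ∑ τ : ZMod M, endInd (A (j + 1)) (ρ j) x * ‖u (x + τ)‖ ^ 4 =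
        endInd (A (j + 1)) (ρ j) x * P := by
      intro x
      rw [← mul_sum]
      congr 1
      exact Equiv.sum_comp (Equiv.addLeft x) (fun x => ‖u x‖ ^ 4)
    simp only [h5]
    rw [← sum_mul, sum_endInd (hS.hA0 _) ((hS.dvd_A' (mem_range.mp hj)).trans hM) (hS.hρA j)]
  rw [h4] at h3
  have h5 : ∑ j ∈ range J, (8 : ℝ) ^ (j + 1) * (M * (ρ j / A (j + 1)) * P) =
      M * P * ∑ j ∈ range J, (8 : ℝ) ^ (j + 1) * ((ρ j : ℝ) / A (j + 1)) := by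
    rw [mul_sum]
    exact sum_congr rfl fun j _ => by ring
  rw [h5] at h3
  have h6 : M * P * ∑ j ∈ range J, (8 : ℝ) ^ (j + 1) * ((ρ j : ℝ) / A (j + 1)) ≤ M * P * 1 :=
    mul_le_mul_of_nonneg_left hsum (by positivity)
  rw [← div_eq_inv_mul, div_le_iff₀ hMpos]
  linarith

end Pool.Agent.H33.Cor
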